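import Pool.Agent.P.MP_4fdccb_ag.Core

/-! Algebra of the base curve. -/

set_option linter.unusedSectionVars false
set_option linter.unusedVariables false

namespace Pool.Agent.ZPT
open Finset MvPolynomial Module IntermediateField IntermediateField.algebraAdjoinAdjoin

variable {K : Type} [Field K] [NumberField K] [Algebra K ℂ] {B : Type} [Fintype B] [DecidableEq B]

theorem e2_map {L L' : Type} [CommRing L] [Algebra K L] [CommRing L'] [Algebra K L']
    (φ : L →ₐ[K] L') (t x : L) (A : Polynomial (Polynomial K)) :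
    φ (e2 t x A) = e2 (φ t) (φ x) A := by
  refine (Polynomial.hom_eval₂ A _ (φ : L →+* L') x).trans ?_
  rw [← AlgHom.comp_toRingHom, ← Polynomial.aeval_algHom]
  rfl

theorem lau {ι : Type} [Fintype ι] (a : ι → ℤ) (R : MvPolynomial (Option ι) K) :
    ∃ (G : MvPolynomial ι K) (N : ℕ), ∀ (L : Type) [Field L] [Algebra K L] (Q : ι → L),
      (∀ i, Q i ≠ 0) → aeval Q G =
        (∏ i, Q i) ^ N * aeval (fun o : Option ι => o.elim (∏ k, Q k ^ a k) Q) R := by
  induction R using MvPolynomial.induction_on with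
  | C c => exact ⟨C c, 0, fun L _ _ Q hQ => by simp⟩
  | add p q hp hq =>
    obtain ⟨G, N, h⟩ := hp
    obtain ⟨G', N', h'⟩ := hq
    refine ⟨G * (∏ i, X i) ^ N' + G' * (∏ i, X i) ^ N, N + N', fun L _ _ Q hQ => ?_⟩
    simp only [map_add, map_mul, map_pow, map_prod, aeval_X, h L Q hQ, h' L Q hQ]
    ring
  | mul_X p o hp =>
    obtain ⟨G, N, h⟩ := hp
    rcases o with _ | i
    · refine ⟨G * ∏ k, X k ^ (a k + (∑ j, (a j).natAbs : ℕ)).toNat, N + ∑ j, (a j).natAbs,
        fun L _ _ Q hQ => ?_⟩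
      have : ∀ k, Q k ^ (a k + (∑ j, (a j).natAbs : ℕ)).toNat =
          Q k ^ a k * Q k ^ ∑ j, (a j).natAbs := fun k => by
        have := single_le_sum (f := fun j => (a j).natAbs) (fun _ _ => Nat.zero_le _) (mem_univ k)
        rw [← zpow_natCast, Int.toNat_of_nonneg (by omega), zpow_add₀ (hQ k), zpow_natCast]
      simp only [map_mul, map_pow, map_prod, aeval_X, h L Q hQ, this, prod_mul_distrib, prod_pow,
        Option.elim_none]
      ring
    · refine ⟨G * X i, N, fun L _ _ Q hQ => ?_⟩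
      simp only [map_mul, aeval_X, h L Q hQ, Option.elim_some]
      ring

variable {E : Type} [Field E] [Algebra K E]

theorem alg_t (htr : Algebra.trdeg K E ≤ 1) {t : E} (ht : Transcendental K t) :
    Algebra.IsAlgebraic (Algebra.adjoin K {t}) E := by
  have h := ((algebraicIndependent_unique_type_iff (x := fun _ : Unit => t)).2
    ht).isTranscendenceBasis_of_trdeg_le_of_finite (by simpa using htr)
  have := h.isAlgebraic
  rwa [Set.range_const] at this

theorem minrel (htr : Algebra.trdeg K E ≤ 1) {t y : E} (ht : Transcendental K t) (hy : y ≠ 0) :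
    ∃ A : Polynomial (Polynomial K), e2 t y A = 0 ∧ e2 t y (Polynomial.derivative A) ≠ 0 ∧
      A.coeff 0 ≠ 0 := by
  classical
  have h0 : ∃ n, ∃ A : Polynomial (Polynomial K), A ≠ 0 ∧ e2 t y A = 0 ∧ A.natDegree = n := by
    obtain ⟨p, p0, hp⟩ := (alg_t htr ht).isAlgebraic y
    let φ := Polynomial.algEquivOfTranscendental K t ht
    obtain ⟨A, rfl⟩ := Polynomial.map_surjective (φ : Polynomial K →+* _) φ.surjective p
    refine ⟨_, A, fun h => p0 (by simp [h]), ?_, rfl⟩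
    rw [Polynomial.aeval_def, Polynomial.eval₂_map] at hp
    convert hp using 1
    unfold e2
    congr 1
    ext <;> simp [φ]
  obtain ⟨A, a0, a1, a2⟩ := Nat.find_spec h0
  have hm : ∀ A' : Polynomial (Polynomial K), A' ≠ 0 → e2 t y A' = 0 →
      A.natDegree ≤ A'.natDegree := fun A' h1 h2 => a2 ▸ Nat.find_min' h0 ⟨A', h1, h2, rfl⟩
  have hd : A.natDegree ≠ 0 := fun h => by
    rw [Polynomial.eq_C_of_natDegree_eq_zero h] at a0 a1
    exact a0 (by rw [transcendental_iff.1 ht (A.coeff 0) (by simpa [e2] using a1), map_zero])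
  refine ⟨A, a1, fun h => ?_, fun h => ?_⟩
  · exact (hm _ (fun h => hd (Polynomial.derivative_eq_zero.1 h)) h).not_gt
      (Polynomial.natDegree_derivative_lt hd)
  · obtain ⟨A', rfl⟩ := Polynomial.X_dvd_iff.2 h
    have h1 := right_ne_zero_of_mul a0
    have h2 := hm A' h1 (by simpa [e2, hy] using a1)
    rw [Polynomial.natDegree_X_mul h1] at h2
    omega

/-- `q` is the generic point of a curve -/
structure Gen (𝔮 : Ideal (MvPolynomial B K)) (q : B → E) : Prop where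
  ker : ∀ g, aeval q g = 0 ↔ g ∈ 𝔮
  top : adjoin K (Set.range q) = ⊤
  tr : Algebra.trdeg K E ≤ 1
  nz : ∀ i, q i ≠ 0
  inf : ∀ a : B → ℤ, a ≠ 0 → ((fun Q : B → ℂ => ∏ i, Q i ^ a i) '' Tor 𝔮).Infinite

variable {𝔮 : Ideal (MvPolynomial B K)} {q : B → E}

theorem Gen.trans (h : Gen 𝔮 q) {a : B → ℤ} (ha : a ≠ 0) : Transcendental K (∏ i, q i ^ a i) := by
  rintro ⟨f, f0, hf⟩
  obtain ⟨G, N, hG⟩ := lau a (Polynomial.aeval (X none : MvPolynomial (Option B) K) f)
  simp only [← Polynomial.aeval_algHom_apply, aeval_X, Option.elim_none] at hG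
  refine h.inf a ha ((f.rootSet_finite ℂ).subset ?_)
  rintro _ ⟨Q, hQ, rfl⟩
  have h1 := hQ.2 G ((h.ker G).1 (by rw [hG E q h.nz, hf, mul_zero]))
  rw [hG ℂ Q hQ.1] at h1
  exact (Polynomial.mem_rootSet_of_ne f0).2
    ((mul_eq_zero.1 h1).resolve_left (pow_ne_zero _ (prod_ne_zero_iff.2 fun i _ => hQ.1 i)))

theorem Gen.trans₁ (h : Gen 𝔮 q) (i : B) : Transcendental K (q i) := by
  have := h.trans (a := Pi.single i 1) (by simp)
  rwa [prod_eq_single i (fun j _ hj => by simp [hj]) (by simp), Pi.single_eq_same, zpow_one] at this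

theorem Gen.fz (h : Gen 𝔮 q) (i₀ : B) {g : MvPolynomial B K} (hg : aeval q g ≠ 0) :
    ((fun Q : B → ℂ => Q i₀) '' {Q ∈ Tor 𝔮 | aeval Q g = 0}).Finite := by
  obtain ⟨A, a1, -, a2⟩ := minrel h.tr (h.trans₁ i₀) hg
  refine ((A.coeff 0).rootSet_finite ℂ).subset ?_
  rintro _ ⟨Q, ⟨hQ, h1⟩, rfl⟩
  have h2 := hQ.2 (e2 (X i₀) g A) ((h.ker _).1 (by rwa [e2_map, aeval_X]))
  rw [e2_map, aeval_X, h1, e2, Polynomial.eval₂_at_zero] at h2
  exact (Polynomial.mem_rootSet_of_ne a2).2 h2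

theorem Gen.br (h : Gen 𝔮 q) (i₀ i : B) : ∃ (A : Polynomial (Polynomial K)) (g : MvPolynomial B K),
    aeval q g ≠ 0 ∧ (∀ Q ∈ Tor 𝔮, e2 (Q i₀) (Q i) A = 0) ∧
      ∀ Q : B → ℂ, aeval Q g = e2 (Q i₀) (Q i) (Polynomial.derivative A) := by
  obtain ⟨A, a1, a2, -⟩ := minrel h.tr (h.trans₁ i₀) (h.nz i)
  refine ⟨A, e2 (X i₀) (X i) (Polynomial.derivative A), by rwa [e2_map, aeval_X, aeval_X],
    fun Q hQ => ?_, fun Q => by rw [e2_map, aeval_X, aeval_X]⟩
  have h2 := hQ.2 (e2 (X i₀) (X i) A) ((h.ker _).1 (by rwa [e2_map, aeval_X, aeval_X]))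
  rwa [e2_map, aeval_X, aeval_X] at h2

theorem Gen.dep (h : Gen 𝔮 q) : ∃ d : ℕ, ∀ i (τ : E), ∃ g : ℕ → Polynomial K,
    ∑ l ∈ range (d + 1), Polynomial.aeval (q i) (g l) * τ ^ l = 0 ∧ ∃ l ∈ range (d + 1), g l ≠ 0 := by
  refine ⟨univ.sup fun i => finrank K⟮q i⟯ E, fun i τ => ?_⟩
  set d := univ.sup fun i => finrank K⟮q i⟯ E
  have h1 := alg_t h.tr (h.trans₁ i)
  have h2 : Algebra.IsAlgebraic K⟮q i⟯ E :=
    .extendScalars (FaithfulSMul.algebraMap_injective (Algebra.adjoin K {q i}) _)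
  have h3 : FiniteDimensional K⟮q i⟯ E := by
    have h4 := finiteDimensional_adjoin (K := K⟮q i⟯) (S := Set.range q)
      fun x _ => (h2.isAlgebraic x).isIntegral
    rw [adjoin_eq_top_of_adjoin_eq_top K h.top] at h4
    exact topEquiv.toLinearEquiv.finiteDimensional
  have h4 : ¬ LinearIndependent (Algebra.adjoin K {q i}) fun l : Fin (d + 1) => τ ^ (l : ℕ) :=
    fun h5 => by
      have h6 := ((LinearIndependent.iff_fractionRing _ K⟮q i⟯).1 h5).fintype_card_le_finrank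
      have h7 : finrank K⟮q i⟯ E ≤ d := le_sup (f := fun i => finrank K⟮q i⟯ E) (mem_univ i)
      rw [Fintype.card_fin] at h6
      omega
  obtain ⟨c, c1, l, c2⟩ := Fintype.not_linearIndependent_iff.1 h4
  choose g hg using fun l => (Polynomial.algEquivOfTranscendental K _ (h.trans₁ i)).surjective (c l)
  refine ⟨fun l => if h : l < d + 1 then g ⟨l, h⟩ else 0, ?_, l, mem_range.2 l.2, fun h => c2 ?_⟩
  · rw [← c1, sum_range]
    refine sum_congr rfl fun l _ => ?_
    simp [l.2, ← hg, Subalgebra.smul_def]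
  · rw [← hg, show g l = 0 by simpa [l.2] using h, map_zero]

theorem Gen.phi (h : Gen 𝔮 q) : Phi 𝔮 := by
  classical
  obtain ⟨d, hd⟩ := h.dep
  refine ⟨d, fun a ha i => ?_⟩
  obtain ⟨g, g1, l, g2, g3⟩ := hd i (∏ k, q k ^ a k)
  obtain ⟨l₀, l1, l2⟩ := exists_max_image ((range (d + 1)).filter fun l => g l ≠ 0)
    (fun l => (g l).natDegree) ⟨l, mem_filter.2 ⟨g2, g3⟩⟩
  rw [mem_filter] at l1
  set e := (g l₀).natDegree
  obtain ⟨G₁, N₁, h₁⟩ := lau a (∑ j ∈ range (e + 1), (∑ l ∈ range (d + 1),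
    C ((g l).coeff j) * X none ^ l) * X (some i) ^ j : MvPolynomial (Option B) K)
  obtain ⟨G₂, N₂, h₂⟩ := lau a (∑ l ∈ range (d + 1),
    C ((g l).coeff e) * X none ^ l : MvPolynomial (Option B) K)
  simp only [map_sum, map_mul, map_pow, aeval_X, aeval_C, Option.elim_none, Option.elim_some]
    at h₁ h₂
  have p0 : ∀ {L : Type} [Field L] {Q : B → L}, (∀ i, Q i ≠ 0) → ∀ N : ℕ, (∏ i, Q i) ^ N ≠ 0 :=
    fun hQ N => pow_ne_zero _ (prod_ne_zero_iff.2 fun i _ => hQ i)
  have m₁ : G₁ ∈ 𝔮 := (h.ker _).1 (by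
    rw [h₁ E q h.nz, ← mul_zero ((∏ i, q i) ^ N₁), ← g1]
    congr 1
    simp only [sum_mul]
    rw [sum_comm]
    refine sum_congr rfl fun l hl => ?_
    rw [Polynomial.aeval_eq_sum_range' (n := e + 1), sum_mul]
    · exact sum_congr rfl fun j _ => by rw [Algebra.smul_def]; ring
    · by_cases h0 : g l = 0
      · simp [h0]
      · exact Nat.lt_succ_of_le (l2 l (mem_filter.2 ⟨hl, h0⟩)))
  refine ⟨e, fun p => (g p.2).coeff p.1, G₂, fun h0 => ?_, fun L _ _ Q hQ hG => ⟨?_, fun h0 => ?_⟩⟩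
  · rw [← h.ker, h₂ E q h.nz, mul_eq_zero, or_iff_right (p0 h.nz _)] at h0
    have h1 := transcendental_iff.1 (h.trans ha)
      (∑ l ∈ range (d + 1), Polynomial.monomial l ((g l).coeff e))
      (by simpa [Polynomial.aeval_monomial] using h0)
    have h2 := congrArg (Polynomial.coeff · l₀) h1
    simp only [Polynomial.finsetSum_coeff, Polynomial.coeff_monomial, sum_ite_eq', l1.1, if_true,
      Polynomial.coeff_zero] at h2
    exact l1.2 (Polynomial.leadingCoeff_eq_zero.1 h2)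
  · have := hQ.2 _ m₁
    rwa [h₁ L Q hQ.1, mul_eq_zero, or_iff_right (p0 hQ.1 _)] at this
  · exact hG (by rw [h₂ L Q hQ.1, h0, mul_zero])

end Pool.Agent.ZPT
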