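import Pool.Agent.P.MP_4fdccb_ag.AlgA

/-! Algebra of the generic fibre. -/

set_option linter.unusedSectionVars false
set_option linter.unusedVariables false

namespace Pool.Agent.ZPT
open Finset MvPolynomial Module IntermediateField IntermediateField.algebraAdjoinAdjoin

theorem alg_top {F E : Type} [Field F] [Field E] [Algebra F E] {S : Set E} (h : adjoin F S = ⊤) :
    Algebra.IsAlgebraic (Algebra.adjoin F S) E :=
  ⟨fun x => (Algebra.IsAlgebraic.isAlgebraic (R := Algebra.adjoin F S)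
    (⟨x, h ▸ mem_top⟩ : adjoin F S)).algebraMap (A := E)⟩

theorem tr_eq {F E ι : Type} [Field F] [Field E] [Algebra F E] {I : Ideal (MvPolynomial ι F)}
    {x : ι → E} (hk : ∀ g, aeval x g = 0 ↔ g ∈ I) (h : adjoin F (Set.range x) = ⊤) :
    Algebra.trdeg F E = Algebra.trdeg F (MvPolynomial ι F ⧸ I) := by
  have := alg_top h
  rw [← trdeg_add_eq F (Algebra.adjoin F (Set.range x)) (A := E), trdeg_eq_zero (A := E), add_zero,
    Algebra.adjoin_range_eq_range_aeval]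
  exact ((Ideal.quotientEquivAlgOfEq F (Ideal.ext fun g => (hk g).symm.trans
    (by simp [Subtype.ext_iff]))).trans (Ideal.quotientKerAlgEquivOfSurjective
      (aeval x).rangeRestrict_surjective)).trdeg_eq.symm

theorem restr {F E ι : Type} [Field F] [Field E] [Algebra F E] (x : ι → E) :
    ∃ y : ι → adjoin F (Set.range x), algebraMap _ E ∘ y = x ∧ adjoin F (Set.range y) = ⊤ :=
  ⟨fun i => ⟨x i, subset_adjoin _ _ ⟨i, rfl⟩⟩, rfl, lift_injective _ (by
    rw [lift_adjoin, lift_top, ← Set.range_comp]; rfl)⟩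

theorem aeval_up {F E Ω ι : Type} [Field F] [Field E] [Field Ω] [Algebra F E] [Algebra E Ω]
    [Algebra F Ω] [IsScalarTower F E Ω] (y : ι → E) (g : MvPolynomial ι F) :
    aeval (algebraMap E Ω ∘ y) g = 0 ↔ aeval y g = 0 := by
  rw [aeval_algebraMap_apply, map_eq_zero]

theorem gen_pt {F ι : Type} [Field F] (I : Ideal (MvPolynomial ι F)) [I.IsPrime] :
    ∃ (Ω : Type) (_ : Field Ω) (_ : Algebra F Ω) (z : ι → Ω),
      (∀ g, aeval z g = 0 ↔ g ∈ I) ∧ adjoin F (Set.range z) = ⊤ := by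
  let φ := (IsScalarTower.toAlgHom F (MvPolynomial ι F ⧸ I)
    (FractionRing (MvPolynomial ι F ⧸ I))).comp (Ideal.Quotient.mkₐ F I)
  obtain ⟨y, h1, h2⟩ := restr (F := F) (φ ∘ X)
  refine ⟨_, inferInstance, inferInstance, y, fun g => ?_, h2⟩
  rw [← aeval_up (Ω := FractionRing (MvPolynomial ι F ⧸ I)), h1, ← aeval_unique]
  simp [φ, Ideal.Quotient.eq_zero_iff_mem]

theorem dvd_of_root {R Ω : Type} [CommRing R] [IsDomain R] [UniqueFactorizationMonoid R] [Field Ω]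
    {φ : R →+* Ω} (hφ : Function.Injective φ) {y : Ω} {f g : Polynomial R} (hf : Irreducible f)
    (h1 : f.eval₂ φ y = 0) (h2 : g.eval₂ φ y = 0) : f ∣ g := by
  by_contra h
  have h3 := (cop hf.ne_zero fun H a b c =>
    absurd ((a.associated_of_dvd hf b).symm.dvd.trans c) h).map
    (Polynomial.eval₂RingHom (IsFractionRing.lift hφ : FractionRing R →+* Ω) y)
  have e : (IsFractionRing.lift hφ : FractionRing R →+* Ω).comp (algebraMap R _) = φ :=
    RingHom.ext (IsFractionRing.lift_algebraMap hφ)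
  simp only [Polynomial.coe_eval₂RingHom, Polynomial.eval₂_map, e, h1, h2] at h3
  exact not_isCoprime_zero_zero h3

theorem princ {E Ω : Type} [Field E] [Field Ω] [Algebra E Ω] {r : ℕ} {p : Fin (r + 1) → Ω}
    (htr : Algebra.trdeg E Ω = r) (htop : adjoin E (Set.range p) = ⊤) :
    ∃ F : MvPolynomial (Fin (r + 1)) E, Irreducible F ∧ ∀ G, aeval p G = 0 ↔ F ∣ G := by
  classical
  have := alg_top htop
  obtain ⟨j₀, hj⟩ : ∃ j₀ : Fin (r + 1), AlgebraicIndependent E (p ∘ j₀.succAbove) := by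
    obtain ⟨t, t1, t2⟩ := exists_isTranscendenceBasis_subset (R := E) (Set.range p)
    have t3 := t2.cardinalMk_eq_trdeg
    rw [htr] at t3
    obtain ⟨e⟩ := Cardinal.mk_eq_nat_iff.1 t3
    choose j hj using fun x : t => t1 x.2
    have j1 : Function.Injective (j ∘ e.symm) := fun a b h =>
      e.symm.injective (Subtype.ext (by rw [← hj, ← hj]; exact congrArg p h))
    obtain ⟨j₀, h0⟩ := card_eq_one.1 (show #(univ.image (j ∘ e.symm))ᶜ = 1 by
      rw [card_compl, card_image_of_injective _ j1]; simp)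
    have h1 : ∀ k, ∃ x, j x = j₀.succAbove k := fun k => by
      by_contra h
      have : j₀.succAbove k ∈ (univ.image (j ∘ e.symm))ᶜ := by
        simpa using fun x hx => h ⟨_, hx⟩
      exact j₀.succAbove_ne k (by rwa [h0, mem_singleton] at this)
    choose x hx using h1
    refine ⟨j₀, ?_⟩
    convert t2.1.comp x fun a b h => Fin.succAbove_right_injective (p := j₀)
      (by rw [← hx, ← hx, h]) using 1
    ext k
    simp [← hx, hj]
  obtain ⟨G₀, g1, g2⟩ : ∃ G₀, aeval p G₀ = 0 ∧ G₀ ≠ (0 : MvPolynomial _ E) := by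
    by_contra! h
    have := (algebraicIndependent_iff.2 h).cardinalMk_le_trdeg
    rw [htr, Cardinal.mk_fin, Nat.cast_le] at this
    omega
  obtain ⟨F, f1, f2⟩ : ∃ F, Irreducible F ∧ aeval p F = (0 : Ω) := by
    have h1 := (UniqueFactorizationMonoid.factors_prod g2).map (aeval p : _ →ₐ[E] Ω)
    rw [g1, associated_zero_iff_eq_zero, map_multiset_prod, Multiset.prod_eq_zero_iff,
      Multiset.mem_map] at h1
    obtain ⟨F, h2, h3⟩ := h1
    exact ⟨F, UniqueFactorizationMonoid.irreducible_of_factor F h2, h3⟩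
  let Ψ := (renameEquiv E (finSuccEquiv' j₀)).trans (optionEquivLeft E (Fin r))
  have hΨ : ∀ G, aeval p G = (Ψ G).eval₂ (aeval (p ∘ j₀.succAbove) : _ →ₐ[E] Ω) (p j₀) :=
    fun G => DFunLike.congr_fun (show aeval p = (Polynomial.aevalTower (aeval (p ∘ j₀.succAbove))
      (p j₀)).comp Ψ.toAlgHom from algHom_ext fun j => by
        refine Fin.succAboveCases j₀ ?_ (fun k => ?_) j <;> simp [Ψ]) G
  refine ⟨F, f1, fun G => ⟨fun h => (map_dvd_iff Ψ).1 (dvd_of_root hj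
    ((MulEquiv.irreducible_iff Ψ).2 f1) (hΨ F ▸ f2) (hΨ G ▸ h)), ?_⟩⟩
  rintro ⟨H, rfl⟩
  rw [map_mul, f2, zero_mul]

variable {K : Type} [Field K] [NumberField K] [Algebra K ℂ] {B : Type} [Fintype B] [DecidableEq B]
  {A : Type} [Fintype A] [DecidableEq A]

/-- specialisation of the base coordinates -/
noncomputable def th {L : Type} [Field L] [Algebra K L] (Q : B → L) :
    MvPolynomial (A ⊕ B) K →ₐ[K] MvPolynomial A L := aeval (Sum.elim X (C ∘ Q))

theorem th_aeval {L Ω : Type} [Field L] [Algebra K L] [Field Ω] [Algebra K Ω] [Algebra L Ω]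
    [IsScalarTower K L Ω] (Q : B → L) (P : A → Ω) (g : MvPolynomial (A ⊕ B) K) :
    aeval P (th Q g) = aeval (Sum.elim P (algebraMap L Ω ∘ Q)) g :=
  DFunLike.congr_fun (show ((aeval P).restrictScalars K).comp (th Q) = _ from
    algHom_ext fun o => by rcases o with j | i <;> simp [th]) g

theorem th_coeff {L : Type} [Field L] [Algebra K L] (Q : B → L) (g : MvPolynomial (A ⊕ B) K)
    (μ : A →₀ ℕ) : coeff μ (th Q g) = aeval Q (coeff μ (sumAlgEquiv K A B g)) := by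
  rw [show th Q = (mapAlgHom (aeval Q)).comp (sumAlgEquiv K A B).toAlgHom from
    algHom_ext fun o => by rcases o with j | i <;> simp [th]]
  exact coeff_map _ _ _

theorem th_base {L : Type} [Field L] [Algebra K L] (Q : B → L) (b : MvPolynomial B K) :
    th Q (rename Sum.inr b : MvPolynomial (A ⊕ B) K) = C (aeval Q b) := by
  rw [th, aeval_rename]
  exact aeval_algebraMap_apply (MvPolynomial A L) Q b

theorem th_FF {L : Type} [Field L] [Algebra K L] (Q : B → L) (s : Finset (A →₀ ℕ))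
    (c : (A →₀ ℕ) → MvPolynomial B K) :
    th Q (FF s c) = ∑ μ ∈ s, monomial μ (aeval Q (c μ)) := by
  simp only [FF, map_sum, map_mul, th_base]
  exact sum_congr rfl fun μ _ => by simp [th, monomial_eq, Finsupp.prod_fintype]

variable {E : Type} [Field E] [Algebra K E] {𝔮 : Ideal (MvPolynomial B K)} {q : B → E}

theorem Gen.clear (h : Gen 𝔮 q) (H : MvPolynomial A E) : ∃ (b : MvPolynomial B K)
    (c : (A →₀ ℕ) → MvPolynomial B K), aeval q b ≠ 0 ∧
      ∀ μ ∈ H.support, aeval q (c μ) = aeval q b * coeff μ H := by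
  have : ∀ x : E, ∃ a b : MvPolynomial B K, aeval q b ≠ 0 ∧ aeval q a = aeval q b * x := fun x => by
    obtain ⟨a, b, rfl⟩ := (mem_adjoin_range_iff K q x).1 (h.top ▸ mem_top)
    by_cases hb : aeval q b = 0
    · exact ⟨0, 1, by simp, by simp [hb]⟩
    · exact ⟨a, b, hb, by field_simp⟩
  choose a b h1 h2 using fun μ => this (coeff μ H)
  refine ⟨∏ μ ∈ H.support, b μ, fun μ => a μ * ∏ ν ∈ H.support.erase μ, b ν,
    by rw [map_prod]; exact prod_ne_zero_iff.2 fun μ _ => h1 μ, fun μ hμ => ?_⟩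
  rw [← mul_prod_erase _ _ hμ, map_mul, map_mul, h2]
  ring

theorem Gen.clear' (h : Gen 𝔮 q) (H : MvPolynomial A E) : ∃ (b : MvPolynomial B K)
    (c : (A →₀ ℕ) → MvPolynomial B K), aeval q b ≠ 0 ∧ (∀ μ ∈ H.support, aeval q (c μ) ≠ 0) ∧
      th q (FF H.support c) = C (aeval q b) * H := by
  obtain ⟨b, c, h1, h2⟩ := h.clear H
  refine ⟨b, c, h1, fun μ hμ => h2 μ hμ ▸ mul_ne_zero h1 (mem_support_iff.1 hμ), ?_⟩
  rw [th_FF]
  conv_rhs => rw [H.as_sum, mul_sum]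
  exact sum_congr rfl fun μ hμ => by rw [h2 μ hμ, C_mul_monomial]

theorem Gen.spec (h : Gen 𝔮 q) {g : MvPolynomial (A ⊕ B) K} (hg : th q g = 0) {Q : B → ℂ}
    (hQ : Q ∈ Tor 𝔮) (P : A → ℂ) : aeval (Sum.elim P Q) g = 0 := by
  have : th Q g = 0 := MvPolynomial.ext _ _ fun μ => by
    rw [th_coeff, coeff_zero]
    exact hQ.2 _ ((h.ker _).1 (by rw [← th_coeff, hg, coeff_zero]))
  exact (th_aeval Q P g).symm.trans (by rw [this, map_zero])

theorem coeff_sum_mon (s : Finset (A →₀ ℕ)) (d : (A →₀ ℕ) → E) (μ : A →₀ ℕ) :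
    coeff μ (∑ ν ∈ s, monomial ν (d ν)) = if μ ∈ s then d μ else 0 := by
  simp [coeff_sum, coeff_monomial]

theorem sub_dvd {s T : Finset (A →₀ ℕ)} {d : (A →₀ ℕ) → E} (hd : ∀ μ ∈ s, d μ ≠ 0) (h1 : T ⊆ s)
    (h2 : T.Nonempty) (h3 : T ≠ s) :
    ¬ (∑ ν ∈ s, monomial ν (d ν) : MvPolynomial A E) ∣ ∑ ν ∈ T, monomial ν (d ν) := by
  rintro ⟨H, hH⟩
  obtain ⟨μ, m1⟩ := h2
  obtain ⟨ν, n1, n2⟩ := exists_of_ssubset (h1.ssubset_of_ne h3)
  have h4 : (∑ ν ∈ T, monomial ν (d ν) : MvPolynomial A E) ≠ 0 := fun h => by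
    have := congrArg (coeff μ) h
    rw [coeff_sum_mon, if_pos m1] at this
    exact hd μ (h1 m1) this
  have h5 : totalDegree (∑ ν ∈ T, monomial ν (d ν) : MvPolynomial A E) ≤
      totalDegree (∑ ν ∈ s, monomial ν (d ν) : MvPolynomial A E) :=
    sup_mono fun κ hκ => by
      rw [MvPolynomial.mem_support_iff, coeff_sum_mon] at hκ ⊢
      have : κ ∈ T := by by_contra h; exact hκ (if_neg h)
      rw [if_pos (h1 this)]
      exact hd κ (h1 this)
  rw [hH] at h4 h5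
  rw [totalDegree_mul_of_isDomain (left_ne_zero_of_mul h4) (right_ne_zero_of_mul h4),
    add_le_iff_nonpos_right, nonpos_iff_eq_zero, totalDegree_eq_zero_iff_eq_C] at h5
  have h6 := congrArg (coeff ν) hH
  rw [h5, mul_comm, coeff_C_mul, coeff_sum_mon, coeff_sum_mon, if_neg n2, if_pos n1, eq_comm,
    mul_eq_zero, or_iff_left (hd ν n1)] at h6
  exact h4 (by rw [h5, h6, map_zero, mul_zero])

theorem zpow_sum' {x : E} (hx : x ≠ 0) (s : Finset A) (f : A → ℤ) :
    x ^ ∑ j ∈ s, f j = ∏ j ∈ s, x ^ f j := by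
  induction s using Finset.induction_on with
  | empty => simp
  | insert a s ha ih => rw [sum_insert ha, prod_insert ha, zpow_add₀ hx, ih]

theorem setup {r : ℕ} {𝔓 : Ideal (MvPolynomial (Fin (r + 1) ⊕ B) K)} {Ω : Type} [Field Ω]
    [Algebra K Ω] [Algebra E Ω] [IsScalarTower K E Ω] {p : Fin (r + 1) → Ω} (h : Gen (base 𝔓) q)
    (hk : ∀ g, aeval (Sum.elim p (algebraMap E Ω ∘ q)) g = 0 ↔ g ∈ 𝔓)
    (htr : Algebra.trdeg E Ω = r) (htop : adjoin E (Set.range p) = ⊤) (hp : ∀ j, p j ≠ 0) (i₀ : B)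
    (hst : {ξ : Fin (r + 1) ⊕ B → ℂ | (∀ i, ξ i ≠ 0) ∧ ∀ z ∈ Tor 𝔓, ξ * z ∈ Tor 𝔓}.Finite) :
    ∃ s c T, Setup 𝔓 i₀ s c T ∧ (∀ T ⊆ s, T.Nonempty → T ≠ s → FF T c ∉ 𝔓) ∧
      ∀ a : Fin (r + 1) → ℤ, (∀ μ ∈ s, ∀ ν ∈ s, ∑ j, a j * μ j = ∑ j, a j * ν j) → a = 0 := by
  obtain ⟨F₀, f1, f2⟩ := princ htr htop
  obtain ⟨b₀, c, b1, c1, hF⟩ := h.clear' F₀
  set s := F₀.support
  have as : Associated F₀ (th q (FF s c)) :=
    hF ▸ associated_unit_mul_right _ _ ((Ne.isUnit b1).map C)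
  have hd : ∀ G, aeval p G = 0 ↔ th q (FF s c) ∣ G := fun G => (f2 G).trans as.dvd_iff_dvd_left
  have hm : ∀ g, g ∈ 𝔓 ↔ th q (FF s c) ∣ th q g := fun g => by rw [← hk, ← th_aeval, hd]
  have ir := as.irreducible f1
  have hs : ∀ a : Fin (r + 1) → ℤ,
      (∀ μ ∈ s, ∀ ν ∈ s, ∑ j, a j * μ j = ∑ j, a j * ν j) → a = 0 := fun a ha => by
    by_contra h0
    obtain ⟨j, hj⟩ := Function.ne_iff.1 h0
    obtain ⟨μ₀, m0⟩ : s.Nonempty := support_nonempty.2 f1.ne_zero
    let ξ : ∀ (L : Type) [Field L], ℕ → Fin (r + 1) ⊕ B → L := fun L _ n =>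
      Sum.elim (fun j => ((n + 1 : ℕ) : L) ^ a j) 1
    have hξ : ∀ (L : Type) [Field L] [Algebra K L] (n : ℕ) (z : Fin (r + 1) ⊕ B → L)
        (g : MvPolynomial (Fin (r + 1) ⊕ B) K),
        aeval z (aeval (fun i => C (ξ K n i) * X i) g : MvPolynomial (Fin (r + 1) ⊕ B) K) =
          aeval (ξ L n * z) g := fun L _ _ n z g => by
      rw [← AlgHom.comp_apply, comp_aeval]
      congr 2
      ext (j | i) <;> simp [ξ]
    refine Set.infinite_of_injective_forall_mem (f := ξ ℂ) (fun n m e => ?_) (fun n => ?_) hst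
    · have h1 : ((n + 1 : ℕ) : ℝ) ^ a j = ((m + 1 : ℕ) : ℝ) ^ a j := by
        have := congrArg norm (congrFun e (Sum.inl j))
        simpa only [ξ, Sum.elim_inl, norm_zpow, Complex.norm_natCast] using this
      have h2 := (zpow_left_inj₀ (by positivity) (by positivity) hj).1 h1
      simpa using h2
    · have h1 : ∀ i, ξ ℂ n i ≠ 0 := by
        rintro (j | i)
        exacts [zpow_ne_zero _ (Nat.cast_ne_zero.2 n.succ_ne_zero), one_ne_zero]
      refine ⟨h1, fun z hz => ⟨fun i => mul_ne_zero (h1 i) (hz.1 i), fun g hg => ?_⟩⟩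
      rw [← hξ]
      refine hz.2 _ ((hk _).1 ?_)
      obtain ⟨H, hH⟩ := (hm g).1 hg
      have h2 : ξ Ω n * Sum.elim p (algebraMap E Ω ∘ q) =
          Sum.elim (fun j => ((n + 1 : ℕ) : Ω) ^ a j * p j) (algebraMap E Ω ∘ q) := by
        ext (j | i) <;> simp [ξ]
      have h3 := (hk _).2 ((hm _).2 dvd_rfl)
      have : CharZero Ω := Algebra.charZero_of_charZero K Ω
      rw [hξ, h2, ← th_aeval, hH, map_mul, th_aeval, aeval_FF, mul_eq_zero]
      rw [aeval_FF] at h3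
      refine Or.inl ?_
      rw [← mul_zero (((n + 1 : ℕ) : Ω) ^ ∑ j, a j * μ₀ j), ← h3, mul_sum]
      refine sum_congr rfl fun μ hμ => ?_
      rw [ha μ₀ m0 μ hμ, zpow_sum' (Nat.cast_ne_zero.2 n.succ_ne_zero)]
      simp [mul_pow, prod_mul_distrib, zpow_mul, mul_left_comm]
  have z1 : ∃ μ ∈ s, μ 0 ≠ 0 := by
    by_contra! h0
    have := congrFun (hs (Pi.single 0 1) fun μ hμ ν hν => by
      simp [Pi.single_apply, h0 μ hμ, h0 ν hν]) 0
    simp at this
  obtain ⟨S, hS⟩ := (IsNoetherian.noetherian 𝔓 : 𝔓.FG)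
  have hb : ∀ g ∈ 𝔓, ∃ b : MvPolynomial B K, aeval q b ≠ 0 ∧ ∀ Q ∈ Tor (base 𝔓), aeval Q b ≠ 0 →
      ∀ P, aeval (Sum.elim P Q) (FF s c) = 0 → aeval (Sum.elim P Q) g = 0 := fun g hg => by
    obtain ⟨H, hH⟩ := (hm g).1 hg
    obtain ⟨b, d, h1, -, h2⟩ := h.clear' H
    refine ⟨b, h1, fun Q hQ h3 P h4 => ?_⟩
    have h5 := h.spec (g := rename Sum.inr b * g - FF s c * FF H.support d)
      (by rw [map_sub, map_mul, map_mul, th_base, h2, hH]; ring) hQ P
    rw [map_sub, map_mul, map_mul, h4, zero_mul, sub_zero, aeval_rename] at h5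
    exact (mul_eq_zero.1 h5).resolve_left h3
  choose! b b2 b3 using hb
  choose Ai g g1 g2 g3 using h.br i₀
  have hT : ∀ Q ∈ Tor (base 𝔓), Q i₀ ∉ (fun Q : B → ℂ => Q i₀) '' {Q ∈ Tor (base 𝔓) |
      aeval Q ((∏ μ ∈ s, c μ) * (∏ f ∈ S, b f) * ∏ i, g i) = 0} →
      (∀ μ ∈ s, aeval Q (c μ) ≠ 0) ∧ (∀ f ∈ S, aeval Q (b f) ≠ 0) ∧ ∀ i, aeval Q (g i) ≠ 0 :=
    fun Q hQ h1 => by
      have : aeval Q ((∏ μ ∈ s, c μ) * (∏ f ∈ S, b f) * ∏ i, g i) ≠ 0 := fun h2 =>
        h1 ⟨Q, ⟨hQ, h2⟩, rfl⟩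
      simpa [prod_eq_zero_iff, and_assoc] using this
  have sS : ∀ f ∈ S, f ∈ 𝔓 := fun f hf => hS ▸ Ideal.subset_span hf
  refine ⟨s, c, _, ⟨h.fz i₀ (g := (∏ μ ∈ s, c μ) * (∏ f ∈ S, b f) * ∏ i, g i) ?_,
    (hm _).2 dvd_rfl, fun Q hQ h1 => ⟨(hT Q hQ h1).1, fun P h2 h3 => ⟨?_, fun f hf => ?_⟩⟩, ?_, z1,
    fun G hG => ?_, fun i => ⟨Ai i, g2 i, fun Q hQ h1 => g3 i Q ▸ (hT Q hQ h1).2.2 i⟩⟩,
    fun T h1 h2 h3 h4 => ?_, hs⟩
  · simp only [map_mul, map_prod]
    exact mul_ne_zero (mul_ne_zero (prod_ne_zero_iff.2 c1)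
      (prod_ne_zero_iff.2 fun f hf => b2 f (sS f hf))) (prod_ne_zero_iff.2 fun i _ => g1 i)
  · rintro (j | i)
    exacts [h2 j, hQ.1 i]
  · have : 𝔓 ≤ RingHom.ker (aeval (Sum.elim P Q) : _ →ₐ[K] ℂ) := hS ▸ Ideal.span_le.2 fun f hf =>
      b3 f (sS f hf) Q hQ ((hT Q hQ h1).2.1 f hf) P (by rw [aeval_FF]; exact h3)
    exact this hf
  · by_contra! h0
    have h1 : X 0 ∣ th q (FF s c) := by
      rw [th_FF]
      exact dvd_sum fun μ hμ => X_dvd_monomial.2 (Or.inr (h0 μ hμ))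
    exact hp 0 (by simpa using (hd _).2 (X_prime.irreducible.associated_of_dvd ir h1).symm.dvd)
  · have h1 : AlgebraicIndependent E fun j : Fin r => p j.succ :=
      algebraicIndependent_iff.2 fun W hW => by
        by_contra h0
        obtain ⟨μ, m1, m2⟩ := z1
        have h2 := (map_dvd_iff (finSuccEquiv E r)).2
          ((f2 (rename Fin.succ W)).1 (by rwa [aeval_rename]))
        rw [show finSuccEquiv E r (rename Fin.succ W) = Polynomial.C W from DFunLike.congr_fun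
          (show (finSuccEquiv E r).toAlgHom.comp (rename Fin.succ) = Polynomial.CAlgHom from
            algHom_ext fun j => by simp [finSuccEquiv_X_succ]) W] at h2
        have h3 := Polynomial.natDegree_le_of_dvd h2 (Polynomial.C_ne_zero.2 h0)
        have h4 := monomial_le_degreeOf 0 m1
        rw [natDegree_finSuccEquiv, Polynomial.natDegree_C] at h3
        omega
    have h2 := (((algebraicIndependent_unique_type_iff (x := fun _ : Unit => q i₀)).2
      (h.trans₁ i₀)).sumElim_comp h1).comp (fun o : Option (Fin r) => o.elim (.inr ()) .inl)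
      (by rintro (_ | a) (_ | b) <;> simp)
    refine algebraicIndependent_iff.1 h2 G ?_
    rw [← hk, aeval_rename] at hG
    refine (congrArg (aeval · G) (funext ?_)).trans hG
    rintro (_ | j) <;> rfl
  · rw [hm, th_FF, th_FF] at h4
    exact sub_dvd c1 h1 h2 h3 h4

end Pool.Agent.ZPT
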