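import Pool.Agent.P.MP_4fdccb_ag.Slice

/-! Height bounds on the base curve and in the fibres. -/

set_option linter.unusedSectionVars false
set_option linter.unusedVariables false

namespace Pool.Agent.ZPT
open Finset MvPolynomial Topology Filter Metric Matrix Height Module Real

variable {K : Type} [Field K] [NumberField K] [Algebra K ℂ] {B : Type} [Fintype B] [DecidableEq B]

def OnL {ι L : Type} [Field L] [Algebra K L] (I : Ideal (MvPolynomial ι K)) (x : ι → L) : Prop :=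
  (∀ i, x i ≠ 0) ∧ ∀ f ∈ I, aeval x f = 0

theorem OnL.emb {ι L : Type} [Field L] [Algebra K L] {I : Ideal (MvPolynomial ι K)} {x : ι → L}
    (h : OnL I x) (σ : L →ₐ[K] ℂ) : (fun i => σ (x i)) ∈ Tor I :=
  ⟨fun i => (_root_.map_ne_zero σ).2 (h.1 i), fun f hf => by
    rw [← comp_aeval_apply, h.2 f hf, map_zero]⟩

theorem OnL.base {A L : Type} [Field L] [Algebra K L] {I : Ideal (MvPolynomial (A ⊕ B) K)}
    {x : A ⊕ B → L} (h : OnL I x) : OnL (base I) (x ∘ Sum.inr) :=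
  ⟨fun i => h.1 _, fun f hf => by rw [← aeval_rename]; exact h.2 _ hf⟩

theorem dirichlet (x : B → ℝ) (M : ℕ) (hM : 0 < M) : ∃ s : ℕ, 1 ≤ s ∧ s ≤ M ^ Fintype.card B ∧
    ∃ a : B → ℤ, ∀ i, |s * x i - a i| ≤ 1 / M := by
  have hM' : (0 : ℝ) < M := by exact_mod_cast hM
  obtain ⟨s, h1, s', h2, h3, h4⟩ := exists_ne_map_eq_of_card_lt_of_maps_to
    (s := range (M ^ Fintype.card B + 1)) (t := Fintype.piFinset fun _ : B => range M)
    (f := fun s i => ⌊M * Int.fract (s * x i)⌋₊) (by simp) fun s _ => by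
      refine mem_coe.2 (Fintype.mem_piFinset.2 fun i => mem_range.2 ?_)
      rw [Nat.floor_lt (mul_nonneg hM'.le (Int.fract_nonneg _))]
      exact mul_lt_of_lt_one_right hM' (Int.fract_lt_one _)
  wlog h : s' < s generalizing s s'
  · exact this s' h2 s h1 h3.symm h4.symm (by omega)
  refine ⟨s - s', by omega, by have := mem_range.1 h1; omega,
    fun i => ⌊s * x i⌋ - ⌊s' * x i⌋, fun i => ?_⟩
  have h5 : ⌊M * Int.fract (s * x i)⌋₊ = ⌊M * Int.fract (s' * x i)⌋₊ := congrFun h4 i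
  have a1 := Nat.floor_le (mul_nonneg hM'.le (Int.fract_nonneg (s * x i)))
  have a2 := Nat.lt_floor_add_one (M * Int.fract (s * x i))
  have a3 := Nat.floor_le (mul_nonneg hM'.le (Int.fract_nonneg (s' * x i)))
  have a4 := Nat.lt_floor_add_one (M * Int.fract (s' * x i))
  rw [h5] at a1 a2
  have e : ((s - s' : ℕ) : ℝ) * x i - ((⌊s * x i⌋ - ⌊s' * x i⌋ : ℤ) : ℝ) =
      Int.fract (s * x i) - Int.fract (s' * x i) := by
    rw [Nat.cast_sub h.le, Int.fract, Int.fract]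
    push_cast
    ring
  rw [e, le_div_iff₀ hM', ← abs_of_pos hM', ← abs_mul, abs_le]
  constructor <;> linarith

/-- relations of bounded degree between a monomial and a coordinate -/
def Phi (𝔮 : Ideal (MvPolynomial B K)) : Prop := ∃ d : ℕ, ∀ a : B → ℤ, a ≠ 0 → ∀ i,
  ∃ (e : ℕ) (c : ℕ × ℕ → K), ∃ G ∉ 𝔮, ∀ (L : Type) [Field L] [Algebra K L] (Q : B → L),
    OnL 𝔮 Q → aeval Q G ≠ 0 →
    ∑ j ∈ range (e + 1), (∑ l ∈ range (d + 1),
      algebraMap K L (c (j, l)) * (∏ k, Q k ^ a k) ^ l) * Q i ^ j = 0 ∧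
    ∑ l ∈ range (d + 1), algebraMap K L (c (e, l)) * (∏ k, Q k ^ a k) ^ l ≠ 0

theorem bmz {𝔮 : Ideal (MvPolynomial B K)} [hp : 𝔮.IsPrime] (h : Phi 𝔮) : ∃ h : ℝ, 0 < h ∧
    ∃ G ∉ 𝔮, ∀ (L : Type) [Field L] [NumberField L] [Algebra K L] (Q : B → L), OnL 𝔮 Q →
      aeval Q G ≠ 0 → ∀ b : B → ℤ, b ≠ 0 → ∏ i, Q i ^ b i = 1 →
      ∑ i, logHeight₁ (Q i) ≤ h * finrank ℚ L := by
  obtain ⟨d, h⟩ := h
  choose! e c G g1 g2 using h
  choose C c0 hC using fun a i => root_bound (e a i) d (c a i)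
  set M := 4 * d * Fintype.card B + 2 with hM
  have hM' : (2 : ℝ) ≤ M := by exact_mod_cast (by omega : 2 ≤ M)
  set 𝒜 := (Fintype.piFinset fun _ : B =>
    Icc (-(M ^ Fintype.card B + 1 : ℤ)) (M ^ Fintype.card B + 1)).erase 0 with hA
  have p0 : 0 ≤ ∑ a ∈ 𝒜, ∑ i, C a i := sum_nonneg fun _ _ => sum_nonneg fun _ _ => c0 _ _
  refine ⟨2 * ∑ a ∈ 𝒜, ∑ i, C a i + 1, by positivity, ∏ a ∈ 𝒜, ∏ i, G a i, fun h => ?_,
    fun L _ _ _ Q hQ hG b b0 hb => ?_⟩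
  · obtain ⟨a, ha, h⟩ := Ideal.IsPrime.prod_mem_iff.1 h
    obtain ⟨i, -, h⟩ := Ideal.IsPrime.prod_mem_iff.1 h
    exact g1 a (ne_of_mem_erase ha) i h
  obtain ⟨k, hk⟩ := Function.ne_iff.1 b0
  obtain ⟨i₁, -, h1⟩ := exists_max_image univ (fun i => (b i).natAbs) ⟨k, mem_univ k⟩
  set N := (b i₁).natAbs with hN
  have N0 : (0 : ℝ) < N := by
    exact_mod_cast (Int.natAbs_pos.2 hk).trans_le (h1 k (mem_univ k))
  have N1 : ∀ i, |(b i : ℝ) / N| ≤ 1 := fun i => by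
    rw [abs_div, abs_of_pos N0, div_le_one N0, ← Int.cast_abs, ← Nat.cast_natAbs]
    exact_mod_cast h1 i (mem_univ i)
  obtain ⟨s, s1, s2, a, ha⟩ := dirichlet (fun i => (b i : ℝ) / N) M (by omega)
  have s1' : (1 : ℝ) ≤ s := by exact_mod_cast s1
  have m1 : (1 : ℝ) / M ≤ 1 / 2 := by gcongr
  have aA : a ∈ 𝒜 := by
    refine mem_erase.2 ⟨fun h => ?_, Fintype.mem_piFinset.2 fun i => mem_Icc.2 (abs_le.1 ?_)⟩
    · have := ha i₁
      rw [h, Pi.zero_apply, Int.cast_zero, sub_zero, abs_mul, abs_div, ← Int.cast_abs (a := b i₁),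
        ← Nat.cast_natAbs, abs_of_pos N0, div_self N0.ne', abs_of_pos (by linarith)] at this
      linarith
    · have h2 : |s * ((b i : ℝ) / N)| ≤ s := by
        rw [abs_mul, abs_of_pos (by linarith)]
        exact mul_le_of_le_one_right (by linarith) (N1 i)
      have h3 : (s : ℝ) ≤ M ^ Fintype.card B := by exact_mod_cast s2
      have h4 : |(a i : ℝ)| ≤ M ^ Fintype.card B + 1 := by
        have h5 := abs_le.1 (ha i)
        have h6 := abs_le.1 h2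
        rw [abs_le]
        constructor <;> linarith [h5.1, h5.2, h6.1, h6.2]
      exact_mod_cast h4
  set H := ∑ i, logHeight₁ (Q i)
  have H0 : 0 ≤ H := sum_nonneg fun _ _ => zero_le_logHeight₁ _
  have k1 : logHeight₁ (∏ i, Q i ^ a i) ≤ H / M := by
    have e1 : (∏ i, Q i ^ a i) ^ N = ∏ i, Q i ^ (N * a i - s * b i) := by
      simp only [zpow_sub₀ (hQ.1 _), mul_comm (N : ℤ), mul_comm (s : ℤ), _root_.zpow_mul,
        zpow_natCast, prod_div_distrib, prod_pow, hb, one_pow, div_one]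
    have h2 := ht_mono Q (fun i => N * a i - s * b i) (B := N * (1 / M)) fun i => by
      have : ((N * a i - s * b i : ℤ) : ℝ) = -(N * (s * ((b i : ℝ) / N) - a i)) := by
        push_cast
        field_simp
        ring
      rw [this, abs_neg, abs_mul, abs_of_pos N0]
      exact mul_le_mul_of_nonneg_left (ha i) N0.le
    rw [← e1, logHeight₁_pow, mul_assoc] at h2
    exact (le_of_mul_le_mul_left h2 N0).trans (le_of_eq (by ring))
  have k2 : H ≤ Fintype.card B * (2 * d * (H / M)) + (∑ i, C a i) * finrank ℚ L := by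
    rw [sum_mul, ← nsmul_eq_mul, ← card_univ, ← sum_const, ← sum_add_distrib]
    refine sum_le_sum fun i _ => ?_
    obtain ⟨h2, h3⟩ := g2 a (ne_of_mem_erase aA) i L Q hQ fun h => hG (by
      rw [map_prod]
      refine prod_eq_zero aA ?_
      rw [map_prod]
      exact prod_eq_zero (mem_univ i) h)
    exact (hC a i L _ _ h2 h3).trans (by gcongr)
  have k3 : Fintype.card B * (2 * d * (H / M)) ≤ H / 2 := by
    rw [← mul_div_assoc, ← mul_div_assoc, div_le_div_iff₀ (by linarith) two_pos, hM]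
    push_cast
    nlinarith
  have k4 : ∑ i, C a i ≤ ∑ a ∈ 𝒜, ∑ i, C a i :=
    single_le_sum (f := fun a => ∑ i, C a i) (fun _ _ => sum_nonneg fun _ _ => c0 _ _) aA
  have := rank_pos L
  nlinarith

theorem base_lemma {𝔮 : Ideal (MvPolynomial B K)} [𝔮.IsPrime] {i₀ : B}
    (ht : ∀ F, rename (fun _ : Unit => i₀) F ∈ 𝔮 → F = 0)
    (hb : ∀ u w : B → ℝ, LinearIndependent ℝ ![u, w] →
      {Q ∈ Tor 𝔮 | u ⬝ᵥ Lg Q = 0 ∧ w ⬝ᵥ Lg Q = 0}.Finite) {ρ : ℝ} (hρ : 0 < ρ) (h : ℝ) :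
    ∃ ε > 0, ∃ F ∉ 𝔮, ∀ u w : B → ℝ, ‖u‖ = 1 → ‖w‖ = 1 → u ⬝ᵥ w = 0 →
      Kills F ρ h {Q ∈ Tor 𝔮 | u ⬝ᵥ Lg Q = 0 ∧ |w ⬝ᵥ Lg Q| ≤ ε} := by
  have hW : IsCompact {ω : (B → ℝ) × (B → ℝ) | ‖ω.1‖ = 1 ∧ ‖ω.2‖ = 1 ∧ ω.1 ⬝ᵥ ω.2 = 0} :=
    (isCompact_closedBall 0 1).of_isClosed_subset ((isClosed_eq (by fun_prop) continuous_const).inter
      ((isClosed_eq (by fun_prop) continuous_const).inter
        (isClosed_eq (by fun_prop) continuous_const))) fun ω h => by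
      simp [Prod.norm_def, h.1, h.2.1]
  obtain ⟨ε, e0, F, f0, hF⟩ := pcm (𝔓 := 𝔮) hW (fun ω y => |ω.1 ⬝ᵥ y| + |ω.2 ⬝ᵥ y|)
    (by unfold Function.uncurry; fun_prop) (fun ω hω R => by
      have h1 : ∀ v : B → ℝ, ‖v‖ = 1 → v ⬝ᵥ v ≠ 0 := fun v hv h => by
        rw [dotProduct_self_eq_zero.1 h, norm_zero] at hv
        exact zero_ne_one hv
      have h2 : LinearIndependent ℝ ![ω.1, ω.2] := LinearIndependent.pair_iff.2 fun s t h => by
        have a := congrArg (ω.1 ⬝ᵥ ·) h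
        have b := congrArg (· ⬝ᵥ ω.2) h
        simp only [dotProduct_add, add_dotProduct, dotProduct_smul, smul_dotProduct, hω.2.2,
          smul_eq_mul, mul_zero, add_zero, zero_add, dotProduct_zero, zero_dotProduct,
          mul_eq_zero] at a b
        exact ⟨a.resolve_right (h1 _ hω.1), b.resolve_right (h1 _ hω.2.1)⟩
      refine (neg_fin i₀ ht ((hb _ _ h2).image (· i₀))).mono fun z hz => ⟨z, ⟨hz.1.1, ?_⟩, rfl⟩
      simpa [add_eq_zero_iff_of_nonneg] using hz.2) hρ h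
  refine ⟨ε, e0, F, f0, fun u w h1 h2 h3 L _ _ _ x S a1 a2 a3 =>
    hF (u, w) ⟨h1, h2, h3⟩ L x S a1 a2 fun σ hσ => ⟨(a3 σ hσ).1, ?_⟩⟩
  simpa [(a3 σ hσ).2.1] using (a3 σ hσ).2.2

theorem two_largest {β : Type} (s : Finset β) (g : β → ℂ) (h0 : s.Nonempty) (h1 : ∀ a ∈ s, g a ≠ 0)
    (h2 : ∑ a ∈ s, g a = 0) : ∃ a ∈ s, ∃ b ∈ s, a ≠ b ∧ |log ‖g a‖ - log ‖g b‖| ≤ log #s := by
  classical
  obtain ⟨a, ha, h3⟩ := exists_max_image s (fun a => ‖g a‖) h0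
  rw [← add_sum_erase s g ha, add_eq_zero_iff_eq_neg] at h2
  obtain ⟨b, hb, h4⟩ := exists_max_image (s.erase a) (fun a => ‖g a‖) (by
    rw [nonempty_iff_ne_empty]
    intro h
    exact h1 a ha (by simpa [h] using h2))
  have b0 := norm_pos_iff.2 (h1 b (mem_of_mem_erase hb))
  have c0 : (0 : ℝ) < #s := by exact_mod_cast h0.card_pos
  have h5 : ‖g a‖ ≤ #s * ‖g b‖ := by
    rw [h2, norm_neg]
    refine (norm_sum_le _ _).trans ((sum_le_card_nsmul _ _ _ h4).trans ?_)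
    rw [nsmul_eq_mul]
    gcongr
    exact erase_subset _ _
  refine ⟨a, ha, b, mem_of_mem_erase hb, (ne_of_mem_erase hb).symm, ?_⟩
  rw [abs_of_nonneg (sub_nonneg.2 (log_le_log b0 (h3 b (mem_of_mem_erase hb)))), sub_le_iff_le_add,
    ← log_mul c0.ne' b0.ne']
  exact log_le_log (norm_pos_iff.2 (h1 a ha)) h5

theorem gap {β : Type} [Nonempty β] (s : Finset β) (d : β → ℝ) {l : ℝ} (hl : 1 ≤ l) :
    ∃ i ≤ #s, ∀ a ∈ s, l ^ i < d a → l ^ (i + 1) < d a := by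
  by_contra h
  push Not at h
  choose! f f1 f2 f3 using h
  have h1 : ∀ i j, i ≤ #s → j ≤ #s → i < j → f i ≠ f j := fun i j hi hj hij e => by
    have := (f3 i hi).trans (pow_le_pow_right₀ hl hij)
    exact absurd (e ▸ f2 j hj) (not_lt.2 this)
  have := card_le_card_of_injOn (s := range (#s + 1)) (t := s) f
    (fun i hi => f1 i (Nat.lt_succ_iff.1 (mem_range.1 hi))) fun i hi j hj e => by
      have hi := Nat.lt_succ_iff.1 (mem_range.1 hi)
      have hj := Nat.lt_succ_iff.1 (mem_range.1 hj)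
      rcases lt_trichotomy i j with h | h | h
      exacts [absurd e (h1 i j hi hj h), h, absurd e.symm (h1 j i hj hi h)]
  simp at this

variable {A : Type} [Fintype A] [DecidableEq A]

/-- real data attached to the multiplicative relations of a point -/
structure Rel (K : Type) [Field K] [Algebra K ℂ] {L : Type} [Field L] [NumberField L] [Algebra K L]
    (z : A ⊕ B → L) (u : B → ℝ) (β : A → B → ℝ) : Prop where
  nu : ‖u‖ = 1
  orth : ∀ j, u ⬝ᵥ β j = 0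
  lu : ∀ σ : L →ₐ[K] ℂ, u ⬝ᵥ Lg (fun i => σ (z (Sum.inr i))) = 0
  lb : ∀ (σ : L →ₐ[K] ℂ) j, log ‖σ (z (Sum.inl j))‖ = β j ⬝ᵥ Lg fun i => σ (z (Sum.inr i))
  ht : ∀ a : A → ℤ, logHeight₁ (∏ j, z (Sum.inl j) ^ a j) ≤
    ‖∑ j, (a j : ℝ) • β j‖ * ∑ i, logHeight₁ (z (Sum.inr i))

noncomputable def gam (β : A → B → ℝ) (μ : A →₀ ℕ) : B → ℝ := ∑ j, (μ j : ℝ) • β j

theorem cluster {𝔓 : Ideal (MvPolynomial (A ⊕ B) K)} [hp : 𝔓.IsPrime] {i₀ : B}
    (ht : ∀ F, rename (fun _ : Unit => i₀) F ∈ base 𝔓 → F = 0)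
    (hb : ∀ u w : B → ℝ, LinearIndependent ℝ ![u, w] →
      {Q ∈ Tor (base 𝔓) | u ⬝ᵥ Lg Q = 0 ∧ w ⬝ᵥ Lg Q = 0}.Finite)
    {s : Finset (A →₀ ℕ)} {c : (A →₀ ℕ) → MvPolynomial B K} (hm : FF s c ∈ 𝔓)
    (hs : ∀ T ⊆ s, T.Nonempty → T ≠ s → FF T c ∉ 𝔓) {ρ h : ℝ} (hρ : 0 < ρ) (hh : 0 < h) :
    ∃ T₀ : ℝ, ∃ G ∉ 𝔓, ∀ (L : Type) [Field L] [NumberField L] [Algebra K L] (z : A ⊕ B → L)
      (S : Finset (L →ₐ[K] ℂ)) (u : B → ℝ) (β : A → B → ℝ), OnL 𝔓 z → Rel K z u β →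
      ρ * finrank ℚ L ≤ #S → ∑ i, logHeight₁ (z (Sum.inr i)) ≤ h * finrank ℚ L → aeval z G ≠ 0 →
      ∀ μ ∈ s, ∀ ν ∈ s, dist (gam β μ) (gam β ν) ≤ T₀ := by
  classical
  rcases s.eq_empty_or_nonempty with rfl | hne
  · exact ⟨0, 1, (Ideal.ne_top_iff_one _).1 hp.ne_top, by simp⟩
  have c0 : (1 : ℝ) ≤ #s := by exact_mod_cast hne.card_pos
  have l0 := log_nonneg c0
  obtain ⟨ε, e0, F, f0, hF⟩ := base_lemma ht hb (ρ := ρ / 2 / (#s * #s)) (by positivity) h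
  choose C C0 hC using fun μ => ht_aeval (c μ)
  have C1 : 0 ≤ ∑ ν ∈ s, C ν := sum_nonneg fun _ _ => C0 _
  set κ : ℝ := log #s + (∑ ν ∈ s, C ν) * (1 + h) + #s * h with hκ
  have κ0 : 0 < κ := by positivity
  set l : ℝ := max 2 ((log #s + 8 * (#s * κ) / ρ) / ε) with hl
  have l2 : 2 ≤ l := le_max_left _ _
  set 𝒯 := s.powerset.filter fun T => T.Nonempty ∧ T ≠ s
  refine ⟨l ^ #(s ×ˢ s), rename Sum.inr F * ∏ T ∈ 𝒯, FF T c, fun h => ?_,
    fun L _ _ _ z S u β hz hR hS hH hG μ₀ m0 ν₀ n0 => ?_⟩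
  · refine (hp.mem_or_mem h).elim f0 fun h => ?_
    obtain ⟨T, h1, h2⟩ := Ideal.IsPrime.prod_mem_iff.1 h
    obtain ⟨h3, h4, h5⟩ := mem_filter.1 h1
    exact hs T (mem_powerset.1 h3) h4 h5 h2
  by_contra far
  rw [map_mul, map_prod, mul_ne_zero_iff, prod_ne_zero_iff, aeval_rename] at hG
  obtain ⟨i, i1, i2⟩ := gap (s ×ˢ s) (fun p => dist (gam β p.1) (gam β p.2)) (l := l) (by linarith)
  set T := l ^ i with hT
  have T1 : 1 ≤ T := one_le_pow₀ (by linarith)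
  have T2 : T ≤ l ^ #(s ×ˢ s) := pow_le_pow_right₀ (by linarith) i1
  have g1 : ∀ μ ∈ s, ∀ ν ∈ s, T < dist (gam β μ) (gam β ν) → l * T < dist (gam β μ) (gam β ν) :=
    fun μ hμ ν hν h => by rw [hT, ← pow_succ']; exact i2 (μ, ν) (mem_product.2 ⟨hμ, hν⟩) h
  have tr : ∀ μ ∈ s, ∀ ν ∈ s, ∀ x, dist (gam β μ) x ≤ T → dist x (gam β ν) ≤ T →
      dist (gam β μ) (gam β ν) ≤ T := fun μ hμ ν hν x h1 h2 => by
    by_contra h
    have := g1 μ hμ ν hν (not_le.1 h)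
    have := dist_triangle (gam β μ) x (gam β ν)
    nlinarith
  let cl : (A →₀ ℕ) → Finset (A →₀ ℕ) := fun μ => s.filter fun ν => dist (gam β μ) (gam β ν) ≤ T
  have cs : ∀ μ ∈ s, μ ∈ cl μ := fun μ hμ => mem_filter.2 ⟨hμ, by rw [dist_self]; linarith⟩
  have ce : ∀ μ ∈ s, ∀ ν ∈ s, dist (gam β μ) (gam β ν) ≤ T → cl μ = cl ν := fun μ hμ ν hν h =>
    filter_congr fun x hx => ⟨fun h' => tr ν hν x hx _ (dist_comm (gam β μ) _ ▸ h) h',
      fun h' => tr μ hμ x hx _ h h'⟩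
  have cn : ∀ μ ∈ s, aeval z (FF (cl μ) c) ≠ 0 := fun μ hμ =>
    hG.2 _ (mem_filter.2 ⟨mem_powerset.2 (filter_subset _ _), ⟨μ, cs μ hμ⟩, fun e => far
      ((tr μ₀ m0 ν₀ n0 (gam β μ) (dist_comm (gam β μ) _ ▸ (mem_filter.1 (e ▸ m0 : μ₀ ∈ cl μ)).2)
        (mem_filter.1 (e ▸ n0 : ν₀ ∈ cl μ)).2).trans T2)⟩)
  have sz : ∑ T ∈ s.image cl, aeval z (FF T c) = 0 := by
    rw [← hz.2 _ hm, aeval_FF, ← sum_fiberwise_of_maps_to (g := cl) (t := s.image cl)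
      fun μ hμ => mem_image_of_mem _ hμ]
    refine sum_congr rfl fun T hT => ?_
    obtain ⟨μ, hμ, rfl⟩ := mem_image.1 hT
    rw [aeval_FF]
    refine sum_congr (filter_congr fun ν hν => ⟨fun h => (ce μ hμ ν hν h).symm, fun h => ?_⟩)
      fun _ _ => rfl
    exact (mem_filter.1 (h ▸ cs ν hν : ν ∈ cl μ)).2
  let Sm : (A →₀ ℕ) → L := fun μ => ∑ ν ∈ cl μ, aeval (z ∘ Sum.inr) (c ν) *
    ∏ j, z (Sum.inl j) ^ ((ν j : ℤ) - μ j)
  have se : ∀ μ, aeval z (FF (cl μ) c) = Sm μ * ∏ j, z (Sum.inl j) ^ μ j := fun μ => by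
    rw [aeval_FF, sum_mul]
    refine sum_congr rfl fun ν _ => ?_
    rw [mul_assoc, ← prod_mul_distrib]
    refine congrArg _ (prod_congr rfl fun j _ => ?_)
    rw [zpow_sub₀ (hz.1 _), zpow_natCast, zpow_natCast, div_mul_cancel₀ _ (pow_ne_zero _ (hz.1 _))]
  have n0 := rank_pos L
  have H0 : 0 ≤ ∑ i, logHeight₁ (z (Sum.inr i)) := sum_nonneg fun _ _ => zero_le_logHeight₁ _
  have sh : ∀ μ ∈ s, logHeight₁ (Sm μ) ≤ κ * T * finrank ℚ L := fun μ hμ => by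
    refine (logHeight₁_sum_le _ _).trans ?_
    have a1 : log #(cl μ) ≤ log #s := log_le_log (by exact_mod_cast card_pos.2 ⟨μ, cs μ hμ⟩)
      (by exact_mod_cast card_le_card (filter_subset _ _))
    have a2 : ∑ ν ∈ cl μ, logHeight₁ (aeval (z ∘ Sum.inr) (c ν) *
        ∏ j, z (Sum.inl j) ^ ((ν j : ℤ) - μ j)) ≤
        ∑ ν ∈ s, (C ν * ((1 + h) * finrank ℚ L) + T * (h * finrank ℚ L)) := by
      refine le_trans (sum_le_sum fun ν hν => ?_) (sum_le_sum_of_subset_of_nonneg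
        (filter_subset _ _) fun ν _ _ => by have := C0 ν; positivity)
      refine (logHeight₁_mul_le _ _).trans (add_le_add ((hC ν L _).trans
        (mul_le_mul_of_nonneg_left ?_ (C0 ν))) ((hR.ht _).trans ?_))
      · simp only [Function.comp]
        linarith
      · refine mul_le_mul (le_of_eq_of_le ?_ (mem_filter.1 hν).2) hH H0 (by linarith)
        rw [dist_comm, dist_eq_norm, gam, gam, ← sum_sub_distrib]
        simp only [Int.cast_sub, Int.cast_natCast, sub_smul]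
    rw [sum_add_distrib, ← sum_mul, sum_const, nsmul_eq_mul] at a2
    rw [NumberField.totalWeight_eq_finrank, hκ]
    have a3 : 0 ≤ (log #s + (∑ ν ∈ s, C ν) * (1 + h)) * finrank ℚ L * (T - 1) :=
      mul_nonneg (by positivity) (by linarith)
    nlinarith [mul_le_mul_of_nonneg_left a1 n0.le]
  obtain ⟨S', s1, s2, s3⟩ := markov s Sm (h := #s * κ * T) (by positivity) hρ (by
    refine (sum_le_card_nsmul _ _ _ sh).trans (le_of_eq ?_)
    rw [nsmul_eq_mul]; ring) S hS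
  have lm : ∀ (σ : L →ₐ[K] ℂ), ∀ μ ∈ s, log ‖σ (aeval z (FF (cl μ) c))‖ =
      log ‖σ (Sm μ)‖ + gam β μ ⬝ᵥ Lg fun i => σ (z (Sum.inr i)) := fun σ μ hμ => by
    have a1 := cn μ hμ
    rw [se, mul_ne_zero_iff] at a1
    rw [se, map_mul, norm_mul, log_mul (by simpa using a1.1) (by
      rw [norm_ne_zero_iff, _root_.map_ne_zero]; exact a1.2), map_prod, norm_prod,
      log_prod fun j _ => by simp [hz.1], gam, sum_dotProduct]
    refine congrArg _ (sum_congr rfl fun j _ => ?_)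
    rw [map_pow, norm_pow, log_pow, hR.lb, smul_dotProduct, smul_eq_mul]
  have pr : ∀ σ ∈ S', ∃ p ∈ s ×ˢ s, l * T < dist (gam β p.1) (gam β p.2) ∧
      |(gam β p.1 - gam β p.2) ⬝ᵥ Lg fun i => σ (z (Sum.inr i))| ≤
        (log #s + 8 * (#s * κ) / ρ) * T := fun σ hσ => by
    obtain ⟨_, a1, _, a2, a3, a4⟩ := two_largest (s.image cl) (fun T => σ (aeval z (FF T c)))
      (hne.image _) (fun T hT => by
        obtain ⟨μ, hμ, rfl⟩ := mem_image.1 hT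
        exact (_root_.map_ne_zero σ).2 (cn μ hμ)) (by rw [← map_sum, sz, map_zero])
    obtain ⟨μ, hμ, rfl⟩ := mem_image.1 a1
    obtain ⟨ν, hν, rfl⟩ := mem_image.1 a2
    refine ⟨(μ, ν), mem_product.2 ⟨hμ, hν⟩, g1 μ hμ ν hν (not_le.1 fun h => a3 (ce μ hμ ν hν h)), ?_⟩
    have a5 : log #(s.image cl) ≤ log #s := log_le_log
      (by exact_mod_cast (hne.image cl).card_pos) (by exact_mod_cast card_image_le)
    rw [lm σ μ hμ, lm σ ν hν, abs_le] at a4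
    have a6 := abs_le.1 (s3 σ hσ μ hμ)
    have a7 := abs_le.1 (s3 σ hσ ν hν)
    have a8 : (log #s + 8 * (#s * κ) / ρ) * T = log #s * T + 2 * (4 * (#s * κ * T) / ρ) := by ring
    have a9 : log #s ≤ log #s * T := le_mul_of_one_le_right l0 T1
    rw [sub_dotProduct, abs_le, a8]
    constructor <;> linarith [a4.1, a4.2, a6.1, a6.2, a7.1, a7.2]
  choose! f f1 f2 f3 using pr
  obtain ⟨p, p1, p2⟩ := exists_le_card_fiber_of_nsmul_le_card_of_maps_to f1 (hne.product hne)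
    (b := ρ / 2 / (#s * #s) * finrank ℚ L) (by
      refine le_of_eq_of_le ?_ s2
      rw [card_product, nsmul_eq_mul]
      push_cast
      field_simp)
  obtain ⟨σ₀, hσ₀⟩ : (S'.filter fun σ => f σ = p).Nonempty :=
    card_pos.1 (Nat.cast_pos.1 (lt_of_lt_of_le (by positivity) p2))
  have d1 : l * T < ‖gam β p.1 - gam β p.2‖ := by
    rw [← dist_eq_norm, ← (mem_filter.1 hσ₀).2]
    exact f2 _ (mem_filter.1 hσ₀).1
  have d0 : 0 < ‖gam β p.1 - gam β p.2‖ := lt_trans (by positivity) d1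
  refine hG.1 (hF u (‖gam β p.1 - gam β p.2‖⁻¹ • (gam β p.1 - gam β p.2)) hR.nu
    (norm_smul_inv_norm (norm_pos_iff.1 d0)) (by simp [gam, dotProduct_sum, hR.orth]) L _ _
    (fun i => (single_le_sum (f := fun i => logHeight₁ (z (Sum.inr i)))
      (fun _ _ => zero_le_logHeight₁ _) (mem_univ i)).trans hH) p2
    fun σ hσ => ⟨hz.base.emb σ, hR.lu σ, ?_⟩)
  have a1 := f3 σ (mem_filter.1 hσ).1
  rw [(mem_filter.1 hσ).2] at a1
  have a2 : log #s + 8 * (#s * κ) / ρ ≤ l * ε := (div_le_iff₀ e0).1 (le_max_right _ _)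
  rw [smul_dotProduct, smul_eq_mul, abs_mul, abs_of_pos (inv_pos.2 d0), inv_mul_le_iff₀ d0]
  refine a1.trans ?_
  nlinarith

end Pool.Agent.ZPT
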