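import Pool.Agent.P.MP_4fdccb_ag.Arith

/-! The theorem for algebraic points. -/

set_option linter.unusedSectionVars false
set_option linter.unusedVariables false

namespace Pool.Agent.ZPT
open Finset MvPolynomial Topology Filter Metric Matrix Height Module Real

variable {K : Type} [Field K] [NumberField K] [Algebra K ℂ] {B : Type} [Fintype B] [DecidableEq B]
  {A : Type} [Fintype A] [DecidableEq A] {L : Type} [Field L] [NumberField L] [Algebra K L]

/-- the rational span of the multiplicative relations of a point -/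
def RelM {ι : Type} [Fintype ι] (z : ι → L) (hz : ∀ i, z i ≠ 0) : Submodule ℚ (ι → ℚ) where
  carrier := {v | ∃ N : ℕ, 0 < N ∧ ∃ a : ι → ℤ, (∀ i, (a i : ℚ) = N * v i) ∧ ∏ i, z i ^ a i = 1}
  zero_mem' := ⟨1, one_pos, 0, by simp, by simp⟩
  add_mem' := by
    rintro v w ⟨N, n0, a, a1, a2⟩ ⟨M, m0, b, b1, b2⟩
    refine ⟨N * M, mul_pos n0 m0, fun i => a i * M + b i * N, fun i => ?_, ?_⟩
    · push_cast
      rw [a1, b1, Pi.add_apply]
      ring
    · simp only [zpow_add₀ (hz _), _root_.zpow_mul, zpow_natCast, prod_mul_distrib, prod_pow, a2,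
        b2, one_pow, mul_one]
  smul_mem' := by
    rintro c v ⟨N, n0, a, a1, a2⟩
    refine ⟨N * c.den, mul_pos n0 c.den_pos, fun i => a i * c.num, fun i => ?_, ?_⟩
    · push_cast
      rw [a1, Pi.smul_apply, smul_eq_mul, ← Rat.mul_den_eq_num]
      ring
    · simp only [_root_.zpow_mul, prod_zpow, a2, _root_.one_zpow]

theorem relM_log {ι : Type} [Fintype ι] {z : ι → L} {hz : ∀ i, z i ≠ 0} {v : ι → ℚ}
    (hv : v ∈ RelM z hz) (σ : L →ₐ[K] ℂ) : ∑ i, (v i : ℝ) * log ‖σ (z i)‖ = 0 := by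
  obtain ⟨N, n0, a, a1, a2⟩ := hv
  have h1 := congrArg (fun x => log ‖σ x‖) a2
  simp only [map_prod, norm_prod, map_one, norm_one, log_one, map_zpow₀, norm_zpow] at h1
  rw [log_prod fun i _ => zpow_ne_zero _ (by simp [hz])] at h1
  have h2 : ∀ i, (a i : ℝ) = N * v i := fun i => by exact_mod_cast a1 i
  simp only [log_zpow, h2, mul_assoc, ← mul_sum] at h1
  exact (mul_eq_zero.1 h1).resolve_left (by exact_mod_cast n0.ne')

theorem relM_ht {z : A ⊕ B → L} {hz : ∀ i, z i ≠ 0} {v : A ⊕ B → ℚ} (hv : v ∈ RelM z hz)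
    (b : A → ℤ) (hb : ∀ j, v (Sum.inl j) = b j) : logHeight₁ (∏ j, z (Sum.inl j) ^ b j) ≤
      ‖fun i => (v (Sum.inr i) : ℝ)‖ * ∑ i, logHeight₁ (z (Sum.inr i)) := by
  obtain ⟨N, n0, a, a1, a2⟩ := hv
  have n1 : (0 : ℝ) < N := by exact_mod_cast n0
  have h1 : ∀ j, a (Sum.inl j) = b j * N := fun j => by
    have := a1 (Sum.inl j)
    rw [hb, mul_comm] at this
    exact_mod_cast this
  rw [Fintype.prod_sum_type] at a2
  simp only [h1, _root_.zpow_mul, zpow_natCast, prod_pow] at a2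
  have h2 := ht_mono (fun i => z (Sum.inr i)) (fun i => a (Sum.inr i))
    (B := N * ‖fun i => (v (Sum.inr i) : ℝ)‖) fun i => by
      have : (a (Sum.inr i) : ℝ) = N * v (Sum.inr i) := by exact_mod_cast a1 _
      rw [this, abs_mul, abs_of_pos n1]
      exact mul_le_mul_of_nonneg_left (norm_le_pi_norm (fun i => (v (Sum.inr i) : ℝ)) i) n1.le
  rw [eq_inv_of_mul_eq_one_right a2, logHeight₁_inv, logHeight₁_pow, mul_assoc] at h2
  exact le_of_mul_le_mul_left h2 n1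

theorem rel_cases {z : A ⊕ B → L} (hz : ∀ i, z i ≠ 0) {κ : Type} [Fintype κ]
    (hκ : Fintype.card κ = Fintype.card A + 1) (a : κ → A ⊕ B → ℤ) (ha : LinearIndependent ℤ a)
    (h : ∀ k, ∏ i, z i ^ a k i = 1) : (∃ b : B → ℤ, b ≠ 0 ∧ ∏ i, z (Sum.inr i) ^ b i = 1) ∧
      ((∃ u w : B → ℝ, ‖u‖ = 1 ∧ ‖w‖ = 1 ∧ u ⬝ᵥ w = 0 ∧ ∀ σ : L →ₐ[K] ℂ,
        u ⬝ᵥ Lg (fun i => σ (z (Sum.inr i))) = 0 ∧ w ⬝ᵥ Lg (fun i => σ (z (Sum.inr i))) = 0) ∨
      ∃ u β, Rel K z u β) := by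
  set M := RelM z hz
  have h1 : Fintype.card A + 1 ≤ finrank ℚ M := by
    have h2 : LinearIndependent ℚ fun k i => (a k i : ℚ) := by
      rw [← LinearIndependent.iff_fractionRing ℤ ℚ]
      exact ha.map' ((Int.castAddHom ℚ).toIntLinearMap.compLeft _) (LinearMap.ker_eq_bot.2
        fun x y h => funext fun i => Int.cast_injective (α := ℚ) (congrFun h i))
    let a' : κ → M := fun k => ⟨fun i => (a k i : ℚ), 1, one_pos, a k, by simp, h k⟩
    have h3 : LinearIndependent ℚ a' := LinearIndependent.of_comp M.subtype h2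
    rw [← hκ]
    exact h3.fintype_card_le_finrank
  let φ : M →ₗ[ℚ] A → ℚ := (LinearMap.funLeft ℚ ℚ Sum.inl).comp M.subtype
  have h2 := φ.finrank_range_add_finrank_ker
  have h3 : finrank ℚ (LinearMap.range φ) ≤ Fintype.card A :=
    (Submodule.finrank_le _).trans (by simp)
  let ψ : M → B → ℝ := fun v i => (v.1 (Sum.inr i) : ℝ)
  have h4 : ∀ v : M, φ v = 0 → ψ v = 0 → v = 0 := fun v h h' => Subtype.ext (funext fun i => by
    rcases i with j | i
    · exact congrFun h j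
    · exact Rat.cast_eq_zero.1 (congrFun h' i))
  have h5 : ∀ (v : M) (σ : L →ₐ[K] ℂ), ∑ j, (φ v j : ℝ) * log ‖σ (z (Sum.inl j))‖ +
      ψ v ⬝ᵥ Lg (fun i => σ (z (Sum.inr i))) = 0 := fun v σ =>
    (Fintype.sum_sum_type _).symm.trans (relM_log v.2 σ)
  have h6 : ∀ v : M, φ v = 0 → ∀ (σ : L →ₐ[K] ℂ) (t : ℝ),
      (t • ψ v) ⬝ᵥ Lg (fun i => σ (z (Sum.inr i))) = 0 := fun v h σ t => by
    have := h5 v σ
    simp only [h, Pi.zero_apply, Rat.cast_zero, zero_mul, sum_const_zero, zero_add] at this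
    rw [smul_dotProduct, this, smul_zero]
  obtain ⟨v₀, v1, v2⟩ := (Submodule.ne_bot_iff _).1
    (show LinearMap.ker φ ≠ ⊥ from fun h => by rw [h, finrank_bot] at h2; omega)
  have v3 : ψ v₀ ≠ 0 := fun h => v2 (h4 _ v1 h)
  have h7 : ∀ v : M, ∃ t : ℚ, ψ v₀ ⬝ᵥ ψ (v - t • v₀) = 0 := fun v => by
    refine ⟨(∑ i, v₀.1 (Sum.inr i) * v.1 (Sum.inr i)) /
      ∑ i, v₀.1 (Sum.inr i) * v₀.1 (Sum.inr i), ?_⟩
    have e : ∀ t : ℚ, ψ (v - t • v₀) = ψ v - (t : ℝ) • ψ v₀ := fun t => funext fun i => by simp [ψ]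
    rw [e, dotProduct_sub, dotProduct_smul, smul_eq_mul, sub_eq_zero]
    push_cast
    exact (div_mul_cancel₀ _ fun h => v3 (dotProduct_self_eq_zero.1 h)).symm
  refine ⟨?_, ?_⟩
  · obtain ⟨N, n0, b, b1, b2⟩ := v₀.2
    have b3 : ∀ j, b (Sum.inl j) = 0 := fun j => by
      have := b1 (Sum.inl j)
      rw [show v₀.1 (Sum.inl j) = 0 from congrFun v1 j, mul_zero] at this
      exact_mod_cast this
    refine ⟨fun i => b (Sum.inr i), fun h => v3 (funext fun i => ?_), by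
      simpa [Fintype.prod_sum_type, b3] using b2⟩
    have := b1 (Sum.inr i)
    rw [show b (Sum.inr i) = 0 from congrFun h i, Int.cast_zero, zero_eq_mul] at this
    simpa [ψ] using this.resolve_left (by exact_mod_cast n0.ne')
  by_cases hs : LinearMap.range φ = ⊤
  · obtain ⟨v, w1, w2⟩ : ∃ v : A → M, (∀ j, φ (v j) = Pi.single j 1) ∧ ∀ j, ψ v₀ ⬝ᵥ ψ (v j) = 0 := by
      choose v hv using fun j => LinearMap.range_eq_top.1 hs (Pi.single j 1)
      choose t ht using h7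
      exact ⟨fun j => v j - t (v j) • v₀, fun j => by
        rw [map_sub, map_smul, hv, LinearMap.mem_ker.1 v1, smul_zero, sub_zero], fun j => ht _⟩
    refine Or.inr ⟨‖ψ v₀‖⁻¹ • ψ v₀, fun j => -ψ (v j), norm_smul_inv_norm v3, fun j => by
      simp [w2], fun σ => h6 _ v1 σ _, fun σ j => ?_, fun b => ?_⟩
    · have := h5 (v j) σ
      rw [w1, sum_eq_single j (fun k _ h => by simp [h]) (by simp)] at this
      simp only [Pi.single_eq_same, Rat.cast_one, one_mul] at this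
      rw [neg_dotProduct]
      linarith
    · refine (relM_ht (∑ j, (b j : ℚ) • v j).2 b fun j => ?_).trans (le_of_eq ?_)
      · change φ (∑ j, (b j : ℚ) • v j) j = _
        simp [w1, Pi.single_apply]
      · rw [← norm_neg]
        congr 2
        ext i
        simp [ψ]
  · have h8 : finrank ℚ (LinearMap.range φ) < Fintype.card A :=
      (Submodule.finrank_lt hs).trans_le (by simp)
    obtain ⟨v, w1, w2⟩ := SetLike.not_le_iff_exists.1
      (show ¬ LinearMap.ker φ ≤ Submodule.span ℚ {v₀} from fun h => by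
        have := Submodule.finrank_mono h
        rw [finrank_span_singleton v2] at this
        omega)
    obtain ⟨t, ht⟩ := h7 v
    have w3 : φ (v - t • v₀) = 0 := sub_mem w1 (Submodule.smul_mem _ _ v1)
    have w4 : ψ (v - t • v₀) ≠ 0 := fun h => w2 (Submodule.mem_span_singleton.2
      ⟨t, (sub_eq_zero.1 (h4 _ w3 h)).symm⟩)
    exact Or.inl ⟨‖ψ v₀‖⁻¹ • ψ v₀, ‖ψ (v - t • v₀)‖⁻¹ • ψ (v - t • v₀), norm_smul_inv_norm v3,
      norm_smul_inv_norm w4, by simp [ht], fun σ => ⟨h6 _ v1 σ _, h6 _ w3 σ _⟩⟩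

theorem span_bound {s : Finset (A →₀ ℕ)}
    (h : ∀ a : A → ℤ, (∀ μ ∈ s, ∀ ν ∈ s, ∑ j, a j * μ j = ∑ j, a j * ν j) → a = 0) :
    ∃ C : ℝ, ∀ (β : A → B → ℝ) (T : ℝ), (∀ μ ∈ s, ∀ ν ∈ s, dist (gam β μ) (gam β ν) ≤ T) →
      ∀ j, ‖β j‖ ≤ C * T := by
  let d : (A →₀ ℕ) × (A →₀ ℕ) → A → ℚ := fun p j => p.1 j - p.2 j
  have h1 : Submodule.span ℚ (d '' (s ×ˢ s : Finset _)) = ⊤ := by
    by_contra h1
    obtain ⟨f, f0, f1⟩ := Submodule.exists_le_ker_of_lt_top _ (lt_top_iff_ne_top.2 h1)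
    obtain ⟨N, hN⟩ := IsLocalization.exist_integer_multiples_of_finite (nonZeroDivisors ℤ)
      fun j : A => f (Pi.single j 1)
    choose a ha using hN
    have e : ∀ x, f x = ∑ j, x j * f (Pi.single j 1) := fun x => by
      rw [LinearMap.pi_apply_eq_sum_univ f x]
      exact sum_congr rfl fun j _ => by
        rw [smul_eq_mul]; congr 2; ext k; simp [Pi.single_apply, eq_comm]
    have a0 := h a fun μ hμ ν hν => by
      have := f1 (Submodule.subset_span ⟨(μ, ν), mem_coe.2 (mem_product.2 ⟨hμ, hν⟩), rfl⟩)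
      rw [LinearMap.mem_ker, e] at this
      have h2 : ∑ j, ((μ j : ℚ) - ν j) * a j = 0 := by
        have := congrArg ((N : ℤ) • ·) this
        simp only [smul_sum, ← mul_smul_comm, ← ha, smul_zero] at this
        exact this
      simp only [mul_comm _ (a _ : ℚ), mul_sub, sum_sub_distrib, sub_eq_zero] at h2
      exact_mod_cast h2
    refine f0 (LinearMap.ext fun x => ?_)
    rw [e, sum_eq_zero fun j _ => ?_, LinearMap.zero_apply]
    have := ha j
    rw [a0, Pi.zero_apply, map_zero, eq_comm, smul_eq_zero] at this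
    rw [this.resolve_left (nonZeroDivisors.coe_ne_zero N), mul_zero]
  choose κ hκ using fun j => (Submodule.mem_span_image_finset_iff_exists_fun' ℚ).1
    (h1 ▸ Submodule.mem_top : Pi.single j 1 ∈ Submodule.span ℚ (d '' (s ×ˢ s : Finset _)))
  refine ⟨∑ j, ∑ p ∈ s ×ˢ s, |(κ j p : ℝ)|, fun β T hT j => ?_⟩
  have e : β j = ∑ p ∈ s ×ˢ s, (κ j p : ℝ) • (gam β p.1 - gam β p.2) := by
    simp only [gam, ← sum_sub_distrib, ← sub_smul, smul_sum, smul_smul]
    rw [sum_comm]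
    simp only [← sum_smul]
    have : ∀ k, ∑ p ∈ s ×ˢ s, (κ j p : ℝ) * ((p.1 k : ℝ) - p.2 k) = if k = j then 1 else 0 :=
      fun k => by
        have := congrArg (Rat.cast : ℚ → ℝ) (congrFun (hκ j) k)
        simpa [d, Finset.sum_apply, Pi.single_apply, apply_ite] using this
    simp [this]
  have hb : ∀ k, ∀ p ∈ s ×ˢ s, 0 ≤ |(κ k p : ℝ)| * T := fun k p hp =>
    mul_nonneg (abs_nonneg _) (dist_nonneg.trans (hT _ (mem_product.1 hp).1 _ (mem_product.1 hp).2))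
  rw [e, sum_mul]
  refine le_trans ?_ (single_le_sum (f := fun k => (∑ p ∈ s ×ˢ s, |(κ k p : ℝ)|) * T)
    (fun k _ => by rw [sum_mul]; exact sum_nonneg (hb k)) (mem_univ j))
  rw [sum_mul]
  refine norm_sum_le_of_le _ fun p hp => ?_
  rw [norm_smul, Real.norm_eq_abs, ← dist_eq_norm]
  exact mul_le_mul_of_nonneg_left (hT _ (mem_product.1 hp).1 _ (mem_product.1 hp).2) (abs_nonneg _)

theorem core {r : ℕ} {𝔓 : Ideal (MvPolynomial (Fin (r + 1) ⊕ B) K)} [hp : 𝔓.IsPrime] {i₀ : B}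
    {s : Finset (Fin (r + 1) →₀ ℕ)} {c : (Fin (r + 1) →₀ ℕ) → MvPolynomial B K} {T : Set ℂ}
    (hS : Setup 𝔓 i₀ s c T) (hΦ : Phi (base 𝔓))
    (hs : ∀ T ⊆ s, T.Nonempty → T ≠ s → FF T c ∉ 𝔓)
    (hd : ∀ a : Fin (r + 1) → ℤ, (∀ μ ∈ s, ∀ ν ∈ s, ∑ j, a j * μ j = ∑ j, a j * ν j) → a = 0)
    (h3 : 3 ≤ Fintype.card B)
    (hb : ∀ u w : B → ℝ, LinearIndependent ℝ ![u, w] →
      {Q ∈ Tor (base 𝔓) | u ⬝ᵥ Lg Q = 0 ∧ w ⬝ᵥ Lg Q = 0}.Finite)
    (hc : ∀ u ≠ 0, ∀ β, (Xc 𝔓 u β).Finite) : ∃ G ∉ 𝔓, ∀ (L : Type) [Field L] [NumberField L]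
      [Algebra K L] (z : Fin (r + 1) ⊕ B → L), OnL 𝔓 z → ∀ a : Fin (r + 1 + 1) → _ → ℤ,
      LinearIndependent ℤ a → (∀ k, ∏ i, z i ^ a k i = 1) → aeval z G = 0 := by
  have ht : ∀ F, rename (fun _ : Unit => i₀) F ∈ base 𝔓 → F = 0 := fun F hF =>
    hS.trans F (by have := Ideal.mem_comap.1 hF; rwa [rename_rename] at this)
  have ρ0 : (0 : ℝ) < (finrank ℚ K : ℝ)⁻¹ := inv_pos.2 (rank_pos K)
  obtain ⟨h, h0, G₁, g1, hG₁⟩ := bmz hΦ
  obtain ⟨ε, e0, G₂, g2, hG₂⟩ := base_lemma ht hb ρ0 h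
  obtain ⟨T₀, G₃, g3, hG₃⟩ := cluster ht hb hS.mem hs ρ0 h0
  obtain ⟨C, hC⟩ := span_bound (B := B) hd
  have hW : IsCompact {ω : (B → ℝ) × (Fin (r + 1) → B → ℝ) | ‖ω.1‖ = 1 ∧ ‖ω.2‖ ≤ |C * T₀|} :=
    (isCompact_closedBall 0 (max 1 |C * T₀|)).of_isClosed_subset
      ((isClosed_eq continuous_fst.norm continuous_const).inter
        (isClosed_le continuous_snd.norm continuous_const)) fun ω h => by
      rw [mem_closedBall_zero_iff, Prod.norm_def, h.1]
      exact max_le_max le_rfl h.2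
  obtain ⟨ε', e1, G₄, g4, hG₄⟩ := pcm hW Psi psi_cont (fun ω hω R => hS.slice h3 hb
    (fun h => by simpa [h] using hω.1) (hc _ (fun h => by simpa [h] using hω.1) _) R) ρ0
    ((|C * T₀| + 1) * h)
  refine ⟨rename Sum.inr (G₁ * G₂) * (G₃ * G₄), fun h => (hp.mem_or_mem h).elim
    (fun h => ((inferInstance : (base 𝔓).IsPrime).mem_or_mem h).elim g1 g2)
    fun h => (hp.mem_or_mem h).elim g3 g4, fun L _ _ _ z hz a a1 a2 => ?_⟩
  by_contra hG
  simp only [map_mul, mul_eq_zero, not_or, aeval_rename] at hG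
  obtain ⟨⟨b, b0, b1⟩, h4⟩ := rel_cases (K := K) hz.1 (by simp) a a1 a2
  have h5 := hG₁ L _ hz.base hG.1.1 b b0 b1
  have : Module.Finite K L := Module.Finite.of_restrictScalars_finite ℚ K L
  have h6 : (finrank ℚ K : ℝ)⁻¹ * finrank ℚ L ≤ #(univ : Finset (L →ₐ[K] ℂ)) := by
    rw [card_univ, AlgHom.card, ← finrank_mul_finrank ℚ K L, Nat.cast_mul,
      inv_mul_cancel_left₀ (rank_pos K).ne']
  have h7 : ∀ i, logHeight₁ (z (Sum.inr i)) ≤ h * finrank ℚ L := fun i =>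
    (single_le_sum (f := fun i => logHeight₁ (z (Sum.inr i)))
      (fun _ _ => zero_le_logHeight₁ _) (mem_univ i)).trans h5
  rcases h4 with ⟨u, w, u1, u2, u3, u4⟩ | ⟨u, β, hR⟩
  · exact hG.1.2 (hG₂ u w u1 u2 u3 L _ _ h7 h6 fun σ _ =>
      ⟨hz.base.emb σ, (u4 σ).1, (congrArg abs (u4 σ).2).trans_le (by simpa using e0.le)⟩)
  have h8 : ∀ j, ‖β j‖ ≤ |C * T₀| := fun j =>
    (hC β T₀ (hG₃ L z _ u β hz hR h6 h5 hG.2.1) j).trans (le_abs_self _)
  have n0 := rank_pos L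
  refine hG.2.2 (hG₄ (u, β) ⟨hR.nu, (pi_norm_le_iff_of_nonneg (abs_nonneg _)).2 h8⟩ L z _
    (fun i => ?_) h6 fun σ _ => ⟨hz.emb σ, ?_⟩)
  · have h9 : 0 ≤ |C * T₀| * (h * finrank ℚ L) := by positivity
    rcases i with j | i
    · have := hR.ht (Pi.single j 1)
      rw [prod_eq_single j (fun k _ h => by simp [h]) (by simp),
        sum_eq_single j (fun k _ h => by simp [h]) (by simp)] at this
      simp only [Pi.single_eq_same, zpow_one, Int.cast_one, one_smul] at this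
      refine this.trans ((mul_le_mul (h8 j) h5 (sum_nonneg fun _ _ => zero_le_logHeight₁ _)
        (abs_nonneg _)).trans ?_)
      nlinarith [mul_pos h0 n0]
    · exact (h7 i).trans (by nlinarith)
  · rw [(psi_zero (ω := (u, β)) (y := Lg fun i => σ (z i))).2 ⟨hR.lu σ, hR.lb σ⟩, abs_zero]
    exact e1.le

end Pool.Agent.ZPT
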