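import Mathlib

/-! Statement-level definition: the points of the torus on which an ideal vanishes. -/

namespace Pool.Agent.ZPT

/-- the complex points with nonzero coordinates at which all members of `I` vanish -/
def Tor {K ι : Type} [Field K] [Algebra K ℂ] (I : Ideal (MvPolynomial ι K)) : Set (ι → ℂ) :=
  {z | (∀ i, z i ≠ 0) ∧ ∀ f ∈ I, MvPolynomial.aeval z f = 0}

end Pool.Agent.ZPT
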