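import Pool.Agent.P.MP_4fdccb_ag.Piece
import Pool.Agent.P.MP_4fdccb_ag.Defs

/-! Families over an analytic arc, and uniformity in compact sets of parameters. -/

set_option linter.unusedSectionVars false
set_option linter.unusedVariables false

namespace Pool.Agent.ZPT
open Finset Real MvPolynomial Topology Filter Metric Height Module

theorem fin_zeros {f : ℂ → ℂ} {U S : Set ℂ} (hf : AnalyticOnNhd ℂ f U) (hU : IsPreconnected U)
    (hS : IsCompact S) (hSU : S ⊆ U) (h : ∃ σ ∈ U, f σ ≠ 0) : {σ ∈ S | f σ = 0}.Finite := by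
  by_contra hi
  obtain ⟨x, hx, h1⟩ := Set.Infinite.exists_accPt_of_subset_isCompact hi hS fun _ h => h.1
  obtain ⟨σ, hσ, h2⟩ := h
  refine h2 (hf.eqOn_zero_of_preconnected_of_frequently_eq_zero hU (hSU hx) ?_ hσ)
  exact (accPt_iff_frequently_nhdsNE.1 h1).mono fun y hy => hy.2

theorem eval₂_succ {R S : Type} [CommRing R] [CommRing S] {r : ℕ} (φ : R →+* S)
    (y : Fin (r + 1) → S) (p : MvPolynomial (Fin (r + 1)) R) : eval₂ φ y p =
      Polynomial.eval₂ (eval₂Hom φ fun j => y j.succ) (y 0) (finSuccEquiv R r p) := by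
  induction p using MvPolynomial.induction_on with
  | C a => simp [finSuccEquiv_apply]
  | add p q hp hq => simp only [map_add, eval₂_add, Polynomial.eval₂_add, hp, hq]
  | mul_X p i hp =>
    rw [eval₂_mul, map_mul, Polynomial.eval₂_mul, hp, eval₂_X]
    refine Fin.cases ?_ (fun j => ?_) i
    · rw [finSuccEquiv_X_zero, Polynomial.eval₂_X]
    · rw [finSuccEquiv_X_succ, Polynomial.eval₂_C, eval₂Hom_X']

theorem cont_eval {τ A : Type} (g : τ → A) (p : MvPolynomial τ O3) :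
    ContinuousOn (fun q : ℂ × (A → ℂ) => eval₂ (ev q.1) (fun j => q.2 (g j)) p)
      (closedBall 0 2 ×ˢ Set.univ) := by
  induction p using MvPolynomial.induction_on with
  | C a =>
    simp only [eval₂_C]
    exact (ev_cont a).comp continuousOn_fst fun q hq => hq.1
  | add p q hp hq => simp only [eval₂_add]; exact hp.add hq
  | mul_X p i hp =>
    simp only [eval₂_mul, eval₂_X]
    exact hp.mul (by fun_prop)

variable {K : Type} [Field K] [NumberField K] [Algebra K ℂ]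

theorem neg_family (t : O3) (ρ : ℝ) (r : ℕ) (R : MvPolynomial (Fin r) O3)
    (h : ∃ σ ∈ ball (0 : ℂ) 3, MvPolynomial.map (ev σ) R ≠ 0) :
    Neg (⊥ : Ideal (MvPolynomial (Option (Fin r)) K)) {x | ∃ σ, ‖σ‖ ≤ 1 ∧ x none = ev σ t ∧
      (∀ j, ‖x (some j)‖ ≤ ρ) ∧ eval₂ (ev σ) (fun j => x (some j)) R = 0} := by
  induction r with
  | zero =>
    obtain ⟨f, rfl⟩ := MvPolynomial.C_surjective (Fin 0) R
    have h1 := fin_zeros (DifferentiableOn.analyticOnNhd f.2 isOpen_ball)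
      (convex_ball (0 : ℂ) 3).isPreconnected (isCompact_closedBall 0 1)
      (closedBall_subset_ball (by norm_num)) (by simpa [ev_apply] using h)
    refine (neg_fin none (fun F hF => rename_injective _ (Function.injective_of_subsingleton _)
      (by simpa using hF)) (h1.image fun σ => ev σ t)).mono ?_
    rintro x ⟨σ, h2, h3, -, h4⟩
    exact ⟨σ, ⟨mem_closedBall_zero_iff.2 h2, by simpa [ev_apply] using h4⟩, h3.symm⟩
  | succ r ih =>
    classical
    set p := finSuccEquiv O3 r R with hp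
    let P : ℕ → Prop := fun i => ∃ σ ∈ ball (0 : ℂ) 3, MvPolynomial.map (ev σ) (p.coeff i) ≠ 0
    have hP : ∀ i, P i → i ≤ p.natDegree := fun i ⟨σ, _, h⟩ =>
      Polynomial.le_natDegree_of_ne_zero fun h0 => h (by rw [h0, map_zero])
    obtain ⟨i₀, hi₀⟩ : ∃ i, P i := by
      obtain ⟨σ, h1, h2⟩ := h
      obtain ⟨ν, hν⟩ := ne_zero_iff.1 h2
      refine ⟨ν 0, σ, h1, ne_zero_iff.2 ⟨ν.tail, ?_⟩⟩
      rwa [coeff_map, hp, finSuccEquiv_coeff_coeff, Finsupp.cons_tail, ← coeff_map]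
    obtain ⟨k, hk, hk'⟩ : ∃ k, P k ∧ ∀ i, k < i → ¬ P i :=
      ⟨Nat.findGreatest P p.natDegree, Nat.findGreatest_spec (hP _ hi₀) hi₀,
        fun i h1 h2 => Nat.findGreatest_is_greatest h1 (hP i h2) h2⟩
    have key : ∀ σ, ‖σ‖ ≤ 1 → ∀ y : Fin (r + 1) → ℂ, eval₂ (ev σ) y R =
        ∑ i ∈ range (k + 1), eval₂ (ev σ) (fun j => y j.succ) (p.coeff i) * y 0 ^ i := by
      intro σ hσ y
      rw [eval₂_succ, Polynomial.eval₂_eq_sum_range]
      refine (sum_subset (range_mono (Nat.succ_le_succ (hP k hk))) fun i _ hi => ?_).symm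
      have h1 : MvPolynomial.map (ev σ) (p.coeff i) = 0 := by
        by_contra h
        exact hk' i (by simpa using hi) ⟨σ, mem_ball_zero_iff.2 (by linarith), h⟩
      rw [coe_eval₂Hom, eval₂_eq_eval_map, h1, map_zero, zero_mul]
    refine ((ih _ hk).pull (Option.map Fin.succ) fun F hF => rename_injective _
      (Option.map_injective (Fin.succ_injective _)) (by simpa using hF)).puncture fun U u1 u2 => ?_
    let Ψ : ℂ × (Fin (r + 1) → ℂ) → Option (Fin (r + 1)) → ℂ := fun q o => o.elim (ev q.1 t) q.2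
    let S : Set (ℂ × (Fin (r + 1) → ℂ)) := closedBall 0 1 ×ˢ Set.univ.pi fun _ => closedBall 0 ρ
    have s1 : IsCompact S :=
      (isCompact_closedBall _ _).prod (isCompact_univ_pi fun _ => isCompact_closedBall _ _)
    have s2 : S ⊆ closedBall 0 2 ×ˢ Set.univ := fun q hq =>
      ⟨closedBall_subset_closedBall (by norm_num) hq.1, trivial⟩
    have s3 : ContinuousOn Ψ S := continuousOn_pi.2 fun o => by
      rcases o with _ | j
      · exact (ev_cont t).comp continuousOn_fst fun q hq => (s2 hq).1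
      · exact (by fun_prop : Continuous fun q : ℂ × (Fin (r + 1) → ℂ) => q.2 j).continuousOn
    have s4 : IsCompact (S ∩ Ψ ⁻¹' Uᶜ) := s1.of_isClosed_subset
      (s3.preimage_isClosed_of_isClosed s1.isClosed u1.isClosed_compl) Set.inter_subset_left
    obtain ⟨δ, d1, d2⟩ := s4.exists_forall_le' (a := 0)
      ((cont_eval Fin.succ (p.coeff k)).norm.mono (Set.inter_subset_left.trans s2))
      fun q hq => norm_pos_iff.2 fun h => hq.2 (u2 ⟨q.1, mem_closedBall_zero_iff.1 hq.1.1, rfl,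
        fun j => mem_closedBall_zero_iff.1 (hq.1.2 j.succ trivial), h⟩)
    have d3 : ∀ x σ, ‖σ‖ ≤ 1 → x none = ev σ t → (∀ j, ‖x (some j)‖ ≤ ρ) → x ∉ U →
        δ ≤ ‖eval₂ (ev σ) (fun j => x (some j.succ)) (p.coeff k)‖ := fun x σ h1 h2 h3 h4 =>
      d2 (σ, fun j => x (some j)) ⟨⟨mem_closedBall_zero_iff.2 h1,
        fun j _ => mem_closedBall_zero_iff.2 (h3 j)⟩, fun h => h4 (by
          have : Ψ (σ, fun j => x (some j)) = x := funext fun o => by
            rcases o with _ | j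
            exacts [h2.symm, rfl]
          rwa [← this])⟩
    rcases k with _ | k
    · refine neg_empty.mono ?_
      rintro x ⟨⟨σ, h1, h2, h3, h4⟩, h5⟩
      have h6 := d3 x σ h1 h2 h3 h5
      rw [key σ h1, sum_range_one, pow_zero, mul_one] at h4
      rw [h4, norm_zero] at h6
      exact absurd d1 (not_lt.2 h6)
    · refine (approx_piece r k t p.coeff d1 ρ).small.neg.mono ?_
      rintro x ⟨⟨σ, h1, h2, h3, h4⟩, h5⟩
      exact ⟨σ, h1, h2, h3, (key σ h1 fun j => x (some j)).symm.trans h4, d3 x σ h1 h2 h3 h5⟩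

variable {ι : Type} [Fintype ι] {𝔓 : Ideal (MvPolynomial ι K)}

noncomputable def Lg (z : ι → ℂ) : ι → ℝ := fun i => log ‖z i‖

def Box (𝔓 : Ideal (MvPolynomial ι K)) (R : ℝ) : Set (ι → ℂ) := {z ∈ Tor 𝔓 | ∀ i, |Lg z i| ≤ R}

theorem cont_aeval (f : MvPolynomial ι K) : Continuous fun z : ι → ℂ => aeval z f := by
  simp only [aeval_def, eval₂_eq_eval_map]
  exact MvPolynomial.continuous_eval _

theorem lg_iff {y : ℂ} {R : ℝ} : y ≠ 0 ∧ |log ‖y‖| ≤ R ↔ exp (-R) ≤ ‖y‖ ∧ ‖y‖ ≤ exp R := by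
  constructor
  · rintro ⟨h1, h2⟩
    have := norm_pos_iff.2 h1
    rwa [abs_le, le_log_iff_exp_le this, log_le_iff_le_exp this] at h2
  · rintro ⟨h1, h2⟩
    have := (exp_pos _).trans_le h1
    exact ⟨norm_pos_iff.1 this, by
      rw [abs_le, le_log_iff_exp_le this, log_le_iff_le_exp this]; exact ⟨h1, h2⟩⟩

theorem box_compact (R : ℝ) : IsCompact (Box 𝔓 R) := by
  have e : Box 𝔓 R = (⋂ f ∈ 𝔓, {z | aeval z f = 0}) ∩
      ⋂ i, {z : ι → ℂ | exp (-R) ≤ ‖z i‖} ∩ {z | ‖z i‖ ≤ exp R} := by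
    ext z
    simp only [Box, Tor, Lg, Set.mem_inter_iff, Set.mem_iInter, Set.mem_ofPred_eq, ← lg_iff,
      forall_and]
    tauto
  refine (isCompact_closedBall 0 (exp R)).of_isClosed_subset ?_ fun z hz => ?_
  · rw [e]
    exact (isClosed_biInter fun f _ => isClosed_eq (cont_aeval f) continuous_const).inter
      (isClosed_iInter fun i => (isClosed_le continuous_const (by fun_prop)).inter
        (isClosed_le (by fun_prop) continuous_const))
  · exact mem_closedBall_zero_iff.2 ((pi_norm_le_iff_of_nonneg (exp_pos R).le).2 fun i =>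
      (lg_iff.1 ⟨hz.1.1 i, hz.2 i⟩).2)

theorem cont_Lg {z : ι → ℂ} (hz : ∀ i, z i ≠ 0) : ContinuousAt Lg z :=
  continuousAt_pi.2 fun i => (continuous_apply i).norm.continuousAt.log (norm_ne_zero_iff.2 (hz i))

theorem slice_compact {Φ : (ι → ℝ) → ℝ} (hΦ : Continuous Φ) (R : ℝ) :
    IsCompact {z ∈ Box 𝔓 R | Φ (Lg z) = 0} :=
  (box_compact R).of_isClosed_subset (ContinuousOn.preimage_isClosed_of_isClosed
    (f := fun z => Φ (Lg z)) (t := {0})
    (fun z hz => (hΦ.continuousAt.comp (cont_Lg hz.1.1)).continuousWithinAt)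
    (box_compact R).isClosed isClosed_singleton) fun _ h => h.1

theorem pcm [hp : 𝔓.IsPrime] {Ω : Type} [TopologicalSpace Ω] {W : Set Ω} (hW : IsCompact W)
    (Ψ : Ω → (ι → ℝ) → ℝ) (hΨ : Continuous (Function.uncurry Ψ))
    (hN : ∀ ω ∈ W, ∀ R, Neg 𝔓 {z ∈ Box 𝔓 R | Ψ ω (Lg z) = 0}) {ρ : ℝ} (hρ : 0 < ρ) (h : ℝ) :
    ∃ ε > 0, ∃ F ∉ 𝔓, ∀ ω ∈ W, Kills F ρ h {z ∈ Tor 𝔓 | |Ψ ω (Lg z)| ≤ ε} := by
  set R := 4 * (Fintype.card ι * |h| + 1) / ρ
  obtain ⟨ε, e0, F, f0, hF⟩ : ∃ ε > 0, ∃ F ∉ 𝔓, ∀ ω ∈ W,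
      Kills F (ρ / 2) h {z ∈ Box 𝔓 R | |Ψ ω (Lg z)| ≤ ε} := by
    refine hW.induction_on (p := fun s => ∃ ε > 0, ∃ F ∉ 𝔓, ∀ ω ∈ s,
      Kills F (ρ / 2) h {z ∈ Box 𝔓 R | |Ψ ω (Lg z)| ≤ ε})
      ⟨1, one_pos, 1, (Ideal.ne_top_iff_one _).1 hp.ne_top, fun _ h => h.elim⟩
      (fun s t hst ⟨ε, e0, F, f0, hF⟩ => ⟨ε, e0, F, f0, fun ω hω => hF ω (hst hω)⟩)
      (fun s t ⟨ε, e0, F, f0, hF⟩ ⟨ε', e0', F', f0', hF'⟩ => ⟨min ε ε', lt_min e0 e0', F * F',
        fun h => (hp.mem_or_mem h).elim f0 f0', fun ω hω L _ _ _ x S a1 a2 a3 => ?_⟩)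
      fun ω hω => ?_
    · rw [map_mul, mul_eq_zero]
      exact hω.imp (fun hω => hF ω hω L x S a1 a2 fun σ hσ =>
        ⟨(a3 σ hσ).1, (a3 σ hσ).2.trans (min_le_left _ _)⟩) fun hω => hF' ω hω L x S a1 a2
        fun σ hσ => ⟨(a3 σ hσ).1, (a3 σ hσ).2.trans (min_le_right _ _)⟩
    obtain ⟨U, u1, u2, F, u3, u4⟩ := hN ω hω R (ρ / 2) (half_pos hρ) h
    have h1 : ∀ᶠ q : Ω × ℝ in 𝓝 (ω, 0), ∀ z ∈ Box 𝔓 R \ U, q.2 < |Ψ q.1 (Lg z)| := by
      refine ((box_compact R).diff u1).eventually_forall_of_forall_eventually fun z hz => ?_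
      refine ContinuousAt.eventually_lt (f := fun q : (Ω × ℝ) × (ι → ℂ) => q.1.2)
        (g := fun q : (Ω × ℝ) × (ι → ℂ) => |Ψ q.1.1 (Lg q.2)|) (by fun_prop) ?_
        (abs_pos.2 fun h => hz.2 (u2 ⟨hz.1, h⟩))
      exact (hΨ.continuousAt.comp (f := fun q : (Ω × ℝ) × (ι → ℂ) => (q.1.1, Lg q.2))
        (ContinuousAt.prodMk (by fun_prop)
          (ContinuousAt.comp (cont_Lg hz.1.1.1) continuousAt_snd))).abs
    rw [nhds_prod_eq] at h1
    obtain ⟨A, hA, B, hB, h2⟩ := Filter.mem_prod_iff.1 h1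
    obtain ⟨ε, e1, e2⟩ := Filter.nonempty_of_mem
      (inter_mem (mem_nhdsWithin_of_mem_nhds (s := B) (t := Set.Ioi 0) hB) self_mem_nhdsWithin)
    refine ⟨A, nhdsWithin_le_nhds hA, ε, e2, F, u3, fun ω' hω' L _ _ _ x S a1 a2 a3 =>
      u4 L x S a1 a2 fun σ hσ => ?_⟩
    by_contra hc
    exact absurd (a3 σ hσ).2 (not_le.2 (h2 (Set.mk_mem_prod hω' e1) _ ⟨(a3 σ hσ).1, hc⟩))
  refine ⟨ε, e0, F, f0, fun ω hω L _ _ _ x S a1 a2 a3 => ?_⟩
  obtain ⟨S', s1, s2, s3⟩ := markov univ x (h := Fintype.card ι * |h| + 1) (by positivity) hρ (by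
    refine (sum_le_card_nsmul _ _ (|h| * finrank ℚ L) fun i _ => (a1 i).trans ?_).trans ?_
    · gcongr
      exact le_abs_self h
    · rw [nsmul_eq_mul, card_univ, add_mul, mul_assoc, one_mul]
      exact le_add_of_nonneg_right (by positivity)) S a2
  exact hF ω hω L x S' a1 s2 fun σ hσ =>
    ⟨⟨(a3 σ (s1 hσ)).1, fun i => s3 σ hσ i (mem_univ i)⟩, (a3 σ (s1 hσ)).2⟩

end Pool.Agent.ZPT
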