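import Mathlib

/-! Heights in number fields: local-to-global bounds. -/

set_option linter.unusedSectionVars false

namespace Pool.Agent.ZPT
open Height NumberField Finset Real Module

variable {L : Type} [Field L] [NumberField L]

theorem sum_emb (f : ℝ → ℝ) (x : L) :
    ∑ σ : L →+* ℂ, f ‖σ x‖ = ∑ w : InfinitePlace L, w.mult * f (w x) := by
  classical
  rw [← Finset.sum_fiberwise univ InfinitePlace.mk]
  refine sum_congr rfl fun w _ => ?_
  rw [sum_congr rfl (g := fun _ => f (w x)) fun φ hφ => by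
    rw [← (mem_filter.1 hφ).2, InfinitePlace.apply], sum_const, InfinitePlace.card_filter_mk_eq,
    nsmul_eq_mul]

theorem fin_supp (x : L) : (Function.support fun v : FinitePlace L => log⁺ (v x)).Finite := by
  rcases eq_or_ne x 0 with rfl | hx
  · simp
  · refine (FinitePlace.hasFiniteMulSupport hx).subset fun v hv => ?_
    intro h
    apply hv
    simp only at h ⊢
    rw [h, posLog_one]

theorem ht_eq (x : L) : logHeight₁ x =
    ∑ σ : L →+* ℂ, log⁺ ‖σ x‖ + ∑ᶠ v : FinitePlace L, log⁺ (v x) := by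
  rw [NumberField.logHeight₁_eq, sum_emb (fun y => log⁺ y)]

theorem posLog_le_of {ι : Type} (s : Finset ι) (y : ι → ℝ) (hy : ∀ i, 0 ≤ y i) (e : ι → ℕ)
    {a C : ℝ} (ha : 0 ≤ a) (hC : 1 ≤ C) (h : a ≤ C * ∏ i ∈ s, max (y i) 1 ^ e i) :
    log⁺ a ≤ log C + ∑ i ∈ s, e i * log⁺ (y i) := by
  have h1 : 1 ≤ ∏ i ∈ s, max (y i) 1 ^ e i :=
    Finset.one_le_prod fun i _ => one_le_pow₀ (le_max_right _ _)
  refine (posLog_le_posLog ha h).trans (le_of_eq ?_)
  rw [posLog_eq_log (by rw [abs_of_pos (by positivity)]; nlinarith), log_mul (by positivity)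
    (by positivity), log_prod fun i _ => by positivity]
  refine congrArg _ (sum_congr rfl fun i _ => ?_)
  rw [log_pow, posLog_eq_log_max_one (hy i), max_comm]

/-- local bounds give a height bound -/
theorem LG {ι : Type} (s : Finset ι) (x : ι → L) (e : ι → ℕ) (α : L) {C : ℝ} (hC : 1 ≤ C)
    (h1 : ∀ σ : L →+* ℂ, ‖σ α‖ ≤ C * ∏ i ∈ s, max ‖σ (x i)‖ 1 ^ e i)
    (h2 : ∀ v : AbsoluteValue L ℝ, IsNonarchimedean v → v α ≤ ∏ i ∈ s, max (v (x i)) 1 ^ e i) :
    logHeight₁ α ≤ log C * finrank ℚ L + ∑ i ∈ s, e i * logHeight₁ (x i) := by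
  classical
  have hW : (Function.support (fun v : FinitePlace L => log⁺ (v α)) ∪
      ⋃ i ∈ s, Function.support fun v : FinitePlace L => log⁺ (v (x i))).Finite :=
    (fin_supp α).union (s.finite_toSet.biUnion fun i _ => fin_supp (x i))
  set W := hW.toFinset
  have e1 : ∑ᶠ v : FinitePlace L, log⁺ (v α) = ∑ v ∈ W, log⁺ (v α) :=
    finsum_eq_sum_of_support_subset _ fun v hv => by simp [W, Function.mem_support.1 hv]
  have e2 : ∀ i ∈ s, ∑ᶠ v : FinitePlace L, log⁺ (v (x i)) = ∑ v ∈ W, log⁺ (v (x i)) := fun i hi =>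
    finsum_eq_sum_of_support_subset _ fun v hv => by
      simp only [W, Set.Finite.coe_toFinset]
      exact Or.inr (Set.mem_biUnion hi hv)
  have a1 : ∑ σ : L →+* ℂ, log⁺ ‖σ α‖ ≤
      ∑ σ : L →+* ℂ, (log C + ∑ i ∈ s, e i * log⁺ ‖σ (x i)‖) :=
    sum_le_sum fun σ _ => posLog_le_of s _ (fun _ => norm_nonneg _) e (norm_nonneg _) hC (h1 σ)
  have a2 : ∑ v ∈ W, log⁺ (v α) ≤ ∑ v ∈ W, ∑ i ∈ s, e i * log⁺ (v (x i)) :=
    sum_le_sum fun v _ => by
      have := posLog_le_of s (fun i => v.1 (x i)) (fun _ => apply_nonneg _ _) e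
        (apply_nonneg v.1 α) le_rfl (by rw [one_mul]; exact h2 v.1 (FinitePlace.add_le v))
      rwa [log_one, zero_add] at this
  rw [sum_add_distrib, sum_const, card_univ, Embeddings.card, nsmul_eq_mul, sum_comm] at a1
  rw [sum_comm] at a2
  have e3 : ∑ i ∈ s, e i * logHeight₁ (x i) = ∑ i ∈ s, (∑ σ : L →+* ℂ, e i * log⁺ ‖σ (x i)‖ +
      ∑ v ∈ W, e i * log⁺ (v (x i))) :=
    sum_congr rfl fun i hi => by rw [ht_eq, e2 i hi, mul_add, mul_sum, mul_sum]
  rw [e3, ht_eq, e1, sum_add_distrib]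
  linarith

theorem na_sum {v : AbsoluteValue L ℝ} (hv : IsNonarchimedean v) {β : Type} (s : Finset β)
    (f : β → L) {B : ℝ} (hB : 0 ≤ B) (h : ∀ i ∈ s, v (f i) ≤ B) : v (∑ i ∈ s, f i) ≤ B := by
  classical
  induction s using Finset.induction_on with
  | empty => simpa using hB
  | insert a s ha ih =>
    rw [sum_insert ha]
    exact (hv _ _).trans (max_le (h a (mem_insert_self _ _))
      (ih fun i hi => h i (mem_insert_of_mem hi)))

theorem ar_sum (v : AbsoluteValue L ℝ) {β : Type} (s : Finset β)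
    (f : β → L) {B : ℝ} (h : ∀ i ∈ s, v (f i) ≤ B) : v (∑ i ∈ s, f i) ≤ #s * B :=
  (v.sum_le s f).trans (by simpa using sum_le_card_nsmul s _ B h)

theorem ht_int (N : ℤ) (hN : N ≠ 0) : logHeight₁ (N : L) ≤ log |(N : ℝ)| * finrank ℚ L := by
  have := LG (∅ : Finset Unit) (fun _ => (0 : L)) (fun _ => 0) (N : L) (C := |(N : ℝ)|)
    (by exact_mod_cast Int.one_le_abs hN) (fun σ => by simp)
    fun v hv => by simpa using hv.apply_intCast_le_one (n := N)
  simpa using this

theorem root_loc (v : AbsoluteValue L ℝ) {κ B : ℝ} (hκ : 1 ≤ κ) (e : ℕ) (a : ℕ → L) (x : L)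
    (hB : ∀ j ≤ e, v (a j) ≤ B)
    (hsum : ∀ (f : ℕ → L) (B' : ℝ), 0 ≤ B' → (∀ j ∈ range e, v (f j) ≤ B') →
      v (∑ j ∈ range e, f j) ≤ κ * B')
    (h : ∑ j ∈ range (e + 1), a j * x ^ j = 0) : v (a e * x) ≤ κ * B := by
  have hB0 : 0 ≤ B := (v.nonneg _).trans (hB e le_rfl)
  rw [map_mul]
  rcases le_or_gt (v x) 1 with hx | hx
  · have := hB e le_rfl
    have := v.nonneg x
    have := v.nonneg (a e)
    nlinarith
  · rcases e with _ | e
    · have : a 0 = 0 := by simpa using h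
      rw [this, map_zero, zero_mul]
      positivity
    rw [sum_range_succ, add_comm, add_eq_zero_iff_eq_neg] at h
    have h1 := congrArg v h
    rw [AbsoluteValue.map_neg, map_mul, map_pow] at h1
    have h2 := hsum (fun j => a j * x ^ j) (B * v x ^ e) (by positivity) fun j hj => by
      rw [map_mul, map_pow]
      have := mem_range.1 hj
      exact mul_le_mul (hB j (by omega)) (pow_le_pow_right₀ hx.le (by omega)) (by positivity) hB0
    rw [← h1, pow_succ] at h2
    have h3 : 0 < v x ^ e := by positivity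
    refine le_of_mul_le_mul_right ?_ h3
    linarith

theorem ht_div (a x : L) (ha : a ≠ 0) : logHeight₁ x ≤ logHeight₁ (a * x) + logHeight₁ a := by
  have := logHeight₁_mul_le (a * x) a⁻¹
  rwa [logHeight₁_inv, mul_right_comm, mul_inv_cancel₀ ha, one_mul] at this

variable {K : Type} [Field K] [NumberField K]

theorem ht_const (c : K) : ∃ C : ℝ, 0 ≤ C ∧ ∀ (L : Type) [Field L] [NumberField L] [Algebra K L],
    logHeight₁ (algebraMap K L c) ≤ C * finrank ℚ L := by
  obtain ⟨p, hp, h⟩ : IsAlgebraic ℤ c :=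
    (IsFractionRing.isAlgebraic_iff ℤ ℚ K).2 (IsAlgebraic.of_finite ℚ c)
  set e := p.natDegree
  set B : ℝ := ∑ j ∈ range (e + 1), |(p.coeff j : ℝ)| with hB
  have hl : p.coeff e ≠ 0 := Polynomial.leadingCoeff_ne_zero.2 hp
  have hB1 : ∀ j ≤ e, |(p.coeff j : ℝ)| ≤ B := fun j hj =>
    single_le_sum (f := fun j => |(p.coeff j : ℝ)|) (fun _ _ => abs_nonneg _)
      (mem_range.2 (by omega))
  have h1 : (1 : ℝ) ≤ |(p.coeff e : ℝ)| := by exact_mod_cast Int.one_le_abs hl
  have hB2 : 1 ≤ (e + 1) * B := by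
    have := hB1 e le_rfl
    have : (0 : ℝ) ≤ e := by positivity
    nlinarith
  refine ⟨log ((e + 1) * B) + log |(p.coeff e : ℝ)|, add_nonneg (log_nonneg hB2) (log_nonneg h1),
    fun L _ _ _ => ?_⟩
  have h2 : ∑ j ∈ range (e + 1), (p.coeff j : L) * algebraMap K L c ^ j = 0 := by
    have := congrArg (algebraMap K L) h
    rw [Polynomial.aeval_eq_sum_range, map_sum, map_zero] at this
    simpa using this
  have h3 := LG (∅ : Finset Unit) (fun _ => (0 : L)) (fun _ => 0)
    ((p.coeff e : L) * algebraMap K L c) hB2 (fun σ => by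
      have := root_loc (place σ) (κ := e + 1) (B := B) (by simp) e (fun j => (p.coeff j : L)) _
        (fun j hj => by simpa [place_apply] using hB1 j hj) (fun f B' h0 hf =>
          (ar_sum _ _ f hf).trans (by rw [card_range]; nlinarith)) h2
      simpa [place_apply] using this) fun v hv => by
      have := root_loc v (κ := 1) (B := 1) le_rfl e (fun j => (p.coeff j : L)) _
        (fun j _ => hv.apply_intCast_le_one) (fun f B' h0 hf => by
          rw [one_mul]; exact na_sum hv _ f h0 hf) h2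
      simpa using this
  have h4 := ht_div (p.coeff e : L) (algebraMap K L c) (by exact_mod_cast hl)
  have h5 := ht_int (L := L) _ hl
  simp only [sum_empty, add_zero] at h3
  linarith

/-- crude bound for the values of a fixed polynomial -/
theorem ht_aeval {ι : Type} [Fintype ι] (p : MvPolynomial ι K) : ∃ C : ℝ, 0 ≤ C ∧
    ∀ (L : Type) [Field L] [NumberField L] [Algebra K L] (x : ι → L),
      logHeight₁ (MvPolynomial.aeval x p) ≤ C * (finrank ℚ L + ∑ i, logHeight₁ (x i)) := by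
  have hs : ∀ (L : Type) [Field L] [NumberField L] (x : ι → L), 0 ≤ ∑ i, logHeight₁ (x i) :=
    fun L _ _ x => sum_nonneg fun i _ => zero_le_logHeight₁ _
  induction p using MvPolynomial.induction_on with
  | C c =>
    obtain ⟨C, h0, h⟩ := ht_const c
    refine ⟨C, h0, fun L _ _ _ x => ?_⟩
    rw [MvPolynomial.aeval_C]
    have := hs L x
    exact (h L).trans (by gcongr; linarith)
  | add p q hp hq =>
    obtain ⟨C, h0, h⟩ := hp
    obtain ⟨C', h0', h'⟩ := hq
    refine ⟨C + C' + 1, by positivity, fun L _ _ _ x => ?_⟩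
    rw [map_add]
    refine (logHeight₁_add_le _ _).trans ?_
    rw [totalWeight_eq_finrank]
    have h1 := h L x
    have h2 := h' L x
    have h3 := hs L x
    have h4 : log 2 ≤ 1 := by have := log_two_lt_d9; linarith
    have h5 : (0 : ℝ) ≤ finrank ℚ L := by positivity
    nlinarith
  | mul_X p i hp =>
    obtain ⟨C, h0, h⟩ := hp
    refine ⟨C + 1, by positivity, fun L _ _ _ x => ?_⟩
    rw [map_mul, MvPolynomial.aeval_X]
    refine (logHeight₁_mul_le _ _).trans ?_
    have h1 := h L x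
    have h2 : logHeight₁ (x i) ≤ ∑ i, logHeight₁ (x i) :=
      single_le_sum (f := fun i => logHeight₁ (x i)) (fun _ _ => zero_le_logHeight₁ _) (mem_univ i)
    have h5 : (0 : ℝ) ≤ finrank ℚ L := by positivity
    nlinarith

theorem coef_loc (v : AbsoluteValue L ℝ) {κ : ℝ} (e d : ℕ) (c : ℕ × ℕ → L) (y : L)
    (hsum : ∀ (f : ℕ → L) (B' : ℝ), 0 ≤ B' → (∀ j ∈ range (d + 1), v (f j) ≤ B') →
      v (∑ j ∈ range (d + 1), f j) ≤ κ * B') {j : ℕ} (hj : j ≤ e) :
    v (∑ l ∈ range (d + 1), c (j, l) * y ^ l) ≤ κ * ∏ i ∈ insertNone (range (e + 1) ×ˢ range (d + 1)),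
      max (v (i.elim y c)) 1 ^ (i.elim d fun _ => 1) := by
  refine hsum _ _ (prod_nonneg fun _ _ => by positivity) fun l hl => ?_
  rw [prod_insertNone, map_mul, map_pow, mul_comm]
  refine mul_le_mul ?_ ?_ (v.nonneg _) (by positivity)
  · exact (pow_le_pow_left₀ (v.nonneg _) (le_max_left _ _) _).trans
      (pow_le_pow_right₀ (le_max_right _ _) (by have := mem_range.1 hl; simp; omega))
  · simp only [Option.elim_some, pow_one]
    rw [← mul_prod_erase _ _ (a := (j, l)) (mem_product.2 ⟨mem_range.2 (show j < e + 1 by omega), hl⟩)]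
    exact (le_max_left _ 1).trans (le_mul_of_one_le_right (by positivity)
      (Finset.one_le_prod fun _ _ => le_max_right _ _))

/-- the root bound, with a sharp dependence on the parameter -/
theorem root_bound (e d : ℕ) (c : ℕ × ℕ → K) : ∃ C : ℝ, 0 ≤ C ∧
    ∀ (L : Type) [Field L] [NumberField L] [Algebra K L] (x y : L),
      ∑ j ∈ range (e + 1), (∑ l ∈ range (d + 1), algebraMap K L (c (j, l)) * y ^ l) * x ^ j = 0 →
      ∑ l ∈ range (d + 1), algebraMap K L (c (e, l)) * y ^ l ≠ 0 →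
      logHeight₁ x ≤ 2 * d * logHeight₁ y + C * finrank ℚ L := by
  choose C hC0 hC using fun i => ht_const (c i)
  set s := range (e + 1) ×ˢ range (d + 1)
  have k1 : (1 : ℝ) ≤ e + 1 := by simp
  have k2 : (1 : ℝ) ≤ d + 1 := by simp
  have k3 : (1 : ℝ) ≤ (e + 1) * (d + 1) := by nlinarith
  refine ⟨log ((e + 1) * (d + 1)) + log (d + 1) + 2 * ∑ i ∈ s, C i, ?_, fun L _ _ _ x y h h0 => ?_⟩
  · have := log_nonneg k3
    have := log_nonneg k2
    have := sum_nonneg fun i (_ : i ∈ s) => hC0 i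
    positivity
  set c' : ℕ × ℕ → L := fun i => algebraMap K L (c i)
  have ar : ∀ (σ : L →+* ℂ), ∀ j ≤ e, place σ (∑ l ∈ range (d + 1), c' (j, l) * y ^ l) ≤ _ :=
    fun σ j hj => coef_loc (place σ) (κ := d + 1) e d c' y (fun f B' _ hf =>
      (ar_sum _ _ f hf).trans (by simp)) hj
  have na : ∀ (v : AbsoluteValue L ℝ), IsNonarchimedean v → ∀ j ≤ e,
      v (∑ l ∈ range (d + 1), c' (j, l) * y ^ l) ≤ _ :=
    fun v hv j hj => coef_loc v (κ := 1) e d c' y (fun f B' h0 hf => by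
      rw [one_mul]; exact na_sum hv _ f h0 hf) hj
  have h1 := LG (insertNone s) (fun i => i.elim y c') (fun i => i.elim d fun _ => 1)
    (∑ l ∈ range (d + 1), c' (e, l) * y ^ l) k2 (fun σ => ar σ e le_rfl)
    fun v hv => by simpa using na v hv e le_rfl
  have h2 := LG (insertNone s) (fun i => i.elim y c') (fun i => i.elim d fun _ => 1)
    ((∑ l ∈ range (d + 1), c' (e, l) * y ^ l) * x) k3 (fun σ => by
      have := root_loc (place σ) k1 e _ x (ar σ) (fun f B' h0 hf =>
        (ar_sum _ _ f hf).trans (by rw [card_range]; nlinarith)) h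
      rw [mul_assoc]
      exact this) fun v hv => by
      have := root_loc v le_rfl e _ x (na v hv) (fun f B' h0 hf => by
        rw [one_mul]; exact na_sum hv _ f h0 hf) h
      simpa using this
  have h3 := ht_div _ x h0
  have h4 : ∑ i ∈ s, logHeight₁ (c' i) ≤ (∑ i ∈ s, C i) * finrank ℚ L := by
    rw [sum_mul]
    exact sum_le_sum fun i _ => hC i L
  simp only [sum_insertNone, Option.elim_none, Option.elim_some, Nat.cast_one, one_mul] at h1 h2
  linarith

/-- the height of the value of an integer polynomial -/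
theorem liou {ι A : Type} [Fintype ι] (s : Finset A) (t : A → ℤ) (ex : A → ι → ℕ) (D : ℕ)
    (hD : ∀ a ∈ s, ∀ i, ex a i ≤ D) (x : ι → L) {C : ℝ} (h1 : 1 ≤ C)
    (hC : ∑ a ∈ s, |(t a : ℝ)| ≤ C) : logHeight₁ (∑ a ∈ s, t a * ∏ i, x i ^ ex a i) ≤
      log C * finrank ℚ L + D * ∑ i, logHeight₁ (x i) := by
  have key : ∀ (v : AbsoluteValue L ℝ), ∀ a ∈ s,
      v (∏ i, x i ^ ex a i) ≤ ∏ i, max (v (x i)) 1 ^ D := fun v a ha => by
    rw [map_prod]
    refine prod_le_prod (fun _ _ => v.nonneg _) fun i _ => ?_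
    rw [map_pow]
    exact (pow_le_pow_left₀ (v.nonneg _) (le_max_left _ _) _).trans
      (pow_le_pow_right₀ (le_max_right _ _) (hD a ha i))
  rw [mul_sum]
  refine LG univ x (fun _ => D) _ h1 (fun σ => ?_) fun v hv => ?_
  · refine ((place σ).sum_le _ _).trans (le_trans (sum_le_sum fun a ha => ?_)
      ((sum_mul s (fun a => |(t a : ℝ)|) _).ge.trans (mul_le_mul_of_nonneg_right hC
        (prod_nonneg fun _ _ => by positivity))))
    rw [map_mul]
    refine mul_le_mul (by simp [place_apply]) (key _ a ha) (apply_nonneg _ _) (abs_nonneg _)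
  · refine na_sum hv _ _ (prod_nonneg fun _ _ => by positivity) fun a ha => ?_
    rw [map_mul]
    exact (mul_le_of_le_one_left (v.nonneg _) hv.apply_intCast_le_one).trans (key v a ha)

variable [Algebra K L] [Algebra K ℂ]

theorem emb_posLog (S : Finset (L →ₐ[K] ℂ)) (α : L) : ∑ σ ∈ S, log⁺ ‖σ α‖ ≤ logHeight₁ α := by
  classical
  rw [ht_eq]
  refine le_trans ?_ (le_add_of_nonneg_right (finsum_nonneg fun _ => posLog_nonneg))
  refine (sum_image (s := S) (g := fun σ : L →ₐ[K] ℂ => (σ : L →+* ℂ)) (f := fun σ => log⁺ ‖σ α‖)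
    fun _ _ _ _ h => AlgHom.coe_ringHom_injective h).ge.trans ?_
  exact sum_le_sum_of_subset_of_nonneg (subset_univ _) fun _ _ _ => posLog_nonneg

theorem emb_neg (S : Finset (L →ₐ[K] ℂ)) (α : L) : ∑ σ ∈ S, -log ‖σ α‖ ≤ logHeight₁ α := by
  rw [← logHeight₁_inv]
  refine le_trans (sum_le_sum fun σ _ => ?_) (emb_posLog S α⁻¹)
  rw [map_inv₀, norm_inv, ← log_inv]
  exact le_max_right _ _

theorem emb_abs (S : Finset (L →ₐ[K] ℂ)) (α : L) :
    ∑ σ ∈ S, |log ‖σ α‖| ≤ 2 * logHeight₁ α := by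
  have h1 := emb_posLog S α
  have h2 := emb_posLog S α⁻¹
  rw [logHeight₁_inv] at h2
  refine le_trans (sum_le_sum (g := fun σ => log⁺ ‖σ α‖ + log⁺ ‖σ α⁻¹‖) fun σ _ => ?_)
    (sum_add_distrib.le.trans (by linarith))
  rw [map_inv₀, norm_inv, posLog_apply, posLog_apply, log_inv]
  rcases le_total 0 (log ‖σ α‖) with h | h
  · rw [abs_of_nonneg h, max_eq_right h, max_eq_left (by linarith), add_zero]
  · rw [abs_of_nonpos h, max_eq_left h, max_eq_right (by linarith), zero_add]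

/-- most conjugates are of moderate size -/
theorem markov {ι : Type} (s : Finset ι) (α : ι → L) {h ρ : ℝ} (hh : 0 < h) (hρ : 0 < ρ)
    (hα : ∑ i ∈ s, logHeight₁ (α i) ≤ h * finrank ℚ L) (S : Finset (L →ₐ[K] ℂ))
    (hS : ρ * finrank ℚ L ≤ #S) : ∃ S' ⊆ S, ρ / 2 * finrank ℚ L ≤ #S' ∧
      ∀ σ ∈ S', ∀ i ∈ s, |log ‖σ (α i)‖| ≤ 4 * h / ρ := by
  classical
  refine ⟨S.filter fun σ => ∀ i ∈ s, |log ‖σ (α i)‖| ≤ 4 * h / ρ, filter_subset _ _, ?_,
    fun σ hσ => (mem_filter.1 hσ).2⟩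
  set T := S.filter fun σ => ¬ ∀ i ∈ s, |log ‖σ (α i)‖| ≤ 4 * h / ρ
  have h1 : (#T : ℝ) * (4 * h / ρ) ≤ ∑ σ ∈ T, ∑ i ∈ s, |log ‖σ (α i)‖| := by
    rw [← nsmul_eq_mul]
    refine card_nsmul_le_sum _ _ _ fun σ hσ => ?_
    have := (mem_filter.1 hσ).2
    push Not at this
    obtain ⟨i, hi, h⟩ := this
    exact h.le.trans (single_le_sum (f := fun i => |log ‖σ (α i)‖|) (fun _ _ => abs_nonneg _) hi)
  have h2 : ∑ σ ∈ T, ∑ i ∈ s, |log ‖σ (α i)‖| ≤ 2 * (h * finrank ℚ L) := by
    rw [sum_comm]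
    refine (sum_le_sum fun i _ => emb_abs T (α i)).trans ?_
    rw [← mul_sum]
    linarith
  have h3 : (#T : ℝ) ≤ ρ / 2 * finrank ℚ L := by
    have := h1.trans h2
    rw [← le_div_iff₀ (by positivity)] at this
    refine this.trans (le_of_eq ?_)
    field_simp
    ring
  have h4 := card_filter_add_card_filter_not (s := S) fun σ => ∀ i ∈ s, |log ‖σ (α i)‖| ≤ 4 * h / ρ
  have h5 : ((#(S.filter fun σ => ∀ i ∈ s, |log ‖σ (α i)‖| ≤ 4 * h / ρ) : ℕ) : ℝ) + #T = #S := by
    exact_mod_cast h4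
  linarith

/-- the height of a monomial -/
theorem ht_mono {ι : Type} [Fintype ι] (x : ι → L) (a : ι → ℤ) {B : ℝ} (hB : ∀ i, |(a i : ℝ)| ≤ B) :
    logHeight₁ (∏ i, x i ^ a i) ≤ B * ∑ i, logHeight₁ (x i) := by
  rw [mul_sum]
  refine (logHeight₁_prod_le _ _).trans (sum_le_sum fun i _ => ?_)
  rw [logHeight₁_zpow]
  refine mul_le_mul_of_nonneg_right ?_ (zero_le_logHeight₁ _)
  rw [Nat.cast_natAbs, Int.cast_abs]
  exact hB i

end Pool.Agent.ZPT
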