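import Pool.Agent.P.MP_4fdccb_ag.Res

/-! Local analysis on the base curve. -/

set_option linter.unusedSectionVars false
set_option linter.unusedVariables false

namespace Pool.Agent.ZPT
open Finset MvPolynomial Topology Filter Metric Matrix

theorem branch {f : ℂ × ℂ → ℂ} {t₀ x₀ d : ℂ} (hf : AnalyticAt ℂ f (t₀, x₀))
    (hd : HasDerivAt (fun x => f (t₀, x)) d x₀) (h0 : d ≠ 0) : ∃ φ : ℂ → ℂ, AnalyticAt ℂ φ t₀ ∧
      φ t₀ = x₀ ∧ ∀ᶠ v in 𝓝 (t₀, x₀), f v = f (t₀, x₀) → φ v.1 = v.2 := by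
  have h1 : ContDiffAt ℂ ⊤ f (t₀, x₀) := hf.contDiffAt
  have h2 : (fderiv ℂ f (t₀, x₀) ∘L .inr ℂ ℂ ℂ).IsInvertible := by
    refine ⟨ContinuousLinearEquiv.unitsEquivAut ℂ (Units.mk0 d h0), ?_⟩
    exact hd.hasFDerivAt.unique
      (hf.differentiableAt.hasFDerivAt.comp x₀ (hasFDerivAt_prodMk_right t₀ x₀))
  exact ⟨h1.implicitFunction (by simp) h2, (h1.contDiffAt_implicitFunction (by simp) h2).analyticAt,
    h1.implicitFunction_apply_self (by simp) h2,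
    (h1.eventually_apply_eq_iff_implicitFunction (by simp) h2).mono fun v hv => hv.1⟩

variable {K : Type} [Field K] [NumberField K] [Algebra K ℂ] {B : Type} [Fintype B] [DecidableEq B]

/-- evaluation of a polynomial in two variables -/
noncomputable def e2 {L : Type} [CommRing L] [Algebra K L] (t x : L)
    (A : Polynomial (Polynomial K)) : L :=
  A.eval₂ (Polynomial.aeval t : Polynomial K →ₐ[K] L) x

theorem an_e2 (A : Polynomial (Polynomial K)) (v : ℂ × ℂ) :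
    AnalyticAt ℂ (fun v : ℂ × ℂ => e2 v.1 v.2 A) v := by
  simp only [e2, Polynomial.eval₂_eq_sum_range]
  exact Finset.analyticAt_fun_sum _ fun j _ =>
    (analyticAt_fst.aeval_polynomial _).mul (analyticAt_snd.pow _)

theorem der_e2 (A : Polynomial (Polynomial K)) (t x : ℂ) :
    HasDerivAt (fun x => e2 t x A) (e2 t x (Polynomial.derivative A)) x := by
  simp only [e2, ← Polynomial.eval_map, ← Polynomial.derivative_map]
  exact Polynomial.hasDerivAt _ x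

/-- a local parametrisation of the curve by one coordinate, with logarithms -/
structure Dat (C : Set (B → ℂ)) (i₀ : B) (q l : ℂ → B → ℂ) (t₀ : ℂ) : Prop where
  aq : ∀ i, AnalyticAt ℂ (q · i) t₀
  al : ∀ i, AnalyticAt ℂ (l · i) t₀
  ev : ∀ᶠ t in 𝓝 t₀, q t ∈ C ∧ q t i₀ = t ∧ ∀ i, (l t i).re = Lg (q t) i

theorem Dat.near {C : Set (B → ℂ)} {i₀ : B} {q l : ℂ → B → ℂ} {t₀ : ℂ} (h : Dat C i₀ q l t₀) :
    ∀ᶠ t in 𝓝 t₀, Dat C i₀ q l t := by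
  filter_upwards [eventually_all.2 fun i => (h.aq i).eventually_analyticAt,
    eventually_all.2 fun i => (h.al i).eventually_analyticAt, h.ev.eventually_nhds]
    with t h1 h2 h3 using ⟨h1, h2, h3⟩

theorem param {𝔮 : Ideal (MvPolynomial B K)} {i₀ : B} {Q₀ : B → ℂ} (hQ : Q₀ ∈ Tor 𝔮)
    (hA : ∀ i, ∃ A : Polynomial (Polynomial K), (∀ Q ∈ Tor 𝔮, e2 (Q i₀) (Q i) A = 0) ∧
      e2 (Q₀ i₀) (Q₀ i) (Polynomial.derivative A) ≠ 0)
    (hi : ∃ᶠ Q in 𝓝 Q₀, Q ∈ Tor 𝔮 ∧ Q i₀ ≠ Q₀ i₀) : ∃ q l : ℂ → B → ℂ,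
      Dat (Tor 𝔮) i₀ q l (Q₀ i₀) ∧ ∀ᶠ Q in 𝓝 Q₀, Q ∈ Tor 𝔮 → q (Q i₀) = Q := by
  choose A h1 h2 using hA
  choose φ p1 p2 p3 using fun i => branch (an_e2 (A i) (Q₀ i₀, Q₀ i)) (der_e2 (A i) _ _) (h2 i)
  set q : ℂ → B → ℂ := fun t i => φ i t with hq
  have h3 : ∀ᶠ Q in 𝓝 Q₀, Q ∈ Tor 𝔮 → q (Q i₀) = Q := by
    have : ∀ i, ∀ᶠ Q in 𝓝 Q₀, Q ∈ Tor 𝔮 → φ i (Q i₀) = Q i := fun i => by
      have hc : ContinuousAt (fun Q : B → ℂ => (Q i₀, Q i)) Q₀ := by fun_prop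
      filter_upwards [hc.eventually (p3 i)] with Q h hQ' using h ((h1 i Q hQ').trans (h1 i _ hQ).symm)
    filter_upwards [eventually_all.2 this] with Q h hQ' using funext fun i => h i hQ'
  have h4 : ∃ᶠ t in 𝓝[≠] (Q₀ i₀), q t ∈ Tor 𝔮 ∧ q t i₀ = t := by
    rw [frequently_nhdsWithin_iff]
    refine ((continuous_apply i₀).tendsto Q₀).frequently ((hi.and_eventually h3).mono ?_)
    rintro Q ⟨⟨a, b⟩, c⟩
    exact ⟨by rw [c a]; exact ⟨a, rfl⟩, b⟩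
  obtain ⟨G, hG⟩ := (IsNoetherian.noetherian 𝔮 : 𝔮.FG)
  have h5 : ∀ g ∈ G, ∀ᶠ t in 𝓝 (Q₀ i₀), aeval (q t) g = 0 := fun g hg =>
    (AnalyticAt.aeval_mvPolynomial p1 g).frequently_zero_iff_eventually_zero.1
      (h4.mono fun t ht => ht.1.2 g (hG ▸ Ideal.subset_span hg))
  have h6 : ∀ᶠ t in 𝓝 (Q₀ i₀), q t i₀ - t = 0 :=
    ((p1 i₀).sub analyticAt_id).frequently_zero_iff_eventually_zero.1
      (h4.mono fun t ht => sub_eq_zero.2 ht.2)
  have h7 : ∀ i, ∀ᶠ t in 𝓝 (Q₀ i₀), q t i ≠ 0 := fun i =>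
    (p1 i).continuousAt.eventually_ne (by rw [p2]; exact hQ.1 i)
  refine ⟨q, fun t i => Complex.log (q t i / Q₀ i) + Real.log ‖Q₀ i‖, ⟨p1, fun i => ?_, ?_⟩, h3⟩
  · refine (AnalyticAt.clog (p1 i).div_const ?_).add analyticAt_const
    simp [p2, hQ.1 i]
  · filter_upwards [(eventually_all_finset G).2 h5, h6, eventually_all.2 h7] with t a b c
    refine ⟨⟨c, fun g hg => ?_⟩, sub_eq_zero.1 b, fun i => ?_⟩
    · have : 𝔮 ≤ RingHom.ker (aeval (q t) : MvPolynomial B K →ₐ[K] ℂ) :=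
        hG ▸ Ideal.span_le.2 fun g hg => a g hg
      exact this hg
    · rw [Complex.add_re, Complex.log_re, Complex.ofReal_re, norm_div,
        Real.log_div (norm_ne_zero_iff.2 (c i)) (norm_ne_zero_iff.2 (hQ.1 i)), Lg]
      ring

noncomputable def Gs (u : B → ℝ) (l : ℂ → B → ℂ) (t : ℂ) : ℂ := ∑ i, u i * l t i

section
variable {C : Set (B → ℂ)} {i₀ : B} {q l : ℂ → B → ℂ} {t₀ : ℂ}

theorem Dat.aG (h : Dat C i₀ q l t₀) (u : B → ℝ) : AnalyticAt ℂ (Gs u l) t₀ :=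
  Finset.analyticAt_fun_sum _ fun i _ => analyticAt_const.mul (h.al i)

theorem Dat.re (h : Dat C i₀ q l t₀) (u : B → ℝ) : (Gs u l t₀).re = u ⬝ᵥ Lg (q t₀) := by
  simp [Gs, dotProduct, h.ev.self_of_nhds.2.2]

theorem freq_re {g : ℂ → ℂ} (hg : AnalyticAt ℂ g t₀) (h0 : (g t₀).re = 0) :
    ∃ᶠ t in 𝓝[≠] t₀, (g t).re = 0 := by
  rcases hg.eventually_constant_or_nhds_le_map_nhds with h | h
  · exact ((h.filter_mono nhdsWithin_le_nhds).mono fun t ht => by rw [ht, h0]).frequently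
  · intro hc
    rw [eventually_nhdsWithin_iff] at hc
    have h1 : ∀ᶠ w in 𝓝 (g t₀), w.re = 0 → w = g t₀ := by
      refine mem_of_superset (h (image_mem_map hc)) ?_
      rintro _ ⟨t, ht, rfl⟩ h2
      by_contra h3
      exact ht (fun e => h3 (congrArg g e)) h2
    have h2 : Tendsto (fun y : ℝ => g t₀ + y * Complex.I) (𝓝[≠] 0) (𝓝 (g t₀)) :=
      (Continuous.tendsto' (by fun_prop) _ _ (by simp)).mono_left nhdsWithin_le_nhds
    obtain ⟨y, h3, h4⟩ := ((h2.eventually h1).and self_mem_nhdsWithin).exists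
    exact h4 (by simpa using h3 (by simp [h0]))

theorem exists_indep (h3 : 3 ≤ Fintype.card B) {u : B → ℝ} (hu : u ≠ 0) (y : B → ℝ) :
    ∃ w, LinearIndependent ℝ ![u, w] ∧ w ⬝ᵥ y = 0 := by
  obtain ⟨j, hj⟩ := Function.ne_iff.1 hu
  let φ : (B → ℝ) →ₗ[ℝ] ℝ × ℝ := (dotProductBilin ℝ ℝ y).prod (LinearMap.proj j)
  obtain ⟨w, w1, w2⟩ := (Submodule.ne_bot_iff _).1
    (φ.ker_ne_bot_of_finrank_lt (by simp; omega))
  have w3 := congrArg Prod.fst w1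
  have w4 : w j = 0 := congrArg Prod.snd w1
  refine ⟨w, LinearIndependent.pair_iff.2 fun s t h => ?_, (dotProduct_comm _ _).trans w3⟩
  have h1 : s = 0 := by simpa [w4, show u j ≠ 0 from hj] using congrFun h j
  exact ⟨h1, by simpa [h1, w2] using h⟩

theorem Dat.deriv_ne (h : Dat C i₀ q l t₀) (h3 : 3 ≤ Fintype.card B)
    (hb : ∀ u w : B → ℝ, LinearIndependent ℝ ![u, w] →
      {Q ∈ C | u ⬝ᵥ Lg Q = 0 ∧ w ⬝ᵥ Lg Q = 0}.Finite) {u : B → ℝ} (hu : u ≠ 0)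
    (h0 : u ⬝ᵥ Lg (q t₀) = 0) : ∀ᶠ t in 𝓝[≠] t₀, deriv (Gs u l) t ≠ 0 := by
  refine (h.aG u).deriv.eventually_eq_zero_or_eventually_ne_zero.resolve_left fun h1 => ?_
  have h2 : ∀ᶠ t in 𝓝 t₀, Gs u l t = Gs u l t₀ := by
    obtain ⟨ε, e0, he⟩ := Metric.eventually_nhds_iff_ball.1 (h1.and h.near)
    filter_upwards [ball_mem_nhds t₀ e0] with t ht
    exact isOpen_ball.is_const_of_deriv_eq_zero (convex_ball t₀ ε).isPreconnected
      (fun x hx => ((he x hx).2.aG u).differentiableAt.differentiableWithinAt)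
      (fun x hx => (he x hx).1) ht (mem_ball_self e0)
  obtain ⟨w, w1, w2⟩ := exists_indep h3 hu (Lg (q t₀))
  have h4 : ∀ᶠ t in 𝓝[≠] t₀, t ∉ (· i₀) '' {Q ∈ C | u ⬝ᵥ Lg Q = 0 ∧ w ⬝ᵥ Lg Q = 0} :=
    nhdsNE_le_cofinite t₀ ((hb u w w1).image _).compl_mem_cofinite
  obtain ⟨t, h5, h6, h7, h8⟩ := ((freq_re (h.aG w) ((h.re w).trans w2)).and_eventually
    (h4.and ((h2.and h.near).filter_mono nhdsWithin_le_nhds))).exists
  exact h6 ⟨q t, ⟨h8.ev.self_of_nhds.1, by rw [← h8.re, h7, h.re, h0], (h8.re w).symm.trans h5⟩,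
    h8.ev.self_of_nhds.2.1⟩

theorem Dat.arc (h : Dat C i₀ q l t₀) {u : B → ℝ} (h0 : (Gs u l t₀).re = 0)
    (hd : deriv (Gs u l) t₀ ≠ 0) : ∃ τ : ℂ → ℂ, (∀ σ ∈ ball (0 : ℂ) 3, AnalyticAt ℂ τ σ ∧
      Dat C i₀ q l (τ σ)) ∧ (∀ σ : ℝ, |σ| ≤ 1 → (Gs u l (τ σ)).re = 0) ∧
      Set.InjOn (fun σ : ℝ => τ σ) (Set.Icc (-1) 1) ∧
      ∀ᶠ t in 𝓝 t₀, (Gs u l t).re = 0 → ∃ σ : ℝ, |σ| ≤ 1 ∧ τ σ = t := by
  set g := Gs u l
  have hg := h.aG u
  set v := hg.hasStrictDerivAt.localInverse _ _ _ hd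
  have v1 : AnalyticAt ℂ v (g t₀) := hg.analyticAt_localInverse hd
  have v2 : ∀ᶠ t in 𝓝 t₀, v (g t) = t := hg.hasStrictDerivAt.eventually_left_inverse hd
  have v3 : ∀ᶠ y in 𝓝 (g t₀), g (v y) = y := hg.hasStrictDerivAt.eventually_right_inverse hd
  have v4 : ∀ᶠ y in 𝓝 (g t₀), Dat C i₀ q l (v y) :=
    v1.continuousAt.eventually (v2.self_of_nhds.symm ▸ h.near)
  obtain ⟨ε, e0, he⟩ := Metric.eventually_nhds_iff_ball.1 (v1.eventually_analyticAt.and (v3.and v4))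
  have hm : ∀ σ ∈ ball (0 : ℂ) 3, g t₀ + Complex.I * (ε / 3 : ℝ) * σ ∈ ball (g t₀) ε :=
    fun σ hσ => by
      rw [mem_ball_zero_iff] at hσ
      rw [mem_ball, dist_eq_norm, add_sub_cancel_left, norm_mul, norm_mul, Complex.norm_I, one_mul,
        Complex.norm_real, Real.norm_of_nonneg (by positivity)]
      nlinarith
  have hr : ∀ σ : ℝ, |σ| ≤ 1 → (σ : ℂ) ∈ ball (0 : ℂ) 3 := fun σ hσ => by
    rw [mem_ball_zero_iff, Complex.norm_real, Real.norm_eq_abs]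
    linarith
  refine ⟨fun σ => v (g t₀ + Complex.I * (ε / 3 : ℝ) * σ), fun σ hσ =>
    ⟨(he _ (hm σ hσ)).1.comp (f := fun σ => g t₀ + Complex.I * (ε / 3 : ℝ) * σ) (by fun_prop),
      (he _ (hm σ hσ)).2.2⟩, fun σ hσ => ?_, fun a ha b hb hab => ?_, ?_⟩
  · rw [(he _ (hm σ (hr σ hσ))).2.1]
    simp [h0]
  · have := congrArg g hab
    rw [(he _ (hm a (hr a (abs_le.2 ha)))).2.1, (he _ (hm b (hr b (abs_le.2 hb)))).2.1] at this
    simpa [e0.ne'] using this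
  · filter_upwards [v2, hg.continuousAt.eventually (ball_mem_nhds _ (by positivity : 0 < ε / 3))]
      with t h1 h2 h3
    refine ⟨(g t - g t₀).im / (ε / 3), ?_, ?_⟩
    · rw [abs_div, abs_of_pos (by positivity : 0 < ε / 3), div_le_one (by positivity)]
      exact (Complex.abs_im_le_norm _).trans (mem_ball_iff_norm.1 h2).le
    · refine Eq.trans (congrArg v ?_) h1
      have : (ε : ℂ) ≠ 0 := by exact_mod_cast e0.ne'
      have h4 : Complex.I * (ε / 3 : ℝ) * ((g t - g t₀).im / (ε / 3) : ℝ) =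
          (g t - g t₀).im * Complex.I := by
        push_cast
        field_simp
      rw [h4]
      apply Complex.ext <;> simp [h0, h3]

end

end Pool.Agent.ZPT
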