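import Pool.Agent.P.MP_4fdccb_ag.AlgB

/-! From algebraic points to complex points. -/

set_option linter.unusedSectionVars false
set_option linter.unusedVariables false

namespace Pool.Agent.ZPT
open Finset MvPolynomial Module IntermediateField Matrix

variable {K : Type} [Field K] [NumberField K] [Algebra K ℂ] {B : Type} [Fintype B] [DecidableEq B]

theorem null {ι κ : Type} [Fintype ι] {𝔓 : Ideal (MvPolynomial ι K)} [hp : 𝔓.IsPrime]
    (hZ : (Tor 𝔓).Nonempty) {G : MvPolynomial ι K} (hG : G ∉ 𝔓)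
    (h : ∀ (L : Type) [Field L] [NumberField L] [Algebra K L] (z : ι → L), OnL 𝔓 z →
      ∀ a : κ → ι → ℤ, LinearIndependent ℤ a → (∀ k, ∏ i, z i ^ a k i = 1) → aeval z G = 0) :
    (∃ z ∈ Tor 𝔓, aeval z G ≠ 0) ∧ ∀ z ∈ Tor 𝔓, ∀ a : κ → ι → ℤ, LinearIndependent ℤ a →
      (∀ k, ∏ i, z i ^ a k i = 1) → aeval z G = 0 := by
  have e : ∀ {L : Type} [Field L] [Algebra K L] (z : ι → L),
      aeval z (G * ∏ i, X i) = 0 ↔ aeval z G = 0 ∨ ∃ i, z i = 0 := fun z => by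
    simp [prod_eq_zero_iff]
  refine ⟨?_, fun z hz a ha h1 => ?_⟩
  · by_contra! h0
    obtain ⟨w, hw⟩ := hZ
    have : G * ∏ i, X i ∈ vanishingIdeal K (zeroLocus ℂ 𝔓) := fun z hz =>
      (e z).2 (or_iff_not_imp_right.2 fun h1 => h0 z ⟨not_exists.1 h1, hz⟩)
    rw [IsPrime.vanishingIdeal_zeroLocus] at this
    have h1 := hw.2 _ ((hp.mem_or_mem this).resolve_left hG)
    rw [map_prod, prod_eq_zero_iff] at h1
    obtain ⟨i, -, hi⟩ := h1
    exact hw.1 i (by simpa using hi)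
  choose g N hg using fun k => lau (a k) (X none - 1 : MvPolynomial (Option ι) K)
  simp only [map_sub, aeval_X, map_one, Option.elim_none] at hg
  have h2 : G * ∏ i, X i ∈
      vanishingIdeal K (zeroLocus (AlgebraicClosure K) (𝔓 ⊔ Ideal.span (Set.range g))) :=
    fun x hx => (e x).2 (or_iff_not_imp_right.2 fun h1 => by
      obtain ⟨y, y1, -⟩ := restr (F := K) x
      have := finiteDimensional_adjoin (K := K) (S := Set.range x)
        fun t _ => (Algebra.IsAlgebraic.isAlgebraic t).isIntegral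
      have := NumberField.of_module_finite K (adjoin K (Set.range x))
      have y2 : ∀ f : MvPolynomial ι K, aeval y f = 0 ↔ aeval x f = 0 := fun f => by
        rw [← aeval_up (Ω := AlgebraicClosure K), y1]
      have y3 : ∀ i, y i ≠ 0 := fun i hi => h1 ⟨i, by simpa using (y2 (X i)).1 (by simpa using hi)⟩
      refine (y2 G).1 (h _ y ⟨y3, fun f hf => (y2 f).2 (hx f (Ideal.mem_sup_left hf))⟩ a ha
        fun k => ?_)
      have h3 := (y2 _).2 (hx (g k) (Ideal.mem_sup_right (Ideal.subset_span ⟨k, rfl⟩)))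
      rw [hg k _ y y3, mul_eq_zero, sub_eq_zero] at h3
      exact h3.resolve_left (pow_ne_zero _ (prod_ne_zero_iff.2 fun i _ => y3 i)))
  rw [vanishingIdeal_zeroLocus_eq_radical] at h2
  have h3 : 𝔓 ⊔ Ideal.span (Set.range g) ≤ RingHom.ker (aeval z : _ →ₐ[K] ℂ) :=
    sup_le hz.2 (Ideal.span_le.2 (Set.range_subset_iff.2 fun k => by
      change aeval z (g k) = 0
      rw [hg k ℂ z hz.1, h1, sub_self, mul_zero]))
  exact ((e z).1 (radical_le_vanishingIdeal_zeroLocus _ h2 z h3)).resolve_right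
    (not_exists.2 hz.1)

theorem main {m : ℕ} {𝔓 : Ideal (MvPolynomial (Fin m ⊕ B) K)} [hp : 𝔓.IsPrime]
    (hZ : (Tor 𝔓).Nonempty) (hdim : Algebra.trdeg K (MvPolynomial (Fin m ⊕ B) K ⧸ 𝔓) = m)
    (hcur : Algebra.trdeg K (MvPolynomial B K ⧸ base 𝔓) = 1) (h3 : 3 ≤ Fintype.card B)
    (ha : ∀ a : B → ℤ, a ≠ 0 → ((fun Q : B → ℂ => ∏ i, Q i ^ a i) '' Tor (base 𝔓)).Infinite)
    (hb : ∀ u w : B → ℝ, LinearIndependent ℝ ![u, w] →
      {Q ∈ Tor (base 𝔓) | u ⬝ᵥ Lg Q = 0 ∧ w ⬝ᵥ Lg Q = 0}.Finite)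
    (hc : ∀ u ≠ 0, ∀ β, (Xc 𝔓 u β).Finite)
    (hd : {ξ : Fin m ⊕ B → ℂ | (∀ i, ξ i ≠ 0) ∧ ∀ z ∈ Tor 𝔓, ξ * z ∈ Tor 𝔓}.Finite) :
    ∃ G : MvPolynomial (Fin m ⊕ B) K, (∃ z ∈ Tor 𝔓, aeval z G ≠ 0) ∧ ∀ z ∈ Tor 𝔓,
      ∀ a : Fin (m + 1) → Fin m ⊕ B → ℤ, LinearIndependent ℤ a →
        (∀ k, ∏ i, z i ^ a k i = 1) → aeval z G = 0 := by
  obtain ⟨Ω, _, _, z, z1, z2⟩ := gen_pt 𝔓
  let E := adjoin K (Set.range (z ∘ Sum.inr))
  obtain ⟨q, q1, q2⟩ : ∃ q : B → E, algebraMap E Ω ∘ q = z ∘ Sum.inr ∧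
    adjoin K (Set.range q) = ⊤ := restr (z ∘ Sum.inr)
  have z3 : Sum.elim (z ∘ Sum.inl) (algebraMap E Ω ∘ q) = z := by
    rw [q1, Sum.elim_comp_inl_inr]
  have q3 : ∀ g, aeval q g = 0 ↔ g ∈ base 𝔓 := fun g => by
    rw [← aeval_up (Ω := Ω), q1, ← aeval_rename, z1, Ideal.mem_comap]
  have t1 : Algebra.trdeg K E = 1 := (tr_eq q3 q2).trans hcur
  have t2 := trdeg_add_eq K E (A := Ω)
  rw [t1, tr_eq z1 z2, hdim] at t2
  have nz : ∀ i, z i ≠ 0 := fun i hi => by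
    obtain ⟨w, hw⟩ := hZ
    exact hw.1 i (by simpa using hw.2 (X i) ((z1 _).1 (by simpa using hi)))
  rcases m with _ | r
  · simp at t2
  have t3 : Algebra.trdeg E Ω = r := by
    rw [Nat.cast_succ, add_comm] at t2
    exact Cardinal.add_one_inj.1 t2
  have hq : Gen (base 𝔓) q := ⟨q3, q2, t1.le, fun i hi => nz (Sum.inr i) (by
    simpa [hi] using (congrFun q1 i).symm), ha⟩
  obtain ⟨i₀⟩ : Nonempty B := Fintype.card_pos_iff.1 (by omega)
  obtain ⟨s, c, T, h1, h2, h4⟩ := setup (p := z ∘ Sum.inl) hq (by rwa [z3]) t3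
    (restrictScalars_injective K (by
      rw [adjoin_adjoin_left, restrictScalars_top, ← z2, Set.union_comm, ← Set.Sum.elim_range,
        Sum.elim_comp_inl_inr])) (fun j => nz _) i₀ hd
  obtain ⟨G, g1, g2⟩ := core h1 hq.phi h2 h4 h3 hb hc
  exact ⟨G, null hZ g1 g2⟩

end Pool.Agent.ZPT
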