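import Pool.Agent.P.MP_4fdccb_ag.Ht

/-! Negligible sets: algebraic points of bounded height cannot have many conjugates near them. -/

set_option linter.unusedSectionVars false
set_option linter.unusedVariables false

namespace Pool.Agent.ZPT
open Height NumberField Finset Real Module MvPolynomial Topology Filter

variable {K : Type} [Field K] [NumberField K] [Algebra K ℂ] {ι : Type} [Fintype ι]

/-- `F` vanishes at the points of height at most `h` with a proportion `ρ` of conjugates in `U` -/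
def Kills (F : MvPolynomial ι K) (ρ h : ℝ) (U : Set (ι → ℂ)) : Prop :=
  ∀ (L : Type) [Field L] [NumberField L] [Algebra K L] (x : ι → L) (S : Finset (L →ₐ[K] ℂ)),
    (∀ i, logHeight₁ (x i) ≤ h * finrank ℚ L) → ρ * finrank ℚ L ≤ #S →
    (∀ σ ∈ S, (fun i => σ (x i)) ∈ U) → aeval x F = 0

def Neg (𝔓 : Ideal (MvPolynomial ι K)) (E : Set (ι → ℂ)) : Prop :=
  ∀ ρ > 0, ∀ h : ℝ, ∃ U, IsOpen U ∧ E ⊆ U ∧ ∃ F ∉ 𝔓, Kills F ρ h U

variable {𝔓 : Ideal (MvPolynomial ι K)} {E E' : Set (ι → ℂ)}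

theorem Neg.mono (h : Neg 𝔓 E) (h' : E' ⊆ E) : Neg 𝔓 E' := fun ρ hρ a =>
  let ⟨U, h1, h2, h3⟩ := h ρ hρ a
  ⟨U, h1, h'.trans h2, h3⟩

theorem rank_pos (L : Type) [Field L] [NumberField L] : (0 : ℝ) < finrank ℚ L := by
  exact_mod_cast finrank_pos

theorem neg_empty [hp : 𝔓.IsPrime] : Neg 𝔓 ∅ := fun ρ hρ a =>
  ⟨∅, isOpen_empty, le_rfl, 1, (Ideal.ne_top_iff_one _).1 hp.ne_top, fun L _ _ _ x S _ h2 h3 => by
    have h4 : (0 : ℝ) < #S := (mul_pos hρ (rank_pos L)).trans_le h2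
    obtain ⟨σ, hσ⟩ := card_pos.1 (by exact_mod_cast h4)
    exact (h3 σ hσ).elim⟩

theorem Kills.union {F G : MvPolynomial ι K} {ρ h : ℝ} {U V : Set (ι → ℂ)}
    (h1 : Kills F (ρ / 2) h U) (h2 : Kills G (ρ / 2) h V) : Kills (F * G) ρ h (U ∪ V) := by
  classical
  intro L _ _ _ x S a1 a2 a3
  rw [map_mul, mul_eq_zero]
  have h4 := card_filter_add_card_filter_not (s := S) fun σ => (fun i => σ (x i)) ∈ U
  have h5 : ((#(S.filter fun σ => (fun i => σ (x i)) ∈ U) : ℕ) : ℝ) +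
      #(S.filter fun σ => ¬ (fun i => σ (x i)) ∈ U) = #S := by exact_mod_cast h4
  by_cases h6 : ρ / 2 * finrank ℚ L ≤ #(S.filter fun σ => (fun i => σ (x i)) ∈ U)
  · exact Or.inl (h1 L x _ a1 h6 fun σ hσ => (mem_filter.1 hσ).2)
  · exact Or.inr (h2 L x (S.filter fun σ => ¬ (fun i => σ (x i)) ∈ U) a1 (by linarith)
      fun σ hσ => (a3 σ (mem_filter.1 hσ).1).resolve_left (mem_filter.1 hσ).2)

theorem Neg.puncture [hp : 𝔓.IsPrime] (h : Neg 𝔓 E')
    (h' : ∀ U, IsOpen U → E' ⊆ U → Neg 𝔓 (E \ U)) : Neg 𝔓 E := fun ρ hρ a => by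
  obtain ⟨U, u1, u2, F, u3, u4⟩ := h (ρ / 2) (half_pos hρ) a
  obtain ⟨V, v1, v2, G, v3, v4⟩ := h' U u1 u2 (ρ / 2) (half_pos hρ) a
  refine ⟨U ∪ V, u1.union v1, fun z hz => ?_, F * G, fun h => (hp.mem_or_mem h).elim u3 v3,
    u4.union v4⟩
  by_cases hU : z ∈ U
  · exact Or.inl hU
  · exact Or.inr (v2 ⟨hz, hU⟩)

theorem Neg.union [𝔓.IsPrime] (h : Neg 𝔓 E) (h' : Neg 𝔓 E') : Neg 𝔓 (E ∪ E') :=
  h.puncture fun _ _ hU => h'.mono fun _ hz => hz.1.resolve_left fun h => hz.2 (hU h)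

theorem neg_biUnion [𝔓.IsPrime] {β : Type} {s : Set β} (hs : s.Finite) {E : β → Set (ι → ℂ)}
    (h : ∀ b ∈ s, Neg 𝔓 (E b)) : Neg 𝔓 (⋃ b ∈ s, E b) := by
  induction s, hs using Set.Finite.induction_on with
  | empty => simpa using neg_empty
  | insert _ _ ih =>
    rw [Set.biUnion_insert]
    exact (h _ (Set.mem_insert _ _)).union (ih fun b hb => h b (Set.mem_insert_of_mem _ hb))

theorem neg_compact [𝔓.IsPrime] (hE : IsCompact E) (h : ∀ z ∈ E, ∃ N ∈ 𝓝 z, Neg 𝔓 (E ∩ N)) :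
    Neg 𝔓 E :=
  hE.induction_on neg_empty (fun _ _ h1 h2 => h2.mono h1) (fun _ _ h1 h2 => h1.union h2)
    fun z hz => let ⟨N, h1, h2⟩ := h z hz; ⟨E ∩ N, inter_mem_nhdsWithin _ h1, h2⟩

theorem neg_pl [𝔓.IsPrime] (hE : IsCompact E) (h' : Neg 𝔓 E')
    (h : ∀ z ∈ E, z ∉ E' → ∃ N ∈ 𝓝 z, Neg 𝔓 (E ∩ N)) : Neg 𝔓 E :=
  h'.puncture fun U u1 u2 => neg_compact (hE.diff u1) fun z hz =>
    let ⟨N, h1, h2⟩ := h z hz.1 fun h => hz.2 (u2 h)
    ⟨N, h1, h2.mono fun _ hw => ⟨hw.1.1, hw.2⟩⟩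

theorem Neg.pull {κ : Type} [Fintype κ] {𝔔 : Ideal (MvPolynomial κ K)} {E : Set (κ → ℂ)}
    (h : Neg 𝔔 E) (w : κ → ι) (hw : ∀ F, rename w F ∈ 𝔓 → F ∈ 𝔔) :
    Neg 𝔓 {z | z ∘ w ∈ E} := fun ρ hρ a => by
  obtain ⟨U, u1, u2, F, u3, u4⟩ := h ρ hρ a
  refine ⟨{z | z ∘ w ∈ U}, u1.preimage (continuous_pi fun i => continuous_apply (w i)),
    fun z hz => u2 hz, rename w F, fun h => u3 (hw F h), fun L _ _ _ x S a1 a2 a3 => ?_⟩
  rw [aeval_rename]
  exact u4 L (x ∘ w) S (fun i => a1 (w i)) a2 a3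

/-! ### Auxiliary polynomials -/

variable [DecidableEq ι]

def Small (E : Set (ι → ℂ)) : Prop := ∃ κ : ℝ, 0 ≤ κ ∧ ∀ Λ : ℝ, ∃ D : ℕ, 1 ≤ D ∧
  ∃ t : (ι → Fin (D + 1)) → ℤ, t ≠ 0 ∧ ∑ a, |(t a : ℝ)| ≤ exp (κ * D) ∧
    ∀ x ∈ E, ‖∑ a, (t a : ℂ) * ∏ i, x i ^ (a i : ℕ)‖ < exp (-(Λ * D))

theorem Small.neg (h : Small E) : Neg (⊥ : Ideal (MvPolynomial ι K)) E := fun ρ hρ a => by
  obtain ⟨κ, hκ, h⟩ := h
  obtain ⟨D, hD, t, t0, t1, t2⟩ := h ((κ + Fintype.card ι * |a| + 1) / ρ)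
  set Λ := (κ + Fintype.card ι * |a| + 1) / ρ with hΛ
  let ex : (ι → Fin (D + 1)) → ι →₀ ℕ := fun a => Finsupp.equivFunOnFinite.symm fun i => a i
  have hex : Function.Injective ex := fun a b h => funext fun i =>
    Fin.ext (congrFun (Finsupp.equivFunOnFinite.symm.injective h) i)
  refine ⟨{x | ‖∑ a, (t a : ℂ) * ∏ i, x i ^ (a i : ℕ)‖ < exp (-(Λ * D))},
    isOpen_lt (by fun_prop) continuous_const, t2, ∑ a, monomial (ex a) (t a : K), fun h => ?_,
    fun L _ _ _ x S a1 a2 a3 => ?_⟩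
  · obtain ⟨b, hb⟩ := Function.ne_iff.1 t0
    have h1 := congrArg (coeff (ex b)) (Ideal.mem_bot.1 h)
    simp only [coeff_sum, coeff_monomial, hex.eq_iff, sum_ite_eq', mem_univ, if_true,
      coeff_zero, Int.cast_eq_zero] at h1
    exact hb h1
  · have e : aeval x (∑ a, monomial (ex a) (t a : K)) = ∑ a, (t a : L) * ∏ i, x i ^ (a i : ℕ) := by
      simp [aeval_monomial, ex, Finsupp.prod_fintype]
    rw [e]
    by_contra h0
    have hD' : (1 : ℝ) ≤ D := by exact_mod_cast hD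
    have n0 := rank_pos L
    have h1 := liou univ t (fun a i => a i) D (fun a _ i => Nat.lt_succ_iff.1 (a i).2) x
      (one_le_exp (by positivity)) t1
    have h2 := emb_neg S (∑ a, (t a : L) * ∏ i, x i ^ (a i : ℕ))
    have h3 : #S • (Λ * D) ≤ ∑ σ ∈ S, -log ‖σ (∑ a, (t a : L) * ∏ i, x i ^ (a i : ℕ))‖ :=
      card_nsmul_le_sum _ _ _ fun σ hσ => by
        rw [le_neg, log_le_iff_le_exp (norm_pos_iff.2 ((map_ne_zero σ).2 h0))]
        simpa using (a3 σ hσ).le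
    have h4 : ∑ i, logHeight₁ (x i) ≤ Fintype.card ι * (|a| * finrank ℚ L) := by
      rw [← nsmul_eq_mul, ← card_univ]
      exact sum_le_card_nsmul _ _ _ fun i _ => (a1 i).trans (by gcongr; exact le_abs_self a)
    have h5 : ρ * finrank ℚ L * (Λ * D) ≤ #S * (Λ * D) := by gcongr
    have h6 : ρ * finrank ℚ L * (Λ * D) = (κ + Fintype.card ι * |a| + 1) * D * finrank ℚ L := by
      rw [hΛ]; field_simp
    rw [log_exp] at h1
    rw [nsmul_eq_mul] at h3
    have h7 := mul_le_mul_of_nonneg_left h4 (by positivity : (0 : ℝ) ≤ D)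
    have h8 : 0 < (D : ℝ) * finrank ℚ L := by positivity
    nlinarith

def Approx (E : Set (ι → ℂ)) : Prop := ∃ c : ℝ, 1 ≤ c ∧ ∀ θ > (0 : ℝ), ∀ X : ℝ, ∃ D : ℕ, 1 ≤ D ∧
  ∃ (J : Type) (_ : Fintype J), 0 < Fintype.card J ∧
    Fintype.card J ≤ θ * (D + 1) ^ Fintype.card ι ∧ ∃ w : (ι → Fin (D + 1)) → J → ℂ,
    (∀ a j, ‖w a j‖ ≤ c ^ D) ∧ ∀ x ∈ E, ∃ ω : J → ℂ, (∀ j, ‖ω j‖ ≤ c ^ D) ∧
      ∀ a, ‖∏ i, x i ^ (a i : ℕ) - ∑ j, ω j * w a j‖ ≤ exp (-(X * D))

theorem round_sum {A : Type} [Fintype A] (t : A → ℤ) (y : A → ℝ) {u : ℝ} (hu : 0 < u)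
    (h : ∑ a, round (y a * u) * t a = 0) : |∑ a, t a * y a| ≤ (∑ a, |(t a : ℝ)|) / 2 / u := by
  have h1 : ∑ a, (round (y a * u) : ℝ) * t a = 0 := by exact_mod_cast h
  have h2 : (∑ a, t a * y a) * u = ∑ a, t a * (y a * u - round (y a * u)) := by
    simp only [mul_sub, sum_sub_distrib, sum_mul, mul_comm (t _ : ℝ) (round _ : ℝ), h1, mul_assoc,
      sub_zero]
  rw [le_div_iff₀ hu, ← abs_of_pos hu, ← abs_mul, h2, sum_div]
  refine (abs_sum_le_sum_abs _ _).trans (sum_le_sum fun a _ => ?_)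
  rw [abs_mul, div_eq_mul_one_div]
  exact mul_le_mul_of_nonneg_left (abs_sub_round _) (abs_nonneg _)

open scoped Matrix.Norms.Elementwise in
theorem siegel {A J : Type} [Fintype A] [Fintype J] (w : A → J → ℂ) {B u θ : ℝ} (hu : 0 < u)
    (hB : 0 ≤ B) (hw : ∀ a j, ‖w a j‖ ≤ B) (h0 : 0 < Fintype.card J) (hθ : θ ≤ 1)
    (hJ : Fintype.card J ≤ θ / 4 * Fintype.card A) : ∃ t : A → ℤ, t ≠ 0 ∧
      (∀ a, |(t a : ℝ)| ≤ (Fintype.card A * (B * u + 1)) ^ θ) ∧
      ∀ j, ‖∑ a, (t a : ℂ) * w a j‖ ≤ (∑ a, |(t a : ℝ)|) / u := by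
  let M : Matrix (J ⊕ J) A ℤ := fun j a =>
    j.elim (fun j => round ((w a j).re * u)) fun j => round ((w a j).im * u)
  have h1 : (0 : ℝ) < Fintype.card J := by exact_mod_cast h0
  have h2 : (0 : ℝ) ≤ Fintype.card A := by positivity
  have h3 : (4 : ℝ) * Fintype.card J ≤ Fintype.card A := by nlinarith
  have h4 : 4 * Fintype.card J ≤ Fintype.card A := by exact_mod_cast h3
  obtain ⟨t, t0, t1, t2⟩ := Int.Matrix.exists_ne_zero_int_vec_norm_le M
    (by rw [Fintype.card_sum]; omega) (by rw [Fintype.card_sum]; omega)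
  have hr : ∀ y : ℝ, |y| ≤ B → ‖round (y * u)‖ ≤ B * u + 1 := fun y hy => by
    have := abs_sub_round (y * u)
    have h5 : |y * u| ≤ B * u := by rw [abs_mul, abs_of_pos hu]; gcongr
    rw [Int.norm_eq_abs, abs_le] at *
    constructor <;> linarith [this.1, this.2, h5.1, h5.2]
  have hM : max 1 ‖M‖ ≤ B * u + 1 := max_le (by simp; positivity)
    ((Matrix.norm_le_iff (by positivity)).2 fun j a => by
      rcases j with j | j
      · exact hr _ ((Complex.abs_re_le_norm _).trans (hw a j))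
      · exact hr _ ((Complex.abs_im_le_norm _).trans (hw a j)))
  refine ⟨t, t0, fun a => ?_, fun j => ?_⟩
  · refine (Int.norm_eq_abs (t a)).ge.trans ((norm_le_pi_norm t a).trans (t2.trans ?_))
    have h6 : 1 ≤ max 1 ‖M‖ := le_max_left _ _
    have h7 : (1 : ℝ) ≤ Fintype.card A := by exact_mod_cast (by omega : 1 ≤ Fintype.card A)
    refine (rpow_le_rpow_of_exponent_le (by nlinarith) ?_).trans
      (rpow_le_rpow (by positivity) (by gcongr) (by nlinarith))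
    rw [Fintype.card_sum, div_le_iff₀ (by push_cast; linarith)]
    push_cast
    nlinarith
  · have r1 := round_sum t (fun a => (w a j).re) hu (congrFun t1 (Sum.inl j))
    have r2 := round_sum t (fun a => (w a j).im) hu (congrFun t1 (Sum.inr j))
    refine (Complex.norm_le_abs_re_add_abs_im _).trans ?_
    simp only [Complex.re_sum, Complex.im_sum, Complex.mul_re, Complex.mul_im, Complex.intCast_re,
      Complex.intCast_im, zero_mul, sub_zero, add_zero]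
    refine (add_le_add r1 r2).trans (le_of_eq ?_)
    ring

theorem Approx.small (h : Approx E) : Small E := by
  obtain ⟨c, hc, h⟩ := h
  set r : ℝ := (Fintype.card ι : ℝ) with hr
  have r0 : 0 ≤ r := by positivity
  have g0 := log_nonneg hc
  refine ⟨r + 1, by positivity, fun Λ => ?_⟩
  set X := 2 * r + log c + 3 + |Λ| with hX
  have X0 : 0 ≤ X := by positivity
  set Y := r + log c + 1 + X with hY
  have Y1 : 1 ≤ Y := by linarith
  obtain ⟨D, hD, J, _, j0, j1, w, w1, w2⟩ := h (Y⁻¹ / 4) (by positivity) X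
  have hD' : (1 : ℝ) ≤ D := by exact_mod_cast hD
  have ec : c ^ D = exp (log c * D) := by
    rw [mul_comm, exp_nat_mul, exp_log (by linarith)]
  have eN : (Fintype.card (ι → Fin (D + 1)) : ℝ) = (D + 1) ^ Fintype.card ι := by simp
  have hN : (Fintype.card (ι → Fin (D + 1)) : ℝ) ≤ exp (r * D) := by
    rw [eN, hr, exp_nat_mul]
    exact pow_le_pow_left₀ (by positivity) (add_one_le_exp _) _
  have e2 : ∀ y : ℝ, 0 ≤ y → exp y + 1 ≤ exp (y + D) := fun y hy => by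
    have := one_le_exp hy
    have := add_one_le_exp (D : ℝ)
    rw [exp_add]
    nlinarith
  obtain ⟨t, t0, t1, t2⟩ := siegel w (exp_pos (X * D)) (by positivity) w1 j0
    (inv_le_one_of_one_le₀ Y1) (eN ▸ j1)
  have t3 : ∀ a, |(t a : ℝ)| ≤ exp D := fun a => (t1 a).trans (by
    refine (rpow_le_rpow (by positivity) (y := exp (Y * D)) ?_ (by positivity)).trans (le_of_eq ?_)
    · rw [ec, ← exp_add]
      refine (mul_le_mul hN (e2 _ (by positivity)) (by positivity) (by positivity)).trans ?_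
      rw [← exp_add]
      exact le_of_eq (congrArg _ (by rw [hY]; ring))
    · rw [← exp_mul]
      congr 1
      field_simp)
  have t4 : ∑ a, |(t a : ℝ)| ≤ exp ((r + 1) * D) := by
    refine (sum_le_card_nsmul _ _ _ fun a _ => t3 a).trans ?_
    rw [nsmul_eq_mul, card_univ, add_mul, exp_add, one_mul]
    gcongr
  refine ⟨D, hD, t, t0, t4, fun x hx => ?_⟩
  obtain ⟨ω, ω1, ω2⟩ := w2 x hx
  have e : ∑ a, (t a : ℂ) * ∏ i, x i ^ (a i : ℕ) =
      ∑ a, (t a : ℂ) * (∏ i, x i ^ (a i : ℕ) - ∑ j, ω j * w a j) +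
        ∑ j, ω j * ∑ a, (t a : ℂ) * w a j := by
    simp only [mul_sub, sum_sub_distrib, mul_sum, mul_left_comm (ω _)]
    rw [sum_comm (s := (univ : Finset J))]
    ring
  have b1 : ‖∑ a, (t a : ℂ) * (∏ i, x i ^ (a i : ℕ) - ∑ j, ω j * w a j)‖ ≤
      exp ((r + 1) * D) * exp (-(X * D)) := by
    refine (norm_sum_le _ _).trans (le_trans (sum_le_sum fun a _ => ?_)
      ((sum_mul _ (fun a => |(t a : ℝ)|) _).ge.trans (by gcongr)))
    rw [norm_mul, Complex.norm_intCast]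
    exact mul_le_mul_of_nonneg_left (ω2 a) (abs_nonneg _)
  have hJ : (Fintype.card J : ℝ) ≤ exp (r * D) := by
    refine j1.trans (le_trans ?_ hN)
    rw [eN]
    have := inv_le_one_of_one_le₀ Y1
    exact mul_le_of_le_one_left (by positivity) (by linarith)
  have b2 : ‖∑ j, ω j * ∑ a, (t a : ℂ) * w a j‖ ≤
      exp (r * D) * (exp (log c * D) * (exp ((r + 1) * D) * exp (-(X * D)))) := by
    refine (norm_sum_le _ _).trans ((sum_le_card_nsmul _ _
      (exp (log c * D) * (exp ((r + 1) * D) * exp (-(X * D)))) fun j _ => ?_).trans ?_)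
    · rw [norm_mul, ← ec, exp_neg, ← div_eq_mul_inv]
      exact mul_le_mul (ω1 j) ((t2 j).trans (by gcongr)) (norm_nonneg _) (by positivity)
    · rw [nsmul_eq_mul, card_univ]
      gcongr
  rw [e]
  calc _ ≤ (exp (r * D + log c * D) + 1) * (exp ((r + 1) * D) * exp (-(X * D))) := by
        refine (norm_add_le _ _).trans ((add_le_add b1 b2).trans (le_of_eq ?_))
        rw [exp_add]; ring
    _ ≤ exp (r * D + log c * D + D) * (exp ((r + 1) * D) * exp (-(X * D))) := by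
        gcongr
        exact e2 _ (by positivity)
    _ < _ := by
        rw [← exp_add, ← exp_add, exp_lt_exp, hX]
        have := le_abs_self Λ
        nlinarith

theorem neg_point (e : ℂ) : Neg (⊥ : Ideal (MvPolynomial Unit K)) {x | x () = e} := by
  refine Small.neg (Approx.small ⟨max ‖e‖ 1, le_max_right _ _, fun θ hθ X => ?_⟩)
  obtain ⟨D, hD⟩ := exists_nat_ge θ⁻¹
  refine ⟨D + 1, by omega, Unit, inferInstance, by simp, ?_, fun a _ => e ^ (a () : ℕ),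
    fun a _ => ?_, fun x hx => ⟨fun _ => 1, fun _ => ?_, fun a => ?_⟩⟩
  · rw [inv_le_iff_one_le_mul₀' hθ] at hD
    simp only [Fintype.card_unit, Nat.cast_one, pow_one]
    push_cast
    nlinarith
  · rw [norm_pow]
    exact (pow_le_pow_left₀ (norm_nonneg _) (le_max_left _ _) _).trans
      (pow_le_pow_right₀ (le_max_right _ _) (Nat.lt_succ_iff.1 (a ()).2))
  · rw [norm_one]
    exact one_le_pow₀ (le_max_right _ _)
  · simp [show x () = e from hx, (exp_pos _).le]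

/-- finitely many fibres of a transcendental coordinate -/
theorem neg_fin [𝔓.IsPrime] (i : ι) (hi : ∀ F, rename (fun _ : Unit => i) F ∈ 𝔓 → F = 0)
    {s : Set ℂ} (hs : s.Finite) : Neg 𝔓 {z | z i ∈ s} :=
  (neg_biUnion hs fun e _ => (neg_point e).pull (fun _ => i) hi).mono fun z hz =>
    Set.mem_biUnion hz rfl

end Pool.Agent.ZPT
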