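import Pool.Agent.P.MP_4fdccb_ag.Neg

/-! One-parameter analytic families of hypersurfaces are negligible. -/

set_option linter.unusedSectionVars false
set_option linter.unusedVariables false

namespace Pool.Agent.ZPT
open Finset Real MvPolynomial Topology Filter Metric

/-- functions holomorphic on the disc of radius `3` -/
def O3 : Subalgebra ℂ (ℂ → ℂ) where
  carrier := {f | DifferentiableOn ℂ f (ball 0 3)}
  mul_mem' := DifferentiableOn.mul
  add_mem' := DifferentiableOn.add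
  algebraMap_mem' := fun c => differentiableOn_const c

noncomputable def ev (σ : ℂ) : O3 →+* ℂ := (Pi.evalRingHom _ σ).comp O3.val.toRingHom

theorem ev_apply (σ : ℂ) (f : O3) : ev σ f = f.1 σ := rfl

theorem taylor (φ : O3) {B : ℝ} (hB : ∀ σ, ‖σ‖ ≤ 2 → ‖ev σ φ‖ ≤ B) : ∃ a : ℕ → ℂ,
    (∀ k, ‖a k‖ ≤ B) ∧ ∀ σ, ‖σ‖ ≤ 1 → ∀ M : ℕ,
      ‖ev σ φ - ∑ k ∈ range M, (σ / 2) ^ k * a k‖ ≤ 2 * B / 2 ^ M := by
  have hd : DifferentiableOn ℂ φ.1 (ball 0 3) := φ.2
  have h1 : ∀ k : ℕ, ‖(2 : ℂ) ^ k * (k.factorial : ℂ)⁻¹ * iteratedDeriv k φ.1 0‖ ≤ B := fun k => by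
    have := Complex.norm_iteratedDeriv_le_of_forall_mem_sphere_norm_le (f := φ.1) (c := 0) (C := B)
      k two_pos (hd.diffContOnCl_ball (closedBall_subset_ball (by norm_num)))
      fun z hz => hB z (by simpa using (mem_sphere_zero_iff_norm.1 hz).le)
    rw [norm_mul, norm_mul, norm_pow, norm_inv, Complex.norm_natCast, Complex.norm_ofNat]
    refine (mul_le_mul_of_nonneg_left this (by positivity)).trans (le_of_eq ?_)
    field_simp
  refine ⟨_, h1, fun σ hσ M => ?_⟩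
  have h2 := Complex.hasSum_taylorSeries_on_ball hd (z := σ)
    (mem_ball_zero_iff.2 (by linarith))
  have h3 : HasSum (fun k : ℕ => (σ / 2) ^ k * ((2 : ℂ) ^ k * (k.factorial : ℂ)⁻¹ *
      iteratedDeriv k φ.1 0)) (ev σ φ) := by
    refine (congrArg (HasSum · (ev σ φ)) (funext fun k => ?_)).mp h2
    simp only [sub_zero, smul_eq_mul, div_pow]
    field_simp
  refine ((hasSum_nat_add_iff' M).2 h3).norm_le_of_bounded
    (g := fun k => B / 2 ^ M * (1 / 2) ^ k) ?_ fun k => ?_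
  · have := hasSum_geometric_two.mul_left (B / 2 ^ M)
    rwa [show B / 2 ^ M * 2 = 2 * B / 2 ^ M by ring] at this
  · rw [norm_mul, norm_pow]
    have h4 : ‖σ / 2‖ ≤ 1 / 2 := by
      rw [norm_div, Complex.norm_ofNat]
      gcongr
    refine (mul_le_mul (pow_le_pow_left₀ (norm_nonneg _) h4 _) (h1 _) (norm_nonneg _)
      (by positivity)).trans (le_of_eq ?_)
    rw [pow_add, one_div_pow (n := M)]
    field_simp

variable {τ : Type} [Fintype τ] [DecidableEq τ]

/-- the length of a polynomial -/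
noncomputable def nm (p : MvPolynomial τ ℂ) : ℝ := ∑ ν ∈ p.support, ‖coeff ν p‖

theorem nm_nonneg (p : MvPolynomial τ ℂ) : 0 ≤ nm p := sum_nonneg fun _ _ => norm_nonneg _

theorem nm_eq {p : MvPolynomial τ ℂ} {s : Finset (τ →₀ ℕ)} (h : p.support ⊆ s) :
    nm p = ∑ ν ∈ s, ‖coeff ν p‖ :=
  sum_subset h fun ν _ h => by rw [notMem_support_iff.1 h, norm_zero]

theorem nm_add (p q : MvPolynomial τ ℂ) : nm (p + q) ≤ nm p + nm q := by
  rw [nm_eq support_add, nm_eq (p := p) subset_union_left, nm_eq (p := q) subset_union_right,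
    ← sum_add_distrib]
  exact sum_le_sum fun ν _ => by rw [coeff_add]; exact norm_add_le _ _

theorem nm_neg (p : MvPolynomial τ ℂ) : nm (-p) = nm p := by simp [nm]

theorem nm_sum {β : Type} (s : Finset β) (f : β → MvPolynomial τ ℂ) :
    nm (∑ b ∈ s, f b) ≤ ∑ b ∈ s, nm (f b) :=
  le_sum_of_subadditive nm (by simp [nm]) nm_add s f

theorem nm_monomial (ν : τ →₀ ℕ) (c : ℂ) : nm (monomial ν c) = ‖c‖ := by
  rw [nm_eq support_monomial_subset]
  simp

theorem nm_mul (p q : MvPolynomial τ ℂ) : nm (p * q) ≤ nm p * nm q := by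
  conv_lhs => rw [p.as_sum, q.as_sum, sum_mul_sum]
  conv_rhs => rw [nm, nm, sum_mul_sum]
  refine (nm_sum _ _).trans (sum_le_sum fun a _ => (nm_sum _ _).trans (sum_le_sum fun b _ => ?_))
  rw [monomial_mul, nm_monomial, norm_mul]

theorem coeff_le_nm (p : MvPolynomial τ ℂ) (ν : τ →₀ ℕ) : ‖coeff ν p‖ ≤ nm p := by
  rw [nm_eq (subset_insert ν _)]
  exact single_le_sum (f := fun ν => ‖coeff ν p‖) (fun _ _ => norm_nonneg _) (mem_insert_self _ _)

def Bd (e : ℕ) (B : ℝ) (p : MvPolynomial τ O3) : Prop :=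
  p.totalDegree ≤ e ∧ ∀ σ, ‖σ‖ ≤ 2 → nm (MvPolynomial.map (ev σ) p) ≤ B

section
variable {e e' : ℕ} {B B' : ℝ} {p q : MvPolynomial τ O3}

theorem Bd.mono (h : Bd e B p) (h1 : e ≤ e') (h2 : B ≤ B') : Bd e' B' p :=
  ⟨h.1.trans h1, fun σ hσ => (h.2 σ hσ).trans h2⟩

theorem Bd.nonneg (h : Bd e B p) : 0 ≤ B := (nm_nonneg _).trans (h.2 0 (by simp))

theorem Bd.mul (h : Bd e B p) (h' : Bd e' B' q) : Bd (e + e') (B * B') (p * q) :=
  ⟨(totalDegree_mul _ _).trans (add_le_add h.1 h'.1), fun σ hσ => by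
    rw [map_mul]
    exact (nm_mul _ _).trans (mul_le_mul (h.2 σ hσ) (h'.2 σ hσ) (nm_nonneg _) h.nonneg)⟩

theorem Bd.sub (h : Bd e B p) (h' : Bd e B' q) : Bd e (B + B') (p - q) :=
  ⟨(totalDegree_sub _ _).trans (max_le h.1 h'.1), fun σ hσ => by
    rw [map_sub, sub_eq_add_neg]
    exact (nm_add _ _).trans (add_le_add (h.2 σ hσ) ((nm_neg _).trans_le (h'.2 σ hσ)))⟩

theorem bd_one : Bd 0 1 (1 : MvPolynomial τ O3) :=
  ⟨by simp, fun σ _ => by rw [map_one, ← C_1, C_apply, nm_monomial, norm_one]⟩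

theorem bd_zero : Bd 0 0 (0 : MvPolynomial τ O3) := ⟨by simp, fun σ _ => by simp [nm]⟩

theorem bd_X (i : τ) : Bd 1 1 (X i : MvPolynomial τ O3) :=
  ⟨by simp, fun σ _ => by rw [map_X, X, nm_monomial, norm_one]⟩

theorem Bd.pow (h : Bd e B p) (k : ℕ) : Bd (k * e) (B ^ k) (p ^ k) := by
  induction k with
  | zero => simpa using bd_one
  | succ k ih => rw [pow_succ, pow_succ, add_mul, one_mul]; exact ih.mul h

theorem bd_prod {β : Type} (s : Finset β) (a : β → ℕ) (f : β → MvPolynomial τ O3)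
    (h : ∀ b, Bd (a b) 1 (f b)) : Bd (∑ b ∈ s, a b) 1 (∏ b ∈ s, f b) := by
  classical
  induction s using Finset.induction_on with
  | empty => simpa using bd_one
  | insert b s hb ih => rw [sum_insert hb, prod_insert hb]; simpa using (h b).mul ih

theorem ev_cont (f : O3) : ContinuousOn (fun σ => ev σ f) (closedBall 0 2) :=
  (DifferentiableOn.continuousOn f.2).mono (closedBall_subset_ball (by norm_num))

theorem exists_bd (p : MvPolynomial τ O3) : ∃ B, Bd p.totalDegree B p := by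
  have : ∀ f : O3, ∃ B, ∀ σ, ‖σ‖ ≤ 2 → ‖ev σ f‖ ≤ B := fun f => by
    obtain ⟨B, h⟩ := (isCompact_closedBall (0 : ℂ) 2).exists_bound_of_continuousOn (ev_cont f)
    exact ⟨B, fun σ hσ => h σ (mem_closedBall_zero_iff.2 hσ)⟩
  choose B hB using this
  refine ⟨∑ ν ∈ p.support, B (coeff ν p), le_rfl, fun σ hσ => ?_⟩
  rw [nm_eq (support_map_subset _ _)]
  exact sum_le_sum fun ν _ => by rw [coeff_map]; exact hB _ σ hσ

end

/-- reduction of powers modulo a polynomial relation -/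
noncomputable def rd {R : Type} [CommRing R] (k : ℕ) (c : ℕ → R) : ℕ → ℕ → R
  | 0, i => if i = 0 then 1 else 0
  | j + 1, i => (if i = 0 then 0 else c (k + 1) * rd k c j (i - 1)) - rd k c j k * c i

theorem rd_spec {R : Type} [CommRing R] (k : ℕ) (c : ℕ → R) (φ : R →+* ℂ) (y : ℂ)
    (h : ∑ i ∈ range (k + 2), φ (c i) * y ^ i = 0) (j : ℕ) :
    φ (c (k + 1)) ^ j * y ^ j = ∑ i ∈ range (k + 1), φ (rd k c j i) * y ^ i := by
  induction j with
  | zero => simp [rd]
  | succ j ih =>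
    rw [sum_range_succ] at h ih
    simp only [rd, map_sub, map_mul, sub_mul, sum_sub_distrib, mul_assoc, ← mul_sum]
    rw [sum_range_succ' (fun i => φ (if i = 0 then 0 else _) * y ^ i)]
    simp only [Nat.add_one_ne_zero, if_false, if_true, map_zero, zero_mul, add_zero, map_mul,
      Nat.add_sub_cancel, pow_succ y, ← mul_assoc, ← sum_mul]
    simp only [mul_assoc, ← mul_sum]
    rw [pow_succ] at h
    linear_combination φ (c (k + 1)) * y * ih + φ (rd k c j k) * h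

theorem rd_bd {k e : ℕ} {B : ℝ} {c : ℕ → MvPolynomial τ O3} (h : ∀ i ≤ k + 1, Bd e B (c i))
    (j : ℕ) : ∀ i ≤ k, Bd (j * e) ((2 * B) ^ j) (rd k c j i) := by
  have h0 := (h 0 (by omega)).nonneg
  induction j with
  | zero =>
    intro i _
    simp only [rd]
    split_ifs
    · simpa using bd_one
    · exact bd_zero.mono (by omega) (by simp)
  | succ j ih =>
    intro i hi
    have h1 : Bd ((j + 1) * e) (B * (2 * B) ^ j)
        (if i = 0 then 0 else c (k + 1) * rd k c j (i - 1)) := by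
      split_ifs
      · exact bd_zero.mono (by omega) (by positivity)
      · exact ((h _ le_rfl).mul (ih _ (by omega))).mono (le_of_eq (by ring)) le_rfl
    exact (h1.sub (((ih k le_rfl).mul (h i (by omega))).mono (le_of_eq (by ring)) le_rfl)).mono
      le_rfl (le_of_eq (by ring))

theorem eval_box {R : Type} [CommRing R] (φ : R →+* ℂ) (y : τ → ℂ) (p : MvPolynomial τ R) {e : ℕ}
    (h : p.totalDegree ≤ e) : eval₂ φ y p = ∑ ν : τ → Fin (e + 1),
      φ (coeff (Finsupp.equivFunOnFinite.symm fun i => (ν i : ℕ)) p) * ∏ i, y i ^ (ν i : ℕ) := by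
  let ex : (τ → Fin (e + 1)) → τ →₀ ℕ := fun a => Finsupp.equivFunOnFinite.symm fun i => a i
  have hex : Function.Injective ex := fun a b h => funext fun i =>
    Fin.ext (congrFun (Finsupp.equivFunOnFinite.symm.injective h) i)
  rw [eval₂_eq']
  refine (sum_subset (s₂ := univ.image ex) (fun d hd => ?_) fun d _ hd => ?_).trans
    (sum_image fun _ _ _ _ h => hex h)
  · refine mem_image.2 ⟨fun i => ⟨d i, Nat.lt_succ_of_le ?_⟩, mem_univ _, ?_⟩
    · exact ((monomial_le_degreeOf i hd).trans (degreeOf_le_totalDegree p i)).trans h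
    · ext i; rfl
  · rw [notMem_support_iff.1 hd, map_zero, zero_mul]

theorem approx_piece (r k : ℕ) (t : O3) (c : ℕ → MvPolynomial (Fin r) O3) {δ : ℝ} (hδ : 0 < δ)
    (ρ : ℝ) : Approx {x : Option (Fin (r + 1)) → ℂ | ∃ σ, ‖σ‖ ≤ 1 ∧ x none = ev σ t ∧
      (∀ j, ‖x (some j)‖ ≤ ρ) ∧
      ∑ i ∈ range (k + 2), eval₂ (ev σ) (fun j => x (some j.succ)) (c i) * x (some 0) ^ i = 0 ∧
      δ ≤ ‖eval₂ (ev σ) (fun j => x (some j.succ)) (c (k + 1))‖} := by
  obtain ⟨e, B, hB, ht, hc⟩ : ∃ e B, 1 ≤ B ∧ Bd 0 B (C t : MvPolynomial (Fin r) O3) ∧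
      ∀ i ≤ k + 1, Bd e B (c i) := by
    choose B hB using exists_bd (τ := Fin r)
    have h0 : ∀ p, 0 ≤ B p := fun p => (hB p).nonneg
    have h1 : 0 ≤ ∑ i ∈ range (k + 2), B (c i) := sum_nonneg fun _ _ => h0 _
    refine ⟨∑ i ∈ range (k + 2), (c i).totalDegree, 1 + B (C t) + ∑ i ∈ range (k + 2), B (c i),
      by linarith [h0 (C t)], (hB _).mono (by simp) (by linarith), fun i hi => (hB _).mono ?_ ?_⟩
    · exact single_le_sum (f := fun i => (c i).totalDegree) (fun _ _ => Nat.zero_le _)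
        (mem_range.2 (by omega))
    · have := single_le_sum (f := fun i => B (c i)) (fun _ _ => h0 _)
        (mem_range.2 (by omega : i < k + 2))
      linarith [h0 (C t)]
  set e' := e + r with he'
  set c0 : ℝ := max δ⁻¹ 1 * max ρ 1 ^ (k + r * e') with hc0
  set c1 : ℝ := B * (2 * B) with hc1
  set c2 : ℝ := 2 * (k + 1) * (e' + 1) ^ r with hc2
  have r1 : 1 ≤ max ρ 1 := le_max_right _ _
  have a0 : 1 ≤ c0 := one_le_mul_of_one_le_of_one_le (le_max_right _ _) (one_le_pow₀ r1)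
  have a1 : 1 ≤ c1 := by nlinarith
  refine ⟨c0 * c1, by nlinarith, fun θ hθ X => ?_⟩
  obtain ⟨μ, hμ⟩ := pow_unbounded_of_one_lt (c2 * c0 * c1 * exp X) one_lt_two
  obtain ⟨D', hD'⟩ := exists_nat_ge ((k + 1) * (e' + 1) ^ r * (μ + 1) / θ)
  obtain ⟨D, hD, hD1⟩ : ∃ D : ℕ, (k + 1) * (e' + 1) ^ r * (μ + 1) ≤ θ * (D + 1) ∧ 1 ≤ D := by
    refine ⟨D' + 1, ?_, by omega⟩
    rw [div_le_iff₀ hθ] at hD'
    push_cast
    nlinarith
  let p : (Option (Fin (r + 1)) → Fin (D + 1)) → Fin (k + 1) → MvPolynomial (Fin r) O3 :=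
    fun a i => C t ^ (a none : ℕ) * (c (k + 1) ^ (D - a (some 0)) * rd k c (a (some 0)) i) *
      ∏ j, MvPolynomial.X j ^ (a (some j.succ) : ℕ)
  have hp : ∀ a i, Bd (D * e') (c1 ^ D) (p a i) := fun a i => by
    have l : ∀ o, (a o : ℕ) ≤ D := fun o => Nat.lt_succ_iff.1 (a o).2
    refine (((ht.pow _).mul (((hc _ le_rfl).pow _).mul (rd_bd hc _ i (Nat.lt_succ_iff.1 i.2)))).mul
      (bd_prod univ (fun j => (a (some j.succ) : ℕ) * 1) _ fun j => by
        simpa using (bd_X j).pow (a (some j.succ)))).mono ?_ ?_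
    · have : ∑ j : Fin r, (a (some j.succ) : ℕ) * 1 ≤ r * D := by
        simpa using sum_le_card_nsmul univ (fun j : Fin r => (a (some j.succ) : ℕ)) D fun j _ => l _
      rw [← add_mul, Nat.sub_add_cancel (l _), he']
      nlinarith
    · rw [mul_one, hc1, mul_pow B]
      refine mul_le_mul (pow_le_pow_right₀ hB (l _)) ?_ (by positivity) (by positivity)
      calc _ ≤ (2 * B) ^ (D - a (some 0)) * (2 * B) ^ (a (some 0) : ℕ) := by gcongr; linarith
        _ = _ := by rw [← pow_add, Nat.sub_add_cancel (l _)]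
  choose A hA1 hA2 using fun a i (ν : Fin r → Fin (D * e' + 1)) =>
    taylor (coeff (Finsupp.equivFunOnFinite.symm fun j => (ν j : ℕ)) (p a i)) (B := c1 ^ D)
      fun σ hσ => by
        rw [← coeff_map]
        exact (coeff_le_nm _ _).trans ((hp a i).2 σ hσ)
  have hD2 : (D * e' + 1 : ℝ) ≤ (e' + 1) * (D + 1) := by
    have : (0 : ℝ) ≤ e' := by positivity
    have : (0 : ℝ) ≤ D := by positivity
    nlinarith
  refine ⟨D, hD1, (Fin (k + 1) × (Fin r → Fin (D * e' + 1))) × Fin ((μ + 1) * D), inferInstance,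
    by simp; omega, ?_, fun a j => A a j.1.1 j.1.2 j.2, fun a j => (hA1 _ _ _ _).trans ?_, ?_⟩
  · simp only [Fintype.card_prod, Fintype.card_fin, Fintype.card_fun, Fintype.card_option]
    push_cast
    calc _ ≤ ((k + 1) * ((e' + 1) * (D + 1)) ^ r * ((μ + 1) * (D + 1)) : ℝ) := by
          gcongr; linarith
      _ = (k + 1) * (e' + 1) ^ r * (μ + 1) * (D + 1) ^ (r + 1) := by rw [mul_pow]; ring
      _ ≤ θ * (D + 1) * (D + 1) ^ (r + 1) := by gcongr
      _ = _ := by ring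
  · exact pow_le_pow_left₀ (by positivity) (by nlinarith) _
  rintro x ⟨σ, hσ, x1, x2, x3, x4⟩
  set φ := eval₂Hom (ev σ) fun j : Fin r => x (some j.succ) with hφ
  have l0 : φ (c (k + 1)) ≠ 0 := norm_pos_iff.1 (hδ.trans_le x4)
  let ω : Fin (k + 1) × (Fin r → Fin (D * e' + 1)) → ℂ := fun j =>
    (φ (c (k + 1)))⁻¹ ^ D * (x (some 0) ^ (j.1 : ℕ) * ∏ l, x (some l.succ) ^ (j.2 l : ℕ))
  have hω : ∀ j, ‖ω j‖ ≤ c0 ^ D := fun j => by
    rw [hc0, mul_pow, norm_mul, norm_pow, norm_inv, norm_mul, norm_pow, norm_prod]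
    refine mul_le_mul (pow_le_pow_left₀ (by positivity)
      ((inv_anti₀ hδ x4).trans (le_max_left _ _)) _) ?_ (by positivity) (by positivity)
    have b : ∀ l (n N : ℕ), n ≤ N → ‖x (some l)‖ ^ n ≤ max ρ 1 ^ N := fun l n N h =>
      (pow_le_pow_left₀ (norm_nonneg _) ((x2 l).trans (le_max_left _ _)) _).trans
        (pow_le_pow_right₀ r1 h)
    calc _ ≤ max ρ 1 ^ (k * D) * ∏ l : Fin r, max ρ 1 ^ (D * e') :=
          mul_le_mul (b _ _ _ ((Nat.lt_succ_iff.1 j.1.2).trans (Nat.le_mul_of_pos_right _ hD1)))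
            (prod_le_prod (fun _ _ => norm_nonneg _) fun l _ => (norm_pow _ _).trans_le
              (b _ _ _ (Nat.lt_succ_iff.1 (j.2 l).2))) (by positivity) (by positivity)
      _ = _ := by
          rw [prod_const, card_univ, Fintype.card_fin, ← pow_mul, ← pow_mul, ← pow_add]
          congr 1
          ring
  refine ⟨fun j => ω j.1 * (σ / 2) ^ (j.2 : ℕ), fun j => ?_, fun a => ?_⟩
  · rw [norm_mul, norm_pow]
    have h4 : ‖σ / 2‖ ≤ 1 := by
      rw [norm_div, Complex.norm_ofNat]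
      linarith
    exact (mul_le_of_le_one_right (norm_nonneg _) (pow_le_one₀ (norm_nonneg _) h4)).trans
      ((hω _).trans (pow_le_pow_left₀ (by positivity) (by nlinarith) _))
  have l : (a (some 0) : ℕ) ≤ D := Nat.lt_succ_iff.1 (a _).2
  have e1 : ∏ i, x i ^ (a i : ℕ) = ∑ j, ω j * ev σ (coeff (Finsupp.equivFunOnFinite.symm
      fun l => (j.2 l : ℕ)) (p a j.1)) := by
    have h1 := rd_spec k c φ (x (some 0)) x3 (a (some 0))
    rw [sum_range] at h1
    have h2 : ∀ i, ∑ ν : Fin r → Fin (D * e' + 1), ω (i, ν) * ev σ (coeff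
        (Finsupp.equivFunOnFinite.symm fun l => (ν l : ℕ)) (p a i)) =
        (φ (c (k + 1)))⁻¹ ^ D * (x none ^ (a none : ℕ) * φ (c (k + 1)) ^ (D - a (some 0)) *
          ∏ j : Fin r, x (some j.succ) ^ (a (some j.succ) : ℕ)) *
          (φ (rd k c (a (some 0)) i) * x (some 0) ^ (i : ℕ)) := fun i => by
      have h3 : φ (p a i) = _ := eval_box (ev σ) _ (p a i) (hp a i).1
      have h4 : φ (p a i) = x none ^ (a none : ℕ) * (φ (c (k + 1)) ^ (D - a (some 0)) *
          φ (rd k c (a (some 0)) i)) * ∏ j : Fin r, x (some j.succ) ^ (a (some j.succ) : ℕ) := by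
        simp [p, hφ, x1]
      calc _ = (φ (c (k + 1)))⁻¹ ^ D * x (some 0) ^ (i : ℕ) * φ (p a i) := by
            rw [h3, mul_sum]
            exact sum_congr rfl fun ν _ => by simp only [ω]; ring
        _ = _ := by rw [h4]; ring
    rw [Fintype.sum_prod_type, sum_congr rfl fun i _ => h2 i, ← mul_sum, ← h1,
      Fintype.prod_option, Fin.prod_univ_succ]
    have h5 : φ (c (k + 1)) ^ D = φ (c (k + 1)) ^ (D - a (some 0)) *
        φ (c (k + 1)) ^ (a (some 0) : ℕ) := by rw [← pow_add, Nat.sub_add_cancel l]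
    rw [inv_pow, h5]
    field_simp
  rw [e1, Fintype.sum_prod_type (f := fun j : _ × Fin ((μ + 1) * D) => _), ← sum_sub_distrib]
  refine (norm_sum_le _ _).trans ((sum_le_card_nsmul _ _
    (c0 ^ D * (2 * c1 ^ D / 2 ^ ((μ + 1) * D))) fun j _ => ?_).trans ?_)
  · simp only [mul_assoc, ← mul_sum, ← mul_sub, norm_mul]
    refine mul_le_mul (hω j) ?_ (norm_nonneg _) (by positivity)
    have := hA2 a j.1 j.2 σ hσ ((μ + 1) * D)
    rwa [sum_range] at this
  · simp only [card_univ, Fintype.card_prod, Fintype.card_fin, Fintype.card_fun, nsmul_eq_mul]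
    push_cast
    have b1 : (D * e' + 1 : ℝ) ≤ (e' + 1) ^ D := by
      have := one_add_mul_le_pow (a := (e' : ℝ)) (by linarith [(by positivity : (0 : ℝ) ≤ e')]) D
      rwa [add_comm, add_comm (1 : ℝ)] at this
    have b2 : (2 * (k + 1) : ℝ) ≤ (2 * (k + 1)) ^ D :=
      le_self_pow₀ (by linarith [(by positivity : (0 : ℝ) ≤ k)]) (by omega)
    have b3 : (c2 * c0 * c1 * exp X) ^ D ≤ 2 ^ ((μ + 1) * D) := by
      rw [pow_mul]
      refine pow_le_pow_left₀ (by positivity) (hμ.le.trans ?_) _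
      exact pow_le_pow_right₀ one_le_two (by omega)
    calc _ = (2 * (k + 1) * (D * e' + 1) ^ r * (c0 ^ D * c1 ^ D) / 2 ^ ((μ + 1) * D) : ℝ) := by
          ring
      _ ≤ (2 * (k + 1)) ^ D * ((e' + 1) ^ D) ^ r * (c0 ^ D * c1 ^ D) /
          (c2 * c0 * c1 * exp X) ^ D := by gcongr
      _ = _ := by
          rw [hc2, exp_neg, mul_comm X, exp_nat_mul, ← pow_mul, mul_comm D r, pow_mul]
          simp only [mul_pow]
          field_simp

end Pool.Agent.ZPT
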