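import Pool.Agent.P.MP_4fdccb_ag.Fam

/-! Elimination of one variable. -/

set_option linter.unusedSectionVars false
set_option linter.unusedVariables false

namespace Pool.Agent.ZPT
open Finset MvPolynomial

theorem cop {A : Type} [CommRing A] [IsDomain A] [UniqueFactorizationMonoid A]
    {f g : Polynomial A} (hf : f ≠ 0)
    (h : ∀ H, Irreducible H → H ∣ f → H ∣ g → H.natDegree = 0) :
    IsCoprime (f.map (algebraMap A (FractionRing A))) (g.map (algebraMap A (FractionRing A))) := by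
  have hi := IsFractionRing.injective A (FractionRing A)
  refine isCoprime_of_irreducible_dvd (fun h => hf ((Polynomial.map_eq_zero_iff hi).1 h.1))
    fun z hz h1 h2 => ?_
  have h3 := (UniqueFactorizationMonoid.factors_prod hf).map
    (Polynomial.mapRingHom (algebraMap A (FractionRing A)))
  rw [map_multiset_prod] at h3
  obtain ⟨_, h4, h5⟩ := hz.prime.exists_mem_multiset_dvd (h1.trans h3.symm.dvd)
  obtain ⟨H, h6, rfl⟩ := Multiset.mem_map.1 h4
  have h7 := UniqueFactorizationMonoid.irreducible_of_factor H h6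
  have h8 : H.natDegree ≠ 0 := fun h0 => by
    have := Polynomial.natDegree_le_of_dvd h5 ((Polynomial.map_ne_zero_iff hi).2 h7.ne_zero)
    have h9 := Polynomial.natDegree_pos_iff_degree_pos.2 (Polynomial.degree_pos_of_irreducible hz)
    rw [Polynomial.coe_mapRingHom, Polynomial.natDegree_map_eq_of_injective hi] at this
    omega
  have h9 := h7.isPrimitive h8
  have h10 := (h9.irreducible_iff_irreducible_map_fraction_map (K := FractionRing A)).1 h7
  exact h8 (h H h7 (UniqueFactorizationMonoid.dvd_of_mem_factors h6)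
    (h9.dvd_of_fraction_map_dvd_fraction_map ((hz.associated_of_dvd h10 h5).symm.dvd.trans h2)))

theorem res_ne {A : Type} [CommRing A] [IsDomain A] [UniqueFactorizationMonoid A]
    {f g : Polynomial A} (hf : f ≠ 0)
    (h : ∀ H, Irreducible H → H ∣ f → H ∣ g → H.natDegree = 0) {D : ℕ} (hD : g.natDegree ≤ D) :
    Polynomial.resultant f g f.natDegree D ≠ 0 := by
  have hi := IsFractionRing.injective A (FractionRing A)
  have h1 := Polynomial.resultant_ne_zero _ _ (cop hf h)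
  rw [Polynomial.natDegree_map_eq_of_injective hi, Polynomial.natDegree_map_eq_of_injective hi,
    Polynomial.resultant_map_map, map_ne_zero_iff _ hi] at h1
  obtain ⟨k, rfl⟩ := Nat.exists_eq_add_of_le hD
  rw [Polynomial.resultant_add_right_deg _ _ _ _ _ le_rfl]
  exact mul_ne_zero (pow_ne_zero _ (Polynomial.leadingCoeff_ne_zero.2 hf)) h1

theorem map_succ {R S : Type} [CommRing R] [CommRing S] {r : ℕ} (φ : R →+* S)
    (p : MvPolynomial (Fin (r + 1)) R) : finSuccEquiv S r (MvPolynomial.map φ p) =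
      (finSuccEquiv R r p).map (MvPolynomial.map φ) := by
  ext i ν
  rw [Polynomial.coeff_map, coeff_map, finSuccEquiv_coeff_coeff, finSuccEquiv_coeff_coeff,
    coeff_map]

theorem torus_zero {A : Type} [Fintype A] {H : MvPolynomial A ℂ} (hH : Irreducible H)
    (h : ∀ j, ¬ H ∣ X j) : ∃ P : A → ℂ, (∀ j, P j ≠ 0) ∧ eval P H = 0 := by
  by_contra hc
  have h1 : (∏ j, X j : MvPolynomial A ℂ) ∈ vanishingIdeal ℂ (zeroLocus ℂ (Ideal.span {H})) :=
    fun P hP => by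
      by_contra h0
      rw [map_prod] at h0
      exact hc ⟨P, fun j hj => h0 (prod_eq_zero (mem_univ j) (by simpa using hj)),
        hP H (Ideal.mem_span_singleton_self H)⟩
  rw [vanishingIdeal_zeroLocus_eq_radical,
    ((Ideal.span_singleton_prime hH.ne_zero).2 hH.prime).radical, Ideal.mem_span_singleton] at h1
  obtain ⟨j, -, hj⟩ := (hH.prime.dvd_finsetProd_iff _).1 h1
  exact h j hj

theorem elim {R : Type} [CommRing R] {r : ℕ} (f g : MvPolynomial (Fin (r + 1)) R) (φ : R →+* ℂ)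
    (hd : degreeOf 0 (MvPolynomial.map φ f) = degreeOf 0 f) (hd0 : degreeOf 0 f ≠ 0)
    (hX : ¬ X 0 ∣ MvPolynomial.map φ f)
    (hc : ∀ H : MvPolynomial (Fin (r + 1)) ℂ, (∃ P, (∀ j, P j ≠ 0) ∧ eval P H = 0) →
      ¬ ∀ P, eval P H = 0 → eval₂ φ P f = 0 ∧ eval₂ φ P g = 0) :
    ∃ W : MvPolynomial (Fin r) R, MvPolynomial.map φ W ≠ 0 ∧ ∀ (ψ : R →+* ℂ) (y : Fin (r + 1) → ℂ),
      eval₂ ψ y f = 0 → eval₂ ψ y g = 0 → eval₂ ψ (fun j => y j.succ) W = 0 := by
  refine ⟨Polynomial.resultant (finSuccEquiv R r f) (finSuccEquiv R r g) (degreeOf 0 f)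
    (degreeOf 0 g), ?_, fun ψ y h1 h2 => ?_⟩
  · rw [← Polynomial.resultant_map_map, ← map_succ, ← map_succ, ← hd, ← natDegree_finSuccEquiv]
    refine res_ne ((map_ne_zero_iff _ (finSuccEquiv ℂ r).injective).2 fun h => hX (by simp [h]))
      (fun H h1 h2 h3 => ?_) ?_
    · obtain ⟨H, rfl⟩ := (finSuccEquiv ℂ r).surjective H
      rw [map_dvd_iff] at h2 h3
      rw [MulEquiv.irreducible_iff] at h1
      rw [natDegree_finSuccEquiv]
      by_contra h0
      refine hc H (torus_zero h1 fun j hj => ?_) fun P hP => ?_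
      · by_cases e : j = 0
        · subst e
          exact hX ((h1.associated_of_dvd X_prime.irreducible hj).symm.dvd.trans h2)
        · obtain ⟨u, hu⟩ := hj
          have h4 := degreeOf_mul_eq (n := 0) h1.ne_zero
            (right_ne_zero_of_mul (hu ▸ X_ne_zero j : H * u ≠ 0))
          rw [← hu, degreeOf_X_of_ne (Ne.symm e)] at h4
          omega
      · obtain ⟨u, hu⟩ := h2
        obtain ⟨v, hv⟩ := h3
        rw [eval₂_eq_eval_map, eval₂_eq_eval_map, hu, hv, map_mul, map_mul, hP, zero_mul, zero_mul]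
        exact ⟨rfl, rfl⟩
    · rw [map_succ, ← natDegree_finSuccEquiv]
      exact Polynomial.natDegree_map_le
  · obtain ⟨p, q, -, -, h3⟩ := Polynomial.exists_mul_add_mul_eq_C_resultant
      (finSuccEquiv R r f) (finSuccEquiv R r g) (natDegree_finSuccEquiv f).le
      (natDegree_finSuccEquiv g).le (Or.inl hd0)
    have h4 := congrArg (Polynomial.eval₂RingHom (eval₂Hom ψ fun j => y j.succ) (y 0)) h3
    rw [eval₂_succ] at h1 h2
    simp only [map_add, map_mul, Polynomial.coe_eval₂RingHom, h1, h2, zero_mul, add_zero,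
      Polynomial.eval₂_C] at h4
    exact h4.symm

/-- reflection of a holomorphic function in the real axis -/
noncomputable def refl (f : O3) : O3 :=
  ⟨(starRingEnd ℂ) ∘ f.1 ∘ (starRingEnd ℂ), fun z hz => by
    have h1 : (starRingEnd ℂ) z ∈ Metric.ball (0 : ℂ) 3 := by simpa using hz
    have h2 := (DifferentiableOn.differentiableAt f.2 (Metric.isOpen_ball.mem_nhds h1)).conj_conj
    rw [Complex.conj_conj] at h2
    exact h2.differentiableWithinAt⟩

theorem ev_refl (f : O3) (σ : ℝ) : ev σ (refl f) = (starRingEnd ℂ) (ev σ f) := by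
  simp [ev_apply, refl]

/-- elimination between an analytic family and its reflection -/
theorem elim_refl {r : ℕ} (s : Finset (Fin (r + 1) →₀ ℕ)) (a : (Fin (r + 1) →₀ ℕ) → O3)
    (ϱ : Fin (r + 1) → O3) (ϱ' : ℝ → Fin (r + 1) → ℝ) (hϱ : ∀ (σ : ℝ) j, |σ| ≤ 1 →
      ev σ (ϱ j) = ϱ' σ j) (h0 : ∃ μ ∈ s, μ 0 = 0) (h1 : ∃ μ ∈ s, μ 0 ≠ 0) (σ₁ : ℝ)
    (hσ : |σ₁| ≤ 1) (ha : ∀ μ ∈ s, ev σ₁ (a μ) ≠ 0)
    (hc : ∀ H : MvPolynomial (Fin (r + 1)) ℂ, (∃ P, (∀ j, P j ≠ 0) ∧ eval P H = 0) →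
      ¬ ∀ P : Fin (r + 1) → ℂ, (∀ j, P j ≠ 0) → eval P H = 0 →
        ∑ μ ∈ s, ev σ₁ (a μ) * ∏ j, P j ^ μ j = 0 ∧
        ∑ μ ∈ s, ev σ₁ (a μ) * ∏ j, (ϱ' σ₁ j / (starRingEnd ℂ) (P j)) ^ μ j = 0) :
    ∃ W : MvPolynomial (Fin r) O3, MvPolynomial.map (ev σ₁) W ≠ 0 ∧
      ∀ (σ : ℝ) (P : Fin (r + 1) → ℂ), |σ| ≤ 1 → (∀ j, P j ≠ 0) → (∀ j, ‖P j‖ ^ 2 = ϱ' σ j) →
        ∑ μ ∈ s, ev σ (a μ) * ∏ j, P j ^ μ j = 0 → eval₂ (ev σ) (fun j => P j.succ) W = 0 := by
  obtain ⟨D, hD⟩ : ∃ D, ∀ μ ∈ s, ∀ j, μ j ≤ D :=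
    ⟨s.sup fun μ => univ.sup μ, fun μ hμ j =>
      (le_sup (f := μ) (mem_univ j)).trans (le_sup (f := fun μ : Fin (r + 1) →₀ ℕ => univ.sup ⇑μ) hμ)⟩
  set f : MvPolynomial (Fin (r + 1)) O3 := ∑ μ ∈ s, monomial μ (a μ) with hf
  set g : MvPolynomial (Fin (r + 1)) O3 :=
    ∑ μ ∈ s, C (refl (a μ)) * ∏ j, C (ϱ j) ^ μ j * X j ^ (D - μ j) with hg
  have ef : ∀ σ P, eval₂ (ev σ) P f = ∑ μ ∈ s, ev σ (a μ) * ∏ j, P j ^ μ j := fun σ P => by
    simp [hf, eval₂_sum, eval₂_monomial, Finsupp.prod_fintype]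
  have eg : ∀ (σ : ℝ) (P : Fin (r + 1) → ℂ), |σ| ≤ 1 → (∀ j, P j ≠ 0) → eval₂ (ev σ) P g =
      (∏ j, P j ^ D) * (starRingEnd ℂ)
        (∑ μ ∈ s, ev σ (a μ) * ∏ j, (ϱ' σ j / (starRingEnd ℂ) (P j)) ^ μ j) := fun σ P h h' => by
    rw [hg, ← coe_eval₂Hom, map_sum, map_sum, mul_sum]
    refine sum_congr rfl fun μ hμ => ?_
    rw [map_mul, map_mul, map_prod, map_prod, eval₂Hom_C, ev_refl, mul_left_comm,
      ← prod_mul_distrib]
    refine congrArg _ (prod_congr rfl fun j _ => ?_)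
    rw [map_mul, map_pow, map_pow, eval₂Hom_C, eval₂Hom_X', hϱ σ j h, map_pow, map_div₀,
      Complex.conj_conj, Complex.conj_ofReal, pow_sub₀ _ (h' j) (hD μ hμ j), div_pow]
    ring
  have cf : ∀ μ, coeff μ f = if μ ∈ s then a μ else 0 := fun μ => by
    simp [hf, coeff_sum, coeff_monomial]
  have sf : (MvPolynomial.map (ev σ₁) f).support = s := by
    ext μ
    rw [mem_support_iff, coeff_map, cf]
    split_ifs with h
    · simpa [h] using ha μ h
    · simp [h]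
  have sf' : f.support = s := by
    refine Subset.antisymm (fun μ h => ?_) (sf ▸ support_map_subset _ _)
    by_contra h'
    exact mem_support_iff.1 h (by rw [cf, if_neg h'])
  obtain ⟨W, w1, w2⟩ := elim f g (ev σ₁) (by rw [degreeOf_eq_sup, degreeOf_eq_sup, sf, sf'])
    (by
      obtain ⟨μ, h2, h3⟩ := h1
      have := monomial_le_degreeOf 0 (sf' ▸ h2)
      omega)
    (by
      rintro ⟨u, hu⟩
      obtain ⟨μ, h2, h3⟩ := h0
      refine mem_support_iff.1 (sf ▸ h2) ?_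
      rw [hu, coeff_X_mul', if_neg (by simpa using h3)])
    fun H h2 h3 => hc H h2 fun P h4 h5 => by
      obtain ⟨h6, h7⟩ := h3 P h5
      rw [eg σ₁ P hσ h4, mul_eq_zero, map_eq_zero] at h7
      exact ⟨ef σ₁ P ▸ h6, h7.resolve_left (prod_ne_zero_iff.2 fun j _ => pow_ne_zero _ (h4 j))⟩
  refine ⟨W, w1, fun σ P h2 h3 h4 h5 => w2 _ P ((ef σ P).trans h5) ?_⟩
  have e : ∀ j, (ϱ' σ j : ℂ) / (starRingEnd ℂ) (P j) = P j := fun j => by
    rw [div_eq_iff ((map_ne_zero _).2 (h3 j)), ← h4, Complex.mul_conj']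
    simp
  rw [eg σ P h2 h3]
  simp only [e, h5, map_zero, mul_zero]

end Pool.Agent.ZPT
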