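import Pool.Agent.P.MP_4fdccb_ag.Loc

/-! The real slices of the fibred variety are negligible. -/

set_option linter.unusedSectionVars false
set_option linter.unusedVariables false

namespace Pool.Agent.ZPT
open Finset MvPolynomial Topology Filter Metric Matrix

variable {K : Type} [Field K] [NumberField K] [Algebra K ℂ] {B : Type} [Fintype B] [DecidableEq B]
  {r : ℕ}

/-- the ideal of the base curve -/
noncomputable abbrev base {A : Type} (𝔓 : Ideal (MvPolynomial (A ⊕ B) K)) :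
    Ideal (MvPolynomial B K) := 𝔓.comap (rename Sum.inr : MvPolynomial B K →ₐ[K] _)

theorem base_mem {A : Type} {𝔓 : Ideal (MvPolynomial (A ⊕ B) K)} {z : A ⊕ B → ℂ} (hz : z ∈ Tor 𝔓) :
    z ∘ Sum.inr ∈ Tor (base 𝔓) :=
  ⟨fun i => hz.1 _, fun f hf => by rw [← aeval_rename]; exact hz.2 _ hf⟩

/-- a polynomial given by its coefficients with respect to the fibre variables -/
noncomputable def FF {A : Type} [Fintype A] (s : Finset (A →₀ ℕ))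
    (c : (A →₀ ℕ) → MvPolynomial B K) : MvPolynomial (A ⊕ B) K :=
  ∑ μ ∈ s, rename Sum.inr (c μ) * ∏ j, X (Sum.inl j) ^ μ j

theorem aeval_FF {A L : Type} [Fintype A] [CommRing L] [Algebra K L] (s : Finset (A →₀ ℕ))
    (c : (A →₀ ℕ) → MvPolynomial B K) (z : A ⊕ B → L) : aeval z (FF s c) =
      ∑ μ ∈ s, aeval (z ∘ Sum.inr) (c μ) * ∏ j, z (Sum.inl j) ^ μ j := by
  simp [FF, aeval_rename]

def wv (i₀ : B) : Option (Fin r) → Fin (r + 1) ⊕ B :=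
  fun o => o.elim (Sum.inr i₀) fun j => Sum.inl j.succ

structure Setup (𝔓 : Ideal (MvPolynomial (Fin (r + 1) ⊕ B) K)) (i₀ : B)
    (s : Finset (Fin (r + 1) →₀ ℕ)) (c : (Fin (r + 1) →₀ ℕ) → MvPolynomial B K) (T : Set ℂ) :
    Prop where
  fin : T.Finite
  mem : FF s c ∈ 𝔓
  good : ∀ Q ∈ Tor (base 𝔓), Q i₀ ∉ T → (∀ μ ∈ s, aeval Q (c μ) ≠ 0) ∧
    ∀ P : Fin (r + 1) → ℂ, (∀ j, P j ≠ 0) → ∑ μ ∈ s, aeval Q (c μ) * ∏ j, P j ^ μ j = 0 →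
      Sum.elim P Q ∈ Tor 𝔓
  z0 : ∃ μ ∈ s, μ 0 = 0
  z1 : ∃ μ ∈ s, μ 0 ≠ 0
  ind : ∀ G, rename (wv i₀) G ∈ 𝔓 → G = 0
  br : ∀ i, ∃ A : Polynomial (Polynomial K), (∀ Q ∈ Tor (base 𝔓), e2 (Q i₀) (Q i) A = 0) ∧
    ∀ Q ∈ Tor (base 𝔓), Q i₀ ∉ T → e2 (Q i₀) (Q i) (Polynomial.derivative A) ≠ 0

/-- the points of the base whose fibre shares a hypersurface with its reflection -/
def Xc {A : Type} (𝔓 : Ideal (MvPolynomial (A ⊕ B) K)) (u : B → ℝ) (β : A → B → ℝ) :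
    Set (B → ℂ) :=
  {Q ∈ Tor (base 𝔓) | u ⬝ᵥ Lg Q = 0 ∧ ∃ H : MvPolynomial A ℂ,
    (∃ P, (∀ j, P j ≠ 0) ∧ eval P H = 0) ∧ ∀ P : A → ℂ, (∀ j, P j ≠ 0) → eval P H = 0 →
      Sum.elim P Q ∈ Tor 𝔓 ∧ Sum.elim (fun j => (Real.exp (2 * (β j ⬝ᵥ Lg Q)) : ℂ) /
        (starRingEnd ℂ) (P j)) Q ∈ Tor 𝔓}

variable {𝔓 : Ideal (MvPolynomial (Fin (r + 1) ⊕ B) K)} {i₀ : B}
  {s : Finset (Fin (r + 1) →₀ ℕ)} {c : (Fin (r + 1) →₀ ℕ) → MvPolynomial B K} {T : Set ℂ}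

theorem Setup.trans (h : Setup 𝔓 i₀ s c T) (F : MvPolynomial Unit K)
    (hF : rename (fun _ => Sum.inr i₀) F ∈ 𝔓) : F = 0 :=
  rename_injective (fun _ => (none : Option (Fin r))) (Function.injective_of_subsingleton _)
    ((h.ind _ (by rw [rename_rename]; exact hF)).trans (map_zero _).symm)

theorem Setup.levelA (h : Setup 𝔓 i₀ s c T) {u : B → ℝ} {β : Fin (r + 1) → B → ℝ}
    (hc : (Xc 𝔓 u β).Finite) {q l : ℂ → B → ℂ} {t₁ : ℂ} (hD : Dat (Tor (base 𝔓)) i₀ q l t₁)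
    (h0 : (Gs u l t₁).re = 0) (hd : deriv (Gs u l) t₁ ≠ 0) (ρ : ℝ) : ∃ N ∈ 𝓝 t₁,
      Neg 𝔓 {z | z ∈ Tor 𝔓 ∧ (∀ j, ‖z (Sum.inl j)‖ ≤ ρ) ∧ z (Sum.inr i₀) ∈ N ∧
        q (z (Sum.inr i₀)) = z ∘ Sum.inr ∧ u ⬝ᵥ Lg (z ∘ Sum.inr) = 0 ∧
        ∀ j, Lg z (Sum.inl j) = β j ⬝ᵥ Lg (z ∘ Sum.inr)} := by
  obtain ⟨τ, t1, t2, t3, t4⟩ := hD.arc h0 hd
  have mk : ∀ f : ℂ → ℂ, (∀ t, Dat (Tor (base 𝔓)) i₀ q l t → AnalyticAt ℂ f t) →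
      (fun σ => f (τ σ)) ∈ O3 := fun f hf σ hσ =>
    ((hf _ (t1 σ hσ).2).comp (t1 σ hσ).1).differentiableAt.differentiableWithinAt
  have hr : ∀ σ : ℝ, |σ| ≤ 1 → (σ : ℂ) ∈ ball (0 : ℂ) 3 := fun σ hσ => by
    rw [mem_ball_zero_iff, Complex.norm_real, Real.norm_eq_abs]
    linarith
  let a : (Fin (r + 1) →₀ ℕ) → O3 := fun μ => ⟨_, mk (fun t => aeval (q t) (c μ))
    fun t ht => AnalyticAt.aeval_mvPolynomial ht.aq _⟩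
  let g : Fin (r + 1) → O3 := fun j => ⟨_, mk (Gs (β j) l) fun t ht => ht.aG _⟩
  let ϱ : Fin (r + 1) → O3 := fun j =>
    ⟨fun σ => Complex.exp ((g j + refl (g j)).1 σ), DifferentiableOn.cexp (g j + refl (g j)).2⟩
  obtain ⟨_, ⟨σ₁, s1, rfl⟩, s2⟩ := ((Set.Icc_infinite (by norm_num)).image t3).exists_notMem_finite
    (h.fin.union (hc.image (· i₀)))
  have s3 := abs_le.2 s1
  have s4 := (t1 _ (hr σ₁ s3)).2
  obtain ⟨s5, s6, -⟩ := s4.ev.self_of_nhds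
  have s7 := h.good _ s5 fun h => s2 (Or.inl (by rwa [s6] at h))
  obtain ⟨W, w1, w2⟩ := elim_refl s a ϱ (fun σ j => Real.exp (2 * (β j ⬝ᵥ Lg (q (τ σ)))))
    (fun σ j hσ => by
      change Complex.exp (ev σ (g j + refl (g j))) = _
      rw [map_add, ev_refl, Complex.add_conj, Complex.ofReal_exp, ← (t1 _ (hr σ hσ)).2.re]
      rfl) h.z0 h.z1 σ₁ s3 s7.1 fun H h1 h2 => s2 (Or.inr ⟨_, ⟨s5, (s4.re u).symm.trans
      (t2 σ₁ s3), H, h1, fun P h3 h4 => ⟨s7.2 P h3 (h2 P h3 h4).1, s7.2 _ (fun j => div_ne_zero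
        (by exact_mod_cast (Real.exp_pos _).ne') ((map_ne_zero _).2 (h3 j))) (h2 P h3 h4).2⟩⟩, s6⟩)
  refine ⟨_, t4.and hD.near, ((neg_family ⟨_, mk id fun t _ => analyticAt_id⟩ ρ r W
    ⟨σ₁, hr σ₁ s3, w1⟩).pull (wv i₀) h.ind).mono ?_⟩
  rintro z ⟨z1, z2, ⟨z3, z4⟩, z5, z6, z7⟩
  obtain ⟨σ, h1, h2⟩ := z3 (by rw [z4.re, z5, z6])
  refine ⟨σ, by simpa using h1, h2.symm, fun j => z2 _, w2 σ (fun j => z (Sum.inl j)) h1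
    (fun j => z1.1 _) (fun j => ?_) ?_⟩
  · rw [h2, z5, ← z7, Lg, two_mul, Real.exp_add, Real.exp_log (norm_pos_iff.2 (z1.1 _)), sq]
  · have := z1.2 _ h.mem
    rw [aeval_FF, ← z5, ← h2] at this
    exact this

noncomputable def Psi {A : Type} [Fintype A] (ω : (B → ℝ) × (A → B → ℝ)) (y : A ⊕ B → ℝ) : ℝ :=
  |ω.1 ⬝ᵥ y ∘ Sum.inr| + ∑ j, |y (Sum.inl j) - ω.2 j ⬝ᵥ y ∘ Sum.inr|

theorem psi_cont {A : Type} [Fintype A] : Continuous (Function.uncurry (Psi (A := A) (B := B))) := by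
  unfold Psi dotProduct Function.uncurry
  simp only [Function.comp]
  fun_prop

theorem psi_zero {A : Type} [Fintype A] {ω : (B → ℝ) × (A → B → ℝ)} {y : A ⊕ B → ℝ} :
    Psi ω y = 0 ↔ ω.1 ⬝ᵥ y ∘ Sum.inr = 0 ∧ ∀ j, y (Sum.inl j) = ω.2 j ⬝ᵥ y ∘ Sum.inr := by
  rw [Psi, add_eq_zero_iff_of_nonneg (abs_nonneg _) (sum_nonneg fun _ _ => abs_nonneg _),
    sum_eq_zero_iff_of_nonneg fun _ _ => abs_nonneg _]
  simp [sub_eq_zero]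

theorem Setup.slice [𝔓.IsPrime] (h : Setup 𝔓 i₀ s c T) (h3 : 3 ≤ Fintype.card B)
    (hb : ∀ u w : B → ℝ, LinearIndependent ℝ ![u, w] →
      {Q ∈ Tor (base 𝔓) | u ⬝ᵥ Lg Q = 0 ∧ w ⬝ᵥ Lg Q = 0}.Finite)
    {u : B → ℝ} (hu : u ≠ 0) {β : Fin (r + 1) → B → ℝ} (hc : (Xc 𝔓 u β).Finite) (R : ℝ) :
    Neg 𝔓 {z ∈ Box 𝔓 R | Psi (u, β) (Lg z) = 0} := by
  have hE : IsCompact {z ∈ Box 𝔓 R | Psi (u, β) (Lg z) = 0} :=
    slice_compact (psi_cont.comp (Continuous.prodMk_right (u, β))) R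
  refine neg_pl hE (neg_fin (Sum.inr i₀) h.trans h.fin) fun z₀ z1 z2 => ?_
  have hQ := base_mem z1.1.1
  have c1 : ContinuousAt (fun z : Fin (r + 1) ⊕ B → ℂ => z ∘ Sum.inr) z₀ :=
    (continuous_pi fun i => continuous_apply _).continuousAt
  have c2 : ∀ z, ContinuousAt (fun z : Fin (r + 1) ⊕ B → ℂ => z (Sum.inr i₀)) z :=
    fun z => (continuous_apply _).continuousAt
  have n1 := neg_fin (𝔓 := 𝔓) (Sum.inr i₀) h.trans (Set.finite_singleton (z₀ (Sum.inr i₀)))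
  by_cases hi : ∃ᶠ Q in 𝓝 (z₀ ∘ Sum.inr), Q ∈ Tor (base 𝔓) ∧ Q i₀ ≠ (z₀ ∘ Sum.inr) i₀
  swap
  · refine ⟨_, c1.eventually (not_frequently.1 hi), n1.mono fun z hz => ?_⟩
    by_contra hc
    exact hz.2 ⟨base_mem hz.1.1.1, hc⟩
  obtain ⟨q, l, hD, h4⟩ := param hQ (fun i =>
    let ⟨A, a1, a2⟩ := h.br i; ⟨A, a1, a2 _ hQ z2⟩) hi
  have h5 := hD.deriv_ne h3 hb hu (by
    rw [h4.self_of_nhds hQ]; exact (psi_zero.1 z1.2).1)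
  rw [eventually_nhdsWithin_iff] at h5
  obtain ⟨ε, e0, he⟩ := Metric.nhds_basis_closedBall.eventually_iff.1
    ((c1.eventually h4).and ((c2 z₀).eventually (h5.and hD.near)))
  refine ⟨_, closedBall_mem_nhds z₀ e0, neg_pl (hE.inter_right isClosed_closedBall) n1
    fun z hz hz' => ?_⟩
  obtain ⟨a1, a2, a3⟩ := he hz.2
  obtain ⟨N, hN, h6⟩ := h.levelA hc a3 (by
    rw [a3.re]
    exact (congrArg (u ⬝ᵥ Lg ·) (a1 (base_mem hz.1.1.1))).trans (psi_zero.1 hz.1.2).1) (a2 hz')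
    (Real.exp R)
  refine ⟨_, c2 z hN, h6.mono ?_⟩
  rintro y ⟨⟨⟨y1, y2⟩, y3⟩, y4⟩
  exact ⟨y1.1, fun j => (lg_iff.1 ⟨y1.1.1 _, y1.2 _⟩).2, y4, (he y3).1 (base_mem y1.1),
    psi_zero.1 y2⟩

end Pool.Agent.ZPT
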